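import Pool.Agent.Lib.MP_00590d_ag.Proj

set_option autoImplicit false

/-!
# MP_00590d_ag : ACT
-/

namespace MP590

open MPb00168 TCMM

lemma aS_mk (g : ℕ) (φ : AutP g) : aS g (QuotientGroup.mk φ) = aP g φ := rfl

lemma aP_eq_one_iff (g : ℕ) (φ : AutP g) : aP g φ = 1 ↔ φ ∈ LevA g := by
  constructor
  · intro h s
    have h1 : (aP g φ).symm s = s := by rw [h]; rfl
    exact h1
  · intro h
    refine Equiv.ext fun s => ?_
    have h1 : (aP g φ).symm s = s := h s
    rw [Equiv.symm_apply_eq] at h1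
    exact h1.symm

lemma mem_lev_iff (g : ℕ) (γ : Gam g) : γ ∈ Lev g ↔ aS g γ = 1 := by
  constructor
  · rintro ⟨φ, hφ, rfl⟩
    exact (aP_eq_one_iff g φ).2 hφ
  · intro h
    obtain ⟨φ, rfl⟩ := QuotientGroup.mk_surjective γ
    exact ⟨φ, (aP_eq_one_iff g φ).1 h, rfl⟩

lemma lev_eq_ker (g : ℕ) : Lev g = (aS g).ker := by
  ext γ
  rw [mem_lev_iff, MonoidHom.mem_ker]

instance lev_normal (g : ℕ) : (Lev g).Normal := by
  rw [lev_eq_ker]
  infer_instance

instance lev_finite (g : ℕ) : Finite (Gam g ⧸ Lev g) := by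
  refine Finite.of_injective
    (fun x : Gam g ⧸ Lev g => QuotientGroup.lift (Lev g) (aS g) (lev_eq_ker g).le x) ?_
  rw [injective_iff_map_eq_one (QuotientGroup.lift (Lev g) (aS g) (lev_eq_ker g).le)]
  intro x hx
  obtain ⟨γ, rfl⟩ := QuotientGroup.mk_surjective x
  rw [QuotientGroup.eq_one_iff, mem_lev_iff]
  exact hx

variable {g : ℕ} (L : Tors g)

lemma act_continuous (γ : Gam g) : Continuous (L.act γ) := by
  rw [L.q_quot.continuous_iff]
  have e : L.act γ ∘ L.q = fun m => L.q (γ • m) := by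
    funext m
    exact (L.act_q γ m).symm
  rw [e]
  exact L.q_quot.continuous.comp (continuous_const_smul γ)

lemma act_mul (γ γ' : Gam g) (y : L.Y) : L.act (γ * γ') y = L.act γ (L.act γ' y) := by
  obtain ⟨m, rfl⟩ := L.q_quot.surjective y
  rw [← L.act_q, ← L.act_q, ← L.act_q, mul_smul]

lemma act_lev (γ : Gam g) (hγ : γ ∈ Lev g) (y : L.Y) : L.act γ y = y := by
  obtain ⟨m, rfl⟩ := L.q_quot.surjective y
  rw [← L.act_q]
  exact ((L.q_orbit m (γ • m)).2 ⟨γ, hγ, rfl⟩).symm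

lemma act_one (y : L.Y) : L.act 1 y = y := act_lev L 1 (Lev g).one_mem y

/-- Equivariant maps of the total space of a covering to the group. -/
lemma exists_equiv {Γ T : Type} [Group Γ] [TopologicalSpace T] (C : GCov Γ T) :
    ∃ u : C.T → Γ, ∀ (γ : Γ) (m : C.T), u (γ • m) = γ * u m := by
  have h1 : ∀ m : C.T, ∃ γ : Γ, γ • (C.surj (C.p m)).choose = m := by
    intro m
    exact (C.orbit _ _).1 (C.surj (C.p m)).choose_spec
  choose u hu using h1
  refine ⟨u, fun γ m => ?_⟩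
  have hp : C.p (γ • m) = C.p m := ((C.orbit m (γ • m)).2 ⟨γ, rfl⟩).symm
  have e1 : u (γ • m) • (C.surj (C.p m)).choose = γ • m := by
    have := hu (γ • m)
    rwa [hp] at this
  have e2 : (γ * u m) • (C.surj (C.p m)).choose = γ • m := by
    rw [mul_smul, hu m]
  have e3 : ((γ * u m)⁻¹ * u (γ • m)) • (C.surj (C.p m)).choose =
      (C.surj (C.p m)).choose := by
    rw [mul_smul, e1, ← e2, inv_smul_smul]
  have e4 := C.free _ _ e3
  rw [inv_mul_eq_one] at e4
  exact e4.symm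

theorem specAct : SpecAct := by
  refine ⟨mem_lev_iff, lev_normal, lev_finite, fun g L =>
    ⟨act_continuous L, act_mul L, act_lev L, ?_⟩⟩
  obtain ⟨u, hu⟩ := exists_equiv L.M
  choose ch hch using L.q_quot.surjective
  have key : ∀ (m : L.M.T) (s : SS g), (aS g (u (ch (L.q m)))).symm s = (aS g (u m)).symm s := by
    intro m s
    obtain ⟨γ, hγ, h⟩ := (L.q_orbit m (ch (L.q m))).1 (hch (L.q m)).symm
    rw [← h, hu, map_mul, (mem_lev_iff g γ).1 hγ, one_mul]
  refine ⟨fun y s => (aS g (u (ch y))).symm s, fun y => (aS g (u (ch y))).symm.injective,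
    fun γ y s => ?_⟩
  obtain ⟨m, rfl⟩ := L.q_quot.surjective y
  change (aS g (u (ch (L.act γ (L.q m))))).symm (aS g γ s) = (aS g (u (ch (L.q m)))).symm s
  rw [← L.act_q, key, key, hu, map_mul, Equiv.symm_apply_eq, Equiv.Perm.mul_apply,
    Equiv.apply_symm_apply]

end MP590
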