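import Pool.Agent.Lib.MP_00590d_ag.Choice

set_option autoImplicit false

/-!
# MP_00590d_ag : CODIM and GEO
-/

namespace MP590

open MPb00168 TCMM

/-- An irreducible set contained in a finite union of closed sets is contained in one of them. -/
lemma Irr.subset_of_iUnion {n : ℕ} {Y W : Set (PS n)} (hW : Irr Y W) {ι : Type*} (s : Finset ι)
    {A : ι → Set (PS n)} (hA : ∀ i ∈ s, ZC Y (A i)) (h : W ⊆ ⋃ i ∈ s, A i) :
    ∃ i ∈ s, W ⊆ A i := by
  classical
  induction s using Finset.induction_on with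
  | empty =>
    obtain ⟨y, hy⟩ := hW.2.1
    have := h hy
    simp at this
  | insert i s hi ih =>
    rw [Finset.set_biUnion_insert] at h
    rcases hW.2.2 _ _ (hA i (Finset.mem_insert_self _ _))
      (ZC.biUnion s fun j hj => hA j (Finset.mem_insert_of_mem hj)) h with h1 | h1
    · exact ⟨i, Finset.mem_insert_self _ _, h1⟩
    · obtain ⟨j, hj, h2⟩ := ih (fun j hj => hA j (Finset.mem_insert_of_mem hj)) h1
      exact ⟨j, Finset.mem_insert_of_mem hj, h2⟩

theorem specCodim : SpecCodim := by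
  classical
  intro g L
  -- the irreducible components of `Y`
  obtain ⟨S, hS, hSY⟩ := zc_decomp L.Y L.Y (zc_self L.Y)
  choose! p hp using fun (W : Set (PS L.n)) (hW : W ∈ S) => (hS W hW).2.1
  obtain ⟨D, Θ, hD, hDA⟩ := specChoice g L ↑(S.image p) (Finset.finite_toSet _) (by
    intro y hy
    rw [Finset.mem_coe, Finset.mem_image] at hy
    obtain ⟨W, hW, rfl⟩ := hy
    exact (hS W hW).1.1 (hp W hW))
  -- the irreducible components of the sets `D t`
  choose S' hS' hSD using fun t => zc_decomp L.Y (D t) (hD.zc t)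
  choose! p' hp' using fun (t : NC (SS g)) (W : Set (PS L.n)) (hW : W ∈ S' t) =>
    (hS' t W hW).2.1
  obtain ⟨D', Θ', hD', hDA'⟩ := specChoice g L
    ↑(Finset.univ.biUnion fun t => (S' t).image (p' t)) (Finset.finite_toSet _) (by
    intro y hy
    rw [Finset.mem_coe, Finset.mem_biUnion] at hy
    obtain ⟨t, -, hy⟩ := hy
    rw [Finset.mem_image] at hy
    obtain ⟨W, hW, rfl⟩ := hy
    exact (hS' t W hW).1.1 (hp' t W hW))
  have hzc : ∀ t, ZC L.Y (D t ∩ D' t) := fun t => (hD.zc t).inter (hD'.zc t)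
  refine ⟨fun j => if j then D' else D, fun j => if j then Θ' else Θ, ?_, ?_, ?_⟩
  · intro j
    cases j
    · exact hD
    · exact hD'
  · intro W hWZ hW
    change W ⊆ ⋃ t, D t ∩ D' t at hWZ
    obtain ⟨t, -, ht⟩ := hW.subset_of_iUnion Finset.univ (A := fun t => D t ∩ D' t)
      (fun t _ => hzc t) (by simpa using hWZ)
    obtain ⟨C₁, hC₁, h1⟩ := hW.subset_of_iUnion (S' t) (A := fun W => W)
      (fun W hW => (hS' t W hW).1) (by rw [← hSD t]; exact ht.trans Set.inter_subset_left)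
    have hC₁D : C₁ ⊆ D t := by
      rw [hSD t]
      exact Set.subset_biUnion_of_mem (u := fun W => W) hC₁
    obtain ⟨C₂, hC₂, h2⟩ := (hS' t C₁ hC₁).subset_of_iUnion S (A := fun W => W)
      (fun W hW => (hS W hW).1) (by rw [← hSY]; exact (hS' t C₁ hC₁).1.1)
    have hn1 : ¬ C₁ ⊆ W := by
      intro h
      refine hDA' t (p' t C₁) ?_ (ht (h (hp' t C₁ hC₁))).2
      rw [Finset.mem_coe, Finset.mem_biUnion]
      exact ⟨t, Finset.mem_univ _, Finset.mem_image_of_mem _ hC₁⟩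
    have hn2 : ¬ C₂ ⊆ C₁ := by
      intro h
      refine hDA t (p C₂) ?_ (hC₁D (h (hp C₂ hC₂)))
      rw [Finset.mem_coe]
      exact Finset.mem_image_of_mem _ hC₂
    refine ⟨![W, C₁, C₂], rfl, ?_, ?_⟩
    · intro i
      fin_cases i
      · exact hW
      · exact hS' t C₁ hC₁
      · exact hS C₂ hC₂
    · intro i
      fin_cases i
      · exact ⟨h1, hn1⟩
      · exact ⟨h2, hn2⟩
  · exact ZC.iUnion hzc

/-- GEO, assuming TOP. -/
theorem specGeo (hTop : SpecTop) (hPhase : SpecPhase) : SpecGeo := by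
  intro g L f hf u hu
  obtain ⟨D, Θ, hG, hcod, hzc⟩ := specCodim g L
  refine ⟨⋃ t, D false t ∩ D true t, hzc, ?_, hcod, ?_⟩
  · intro γ y hy
    rw [Set.mem_iUnion] at hy ⊢
    obtain ⟨t, h1, h2⟩ := hy
    exact ⟨aNC (aS g) γ t, ((hG false).dinv γ t y).2 h1, ((hG true).dinv γ t y).2 h2⟩
  · have a1 : ∀ (j : Bool) (t : NC (SS g)), IsOpen {m : L.M.T | (L.q m : PS L.n) ∉ D j t} :=
      fun j t => ((hG j).closed t).isOpen_compl.preimage L.q_quot.continuous
    have a2 : ∀ (j : Bool) (t : NC (SS g)), {m : L.M.T | (L.q m : PS L.n) ∉ D j (rot t)} =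
        {m : L.M.T | (L.q m : PS L.n) ∉ D j t} := by
      intro j t
      rw [(hG j).drot t]
    have a3 : ∀ (j : Bool) (γ : Gam g) (t : NC (SS g)) (m : L.M.T),
        γ • m ∈ {m : L.M.T | (L.q m : PS L.n) ∉ D j (aNC (aS g) γ t)} ↔
          m ∈ {m : L.M.T | (L.q m : PS L.n) ∉ D j t} := by
      intro j γ t m
      change ¬ _ ↔ ¬ _
      rw [L.act_q, (hG j).dinv]
    have a4 : ∀ (j : Bool) (t : NC (SS g)), ContinuousOn (fun m : L.M.T => Θ j t (L.q m))
        {m : L.M.T | (L.q m : PS L.n) ∉ D j t} := fun j t =>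
      ((hG j).cont t).comp L.q_quot.continuous.continuousOn fun m hm => hm
    have a5 : ∀ (j : Bool) (t : NC (SS g)), ∀ m ∈ {m : L.M.T | (L.q m : PS L.n) ∉ D j t},
        Θ j t (L.q m) ≠ 0 := fun j t m hm => (hG j).ne t _ hm
    have a6 : ∀ (j : Bool) (t : NC (SS g)) (m : L.M.T),
        Θ j (rot t) (L.q m) = om⁻¹ * Θ j t (L.q m) := fun j t m => (hG j).trot t _
    have a7 : ∀ (j : Bool) (γ : Gam g) (t : NC (SS g)) (m : L.M.T),
        Θ j (aNC (aS g) γ t) (L.q (γ • m)) = Θ j t (L.q m) := by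
      intro j γ t m
      rw [L.act_q, (hG j).tinv]
    obtain ⟨e, he⟩ := hTop (Gam g) L.T (NC (SS g)) L.M (aNC (aS g)) rot f
      (fun j t => {m | (L.q m : PS L.n) ∉ D j t}) (fun j t m => Θ j t (L.q m))
      (hPhase.1 _ _ _) hf a1 a2 a3 a4 a5 a6 a7 u hu
    refine ⟨e, fun σ hσ => he σ fun t o => ?_⟩
    have h := hσ t
    rw [Set.mem_iUnion, not_exists] at h
    have h' := h o
    rw [Set.mem_inter_iff, not_and_or] at h'
    exact h'

end MP590
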