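import Pool.Agent.Lib.MP_00590d_ag.Spec

/-!
# MP_00590d_ag, modules DETE and DET: detection by elements of order three (helper72)
-/

set_option autoImplicit false

namespace MP590

namespace DetM

/-! ### DETE -/

lemma dlt4 {Γ : Type} (e : (Fin 4 → Γ) → ℤ) (x0 x1 x2 x3 x4 : Γ) :
    dlt e ![x0, x1, x2, x3, x4] = e ![x1, x2, x3, x4] - e ![x0, x2, x3, x4] +
      e ![x0, x1, x3, x4] - e ![x0, x1, x2, x4] + e ![x0, x1, x2, x3] := by
  have h0 : (fun j => ![x0, x1, x2, x3, x4] ((0 : Fin 5).succAbove j)) = ![x1, x2, x3, x4] := by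
    funext j; fin_cases j <;> rfl
  have h1 : (fun j => ![x0, x1, x2, x3, x4] ((1 : Fin 5).succAbove j)) = ![x0, x2, x3, x4] := by
    funext j; fin_cases j <;> rfl
  have h2 : (fun j => ![x0, x1, x2, x3, x4] ((2 : Fin 5).succAbove j)) = ![x0, x1, x3, x4] := by
    funext j; fin_cases j <;> rfl
  have h3 : (fun j => ![x0, x1, x2, x3, x4] ((3 : Fin 5).succAbove j)) = ![x0, x1, x2, x4] := by
    funext j; fin_cases j <;> rfl
  have h4 : (fun j => ![x0, x1, x2, x3, x4] ((4 : Fin 5).succAbove j)) = ![x0, x1, x2, x3] := by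
    funext j; fin_cases j <;> rfl
  rw [dlt, Fin.sum_univ_five, h0, h1, h2, h3, h4]
  simp only [Fin.val_zero, Fin.val_one, Fin.val_two]
  norm_num
  ring

end DetM

open DetM

theorem specDetE : SpecDetE := by
  intro Γ _ t c ht ⟨e, he, hc⟩
  subst hc
  have h3 : ∀ n : ℕ, t ^ (n + 3) = t ^ n := by
    intro n
    rw [pow_add, ht, mul_one]
  set P : ℕ → ℕ → ℕ → ℤ := fun a b c => e ![1, t ^ a, t ^ b, t ^ c] with hP
  have p1 : ∀ a b c, P (a + 3) b c = P a b c := by intro a b c; simp only [hP, h3]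
  have p2 : ∀ a b c, P a (b + 3) c = P a b c := by intro a b c; simp only [hP, h3]
  have p3 : ∀ a b c, P a b (c + 3) = P a b c := by intro a b c; simp only [hP, h3]
  have key : ∀ i j : ℕ, dlt e ![1, t, t ^ (1 + i), t ^ (2 + i), t ^ (2 + i + j)] =
      P i (1 + i) (1 + i + j) - P (1 + i) (2 + i) (2 + i + j) + P 1 (2 + i) (2 + i + j) -
        P 1 (1 + i) (2 + i + j) + P 1 (1 + i) (2 + i) := by
    intro i j
    rw [dlt4]
    have h0 : e ![t, t ^ (1 + i), t ^ (2 + i), t ^ (2 + i + j)] = P i (1 + i) (1 + i + j) := by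
      have h9 := he t ![1, t ^ i, t ^ (1 + i), t ^ (1 + i + j)]
      rw [hP]
      simp only
      rw [← h9]
      congr 1
      funext k
      fin_cases k
      · simp
      · change t ^ (1 + i) = t * t ^ i
        rw [← pow_succ']; congr 1; omega
      · change t ^ (2 + i) = t * t ^ (1 + i)
        rw [← pow_succ']; congr 1; omega
      · change t ^ (2 + i + j) = t * t ^ (1 + i + j)
        rw [← pow_succ']; congr 1; omega
    rw [h0]
    simp only [hP, pow_one]
  have hs : ∑ i : Fin 3, ∑ j : Fin 3,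
      dlt e ![1, t, t ^ (1 + (i : ℕ)), t ^ (2 + (i : ℕ)), t ^ (2 + (i : ℕ) + (j : ℕ))] =
      3 * (P 1 1 2 + P 1 2 0 + P 1 0 1) := by
    have e1 : ∀ b c, P 3 b c = P 0 b c := fun b c => p1 0 b c
    have e2 : ∀ a c, P a 3 c = P a 0 c := fun a c => p2 a 0 c
    have e3 : ∀ a c, P a 4 c = P a 1 c := fun a c => p2 a 1 c
    have e4 : ∀ a b, P a b 3 = P a b 0 := fun a b => p3 a b 0
    have e5 : ∀ a b, P a b 4 = P a b 1 := fun a b => p3 a b 1
    have e6 : ∀ a b, P a b 5 = P a b 2 := fun a b => p3 a b 2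
    have e7 : ∀ a b, P a b 6 = P a b 0 := fun a b => (p3 a b 3).trans (p3 a b 0)
    simp only [key, Fin.sum_univ_three, Fin.val_zero, Fin.val_one, Fin.val_two]
    norm_num [e1, e2, e3, e4, e5, e6, e7]
    ring
  rw [hs]
  exact dvd_mul_right _ _


namespace DetM

/-! ### Phases -/

section

variable {O : Type}

/-- orbits of a map of order three -/
def cyc (r : O → O) (h3 : ∀ o, r (r (r o)) = o) : Setoid O where
  r x y := y = x ∨ y = r x ∨ y = r (r x)
  iseqv := ⟨fun x => Or.inl rfl, by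
    rintro x y (rfl | rfl | rfl) <;> simp [h3], by
    rintro x y z (rfl | rfl | rfl) (rfl | rfl | rfl) <;> simp [h3]⟩

lemma exists_phase1 (r : O → O) (h3 : ∀ o, r (r (r o)) = o) (hne : ∀ o, r o ≠ o) :
    ∃ f : O → ZMod 3, Phase r f := by
  classical
  have h2 : ∀ o, r (r o) ≠ o := by
    intro o h
    have := h3 o
    rw [h] at this
    exact hne o this
  let s : Setoid O := cyc r h3
  let rep : O → O := fun x => (Quotient.mk s x).out
  have hr : ∀ x, rep (r x) = rep x := by
    intro x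
    have : Quotient.mk s (r x) = Quotient.mk s x :=
      Quotient.sound (s.symm (show s x (r x) from Or.inr (Or.inl rfl)))
    simp only [rep, this]
  have hx : ∀ x, x = rep x ∨ x = r (rep x) ∨ x = r (r (rep x)) := fun x =>
    Quotient.exact (Quotient.out_eq (Quotient.mk s x))
  refine ⟨fun x => if x = rep x then 0 else if x = r (rep x) then 1 else 2, fun x => ?_⟩
  simp only [hr]
  rcases hx x with h | h | h
  · generalize rep x = y at h
    subst h
    simp [hne]
  · generalize rep x = y at h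
    subst h
    simp [hne, h2]
    decide
  · generalize rep x = y at h
    subst h
    have h5 : r (r y) ≠ r y := hne _
    simp [h2, h3, h5]
    decide

lemma exists_phase2 (r t : O → O) (hr3 : ∀ o, r (r (r o)) = o) (ht3 : ∀ o, t (t (t o)) = o)
    (hc : ∀ o, r (t o) = t (r o)) (hne : ∀ o, r o ≠ o) :
    ∃ f : O → ZMod 3, Phase r f ∧
      ∀ o, t o ≠ r o → t o ≠ r (r o) → f (t o) = f o := by
  classical
  obtain ⟨f0, hf0⟩ := exists_phase1 r hr3 hne
  have hrinj : Function.Injective r := fun x y h => by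
    rw [← hr3 x, ← hr3 y, h]
  have htinj : Function.Injective t := fun x y h => by
    rw [← ht3 x, ← ht3 y, h]
  let good : O → Prop := fun o => t o ≠ r o ∧ t o ≠ r (r o)
  have gr : ∀ o, good (r o) ↔ good o := by
    intro o
    simp only [good, ← hc, ne_eq, hrinj.eq_iff]
  have gt : ∀ o, good (t o) ↔ good o := by
    intro o
    simp only [good, hc, ne_eq, htinj.eq_iff]
  let G : Type := {o : O // good o}
  let tG : G → G := fun x => ⟨t x.1, (gt _).2 x.2⟩
  have htG : ∀ x, tG (tG (tG x)) = x := fun x => Subtype.ext (ht3 x.1)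
  let s : Setoid G := cyc tG htG
  let rG : G → G := fun x => ⟨r x.1, (gr _).2 x.2⟩
  have hrt : ∀ x, rG (tG x) = tG (rG x) := fun x => Subtype.ext (hc x.1)
  let rQ : Quotient s → Quotient s := Quotient.map rG (by
    rintro x y (rfl | rfl | rfl)
    · exact Or.inl rfl
    · exact Or.inr (Or.inl (hrt x))
    · exact Or.inr (Or.inr ((hrt _).trans (congrArg tG (hrt x)))))
  have hQ3 : ∀ q, rQ (rQ (rQ q)) = q := by
    intro q
    induction q using Quotient.inductionOn with
    | _ x => exact congrArg (Quotient.mk s) (Subtype.ext (hr3 x.1))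
  have hQne : ∀ q, rQ q ≠ q := by
    intro q
    induction q using Quotient.inductionOn with
    | _ x =>
      intro h
      have h1 : s (rG x) x := Quotient.exact h
      rcases h1 with h1 | h1 | h1
      · exact hne x.1 (congrArg Subtype.val h1).symm
      · have h2 : x.1 = t (r x.1) := congrArg Subtype.val h1
        -- x = t r x, so r x ... t x = r r x
        have h3 : r (r x.1) = t x.1 := by
          have h4 := congrArg (fun y => r (r y)) h2
          simp only [hc, hr3] at h4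
          exact h4
        exact x.2.2 h3.symm
      · have h2 : x.1 = t (t (r x.1)) := congrArg Subtype.val h1
        have h3 : t x.1 = r x.1 := by
          have h4 := congrArg t h2
          rw [ht3] at h4
          exact h4
        exact x.2.1 h3
  obtain ⟨fQ, hfQ⟩ := exists_phase1 rQ hQ3 hQne
  refine ⟨fun o => if h : good o then fQ (Quotient.mk s ⟨o, h⟩) else f0 o, fun o => ?_,
    fun o h1 h2 => ?_⟩
  · by_cases h : good o
    · have h' : good (r o) := (gr o).2 h
      simp only [h, h', dif_pos]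
      exact hfQ (Quotient.mk s ⟨o, h⟩)
    · have h' : ¬ good (r o) := fun h' => h ((gr o).1 h')
      simp only [h, h', dif_neg, not_false_iff]
      exact hf0 o
  · have h : good o := ⟨h1, h2⟩
    have h' : good (t o) := (gt o).2 h
    simp only [h, h', dif_pos]
    congr 1
    exact Quotient.sound (s.symm (show s ⟨o, h⟩ ⟨t o, h'⟩ from Or.inr (Or.inl rfl)))

lemma three_sum [Fintype O] {r : O → O} (h3 : ∀ o, r (r (r o)) = o) {f : O → ZMod 3}
    (hf : Phase r f) (F : O → ℤ) (hF : ∀ o, F (r o) = F o) :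
    3 * ∑ o with f o = 0, F o = ∑ o, F o := by
  classical
  have hrinj : Function.Injective r := fun x y h => by
    rw [← h3 x, ← h3 y, h]
  have hstep : ∀ c : ZMod 3, ∑ o with f o = c + 1, F o = ∑ o with f o = c, F o := by
    intro c
    symm
    refine Finset.sum_bij (fun o _ => r o) ?_ (fun x _ y _ h => hrinj h) ?_ ?_
    · intro o ho
      rw [Finset.mem_filter] at ho ⊢
      exact ⟨Finset.mem_univ _, by rw [hf, ho.2]⟩
    · intro o ho
      rw [Finset.mem_filter] at ho
      refine ⟨r (r o), ?_, h3 o⟩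
      rw [Finset.mem_filter]
      refine ⟨Finset.mem_univ _, ?_⟩
      rw [hf, hf, ho.2]
      have : (3 : ZMod 3) = 0 := rfl
      linear_combination this
    · intro o _
      exact (hF o).symm
  have h1 : ∑ o, F o = ∑ c : ZMod 3, ∑ o with f o = c, F o := by
    rw [← Finset.sum_fiberwise_of_maps_to (g := f) (fun o _ => Finset.mem_univ _)]
  have h2 : ∑ c : ZMod 3, ∑ o with f o = c, F o = (∑ o with f o = 0, F o) +
      (∑ o with f o = 1, F o) + ∑ o with f o = 2, F o :=
    Fin.sum_univ_three (fun c : ZMod 3 => ∑ o with f o = c, F o)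
  have h4 := hstep 0
  have h5 := hstep 1
  rw [show (0 : ZMod 3) + 1 = 1 from rfl] at h4
  rw [show (1 : ZMod 3) + 1 = 2 from rfl] at h5
  rw [h1, h2, h5, h4]
  ring

end

/-! ### The local computation -/

section

variable {Γ O : Type} [Group Γ]

/-- the sum over `i, j` of the products of the Bocksteins -/
def HH (a : Γ →* Equiv.Perm O) (f : O → ZMod 3) (t : Γ) (o : O) : ℤ :=
  ∑ i : Fin 3, ∑ j : Fin 3, bb a f o 1 t (t ^ (1 + (i : ℕ))) *
    bb a f o (t ^ (1 + (i : ℕ))) (t ^ (2 + (i : ℕ))) (t ^ (2 + (i : ℕ) + (j : ℕ)))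

lemma xx_sum [Fintype O] (a : Γ →* Equiv.Perm O) (f : O → ZMod 3) (t : Γ) :
    ∑ i : Fin 3, ∑ j : Fin 3, xx a f
      ![1, t, t ^ (1 + (i : ℕ)), t ^ (2 + (i : ℕ)), t ^ (2 + (i : ℕ) + (j : ℕ))] =
      ∑ o with f o = 0, HH a f t o := by
  simp only [HH]
  rw [Finset.sum_comm]
  simp only [Finset.sum_comm (s := Finset.univ.filter fun o => f o = 0)]
  rw [Finset.sum_comm]
  rfl

/-- explicit values -/
def hv (ε : ZMod 3) : ℤ :=
  ∑ i : Fin 3, ∑ j : Fin 3,
    (((ε * ((1 : ℕ) - (0 : ℕ))).val + (ε * (((1 + i : ℕ) : ZMod 3) - (1 : ℕ))).val -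
      (ε * (((1 + i : ℕ) : ZMod 3) - (0 : ℕ))).val : ℤ) / 3) *
    (((ε * (((2 + i : ℕ) : ZMod 3) - (1 + i : ℕ))).val +
      (ε * (((2 + i + j : ℕ) : ZMod 3) - (2 + i : ℕ))).val -
      (ε * (((2 + i + j : ℕ) : ZMod 3) - (1 + i : ℕ))).val : ℤ) / 3)

lemma hv_val : hv 0 = 0 ∧ hv 1 = 1 ∧ hv 2 = 4 := by
  refine ⟨?_, ?_, ?_⟩ <;> (unfold hv; decide)

lemma HH_eq {a : Γ →* Equiv.Perm O} {f : O → ZMod 3} {t : Γ} {o : O} {ε : ZMod 3}
    (h : ∀ m : ℕ, f (a (t ^ m)⁻¹ o) = f o - ε * m) : HH a f t o = hv ε := by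
  have hd : ∀ m n : ℕ, dd a f o (t ^ m) (t ^ n) = ε * ((n : ZMod 3) - (m : ZMod 3)) := by
    intro m n
    rw [dd, h, h]
    ring
  have hb : ∀ m n p : ℕ, bb a f o (t ^ m) (t ^ n) (t ^ p) =
      (((ε * ((n : ZMod 3) - (m : ZMod 3))).val : ℤ) + ((ε * ((p : ZMod 3) - (n : ZMod 3))).val : ℤ) -
        ((ε * ((p : ZMod 3) - (m : ZMod 3))).val : ℤ)) / 3 := by
    intro m n p
    rw [bb, hd, hd, hd]
  rw [HH, hv]
  refine Finset.sum_congr rfl fun i _ => Finset.sum_congr rfl fun j _ => ?_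
  have h1 : bb a f o 1 t (t ^ (1 + (i : ℕ))) = bb a f o (t ^ 0) (t ^ 1) (t ^ (1 + (i : ℕ))) := by
    rw [pow_zero, pow_one]
  rw [h1, hb, hb]

end

section

variable {Γ O : Type} [Group Γ]

lemma pow_phase {a : Γ →* Equiv.Perm O} {f : O → ZMod 3} {t : Γ} {Q : O → Prop}
    (hQ : ∀ o, Q o → Q (a t⁻¹ o)) {ε : ZMod 3} (hε : ∀ o, Q o → f (a t⁻¹ o) = f o - ε) :
    ∀ (m : ℕ) (o : O), Q o → f (a (t ^ m)⁻¹ o) = f o - ε * m := by
  intro m
  induction m with
  | zero => intro o _; simp
  | succ m ih =>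
    intro o ho
    rw [pow_succ', mul_inv_rev, map_mul, Equiv.Perm.mul_apply, ih _ (hQ o ho), hε o ho]
    push_cast
    ring

end

section

variable {Γ S : Type} [Group Γ]

lemma NC_ext' {t t' : NC S} (h1 : t.1.1 = t'.1.1) (h2 : t.1.2.1 = t'.1.2.1)
    (h3 : t.1.2.2 = t'.1.2.2) : t = t' :=
  Subtype.ext (Prod.ext h1 (Prod.ext h2 h3))

lemma rot_ne (o : NC S) : rot o ≠ o := by
  intro h
  have h1 : o.1.2.1 = o.1.1 := congrArg (fun t : NC S => t.1.1) h
  have h2 : o.1.2.2 = o.1.2.1 := congrArg (fun t : NC S => t.1.2.1) h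
  exact o.2 ⟨h1.symm, h2.symm⟩

/-- triples rotated by `t` -/
def eP (a : Γ →* Equiv.Perm S) (t : Γ) (h3 : ∀ s, a t (a t (a t s)) = s) :
    {o : NC S // aNC a t o = rot o} ≃ {s : S // a t s ≠ s} where
  toFun o := ⟨o.1.1.1, fun h => by
    have h1 : a t o.1.1.1 = o.1.1.2.1 := congrArg (fun t : NC S => t.1.1) o.2
    have h2 : a t o.1.1.2.1 = o.1.1.2.2 := congrArg (fun t : NC S => t.1.2.1) o.2
    rw [h] at h1
    rw [← h1, h] at h2
    exact o.1.2 ⟨h1, h1.symm.trans h2⟩⟩
  invFun s := ⟨⟨(s.1, a t s.1, a t (a t s.1)), fun h => s.2 h.1.symm⟩,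
    NC_ext' rfl rfl (h3 s.1)⟩
  left_inv o := by
    have h1 : a t o.1.1.1 = o.1.1.2.1 := congrArg (fun t : NC S => t.1.1) o.2
    have h2 : a t o.1.1.2.1 = o.1.1.2.2 := congrArg (fun t : NC S => t.1.2.1) o.2
    apply Subtype.ext
    apply NC_ext'
    · rfl
    · exact h1
    · change a t (a t o.1.1.1) = _
      rw [h1, h2]
  right_inv s := rfl

/-- triples rotated by the inverse of `t` -/
def eM (a : Γ →* Equiv.Perm S) (t : Γ) (h3 : ∀ s, a t (a t (a t s)) = s) :
    {o : NC S // aNC a t o = rot (rot o)} ≃ {s : S // a t s ≠ s} where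
  toFun o := ⟨o.1.1.1, fun h => by
    have h1 : a t o.1.1.1 = o.1.1.2.2 := congrArg (fun t : NC S => t.1.1) o.2
    have h2 : a t o.1.1.2.2 = o.1.1.2.1 := congrArg (fun t : NC S => t.1.2.2) o.2
    rw [h] at h1
    rw [← h1, h] at h2
    exact o.1.2 ⟨h2, h2.symm.trans h1⟩⟩
  invFun s := ⟨⟨(s.1, a t (a t s.1), a t s.1), fun h => s.2 (h.1.trans h.2).symm⟩,
    NC_ext' rfl (h3 s.1) rfl⟩
  left_inv o := by
    have h1 : a t o.1.1.1 = o.1.1.2.2 := congrArg (fun t : NC S => t.1.1) o.2
    have h2 : a t o.1.1.2.2 = o.1.1.2.1 := congrArg (fun t : NC S => t.1.2.2) o.2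
    apply Subtype.ext
    apply NC_ext'
    · rfl
    · change a t (a t o.1.1.1) = _
      rw [h1, h2]
    · exact h1
  right_inv s := rfl

end

end DetM

open Classical in
theorem specDet (hIndep : SpecIndep) (hPhase : SpecPhase) (hDetE : SpecDetE) : SpecDet := by
  intro Γ S _ _ a f t hf ht hx
  have hrot := hPhase.1 Γ S a
  have hS3 : ∀ s, a t (a t (a t s)) = s := by
    intro s
    have h : a t * (a t * a t) = 1 := by
      rw [← map_mul, ← map_mul, ← pow_three, ht, map_one]
    exact congrArg (fun σ : Equiv.Perm S => σ s) h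
  have ht3 : ∀ o, aNC a t (aNC a t (aNC a t o)) = o := fun o =>
    NC_ext' (hS3 _) (hS3 _) (hS3 _)
  have hinv : ∀ o, aNC a t (aNC a t⁻¹ o) = o := by
    intro o
    rw [← Equiv.Perm.mul_apply, ← map_mul, mul_inv_cancel, map_one, Equiv.Perm.one_apply]
  have hinv' : ∀ o, aNC a t⁻¹ (aNC a t o) = o := by
    intro o
    rw [← Equiv.Perm.mul_apply, ← map_mul, inv_mul_cancel, map_one, Equiv.Perm.one_apply]
  obtain ⟨f', hf', hft⟩ := exists_phase2 rot (aNC a t) hrot.three ht3
    (fun o => hrot.eqv t o) rot_ne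
  have hdiv : (3 : ℤ) ∣ ∑ o with f' o = 0, HH (aNC a) f' t o := by
    have h1 := hDetE Γ t _ ht hx
    have h2 := hDetE Γ t _ ht (hIndep Γ (NC S) (aNC a) rot f f' hrot hf hf')
    simp only [Finset.sum_sub_distrib] at h2
    rw [← xx_sum]
    have h3 := dvd_sub h1 h2
    simpa using h3
  have hH : ∀ o, HH (aNC a) f' t o = (if aNC a t o = rot o then 1 else 0) +
      4 * (if aNC a t o = rot (rot o) then 1 else 0) := by
    intro o
    by_cases h1 : aNC a t o = rot o
    · have h2 : aNC a t o ≠ rot (rot o) := by rw [h1]; exact (rot_ne _).symm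
      rw [if_pos h1, if_neg h2, HH_eq (ε := 1) fun m => ?_, hv_val.2.1]
      · norm_num
      · refine pow_phase (Q := fun o => aNC a t o = rot o) (fun o ho => ?_) (fun o ho => ?_) m o h1
        · rw [hinv, hrot.eqv, ← ho, hinv']
        · have h5 : rot (aNC a t⁻¹ o) = o := by rw [hrot.eqv, ← ho, hinv']
          have h6 := hf' (aNC a t⁻¹ o)
          rw [h5] at h6
          rw [h6]; ring
    · by_cases h2 : aNC a t o = rot (rot o)
      · rw [if_neg h1, if_pos h2, HH_eq (ε := 2) fun m => ?_, hv_val.2.2]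
        · norm_num
        · refine pow_phase (Q := fun o => aNC a t o = rot (rot o)) (fun o ho => ?_)
            (fun o ho => ?_) m o h2
          · rw [hinv, hrot.eqv, hrot.eqv, ← ho, hinv']
          · have h5 : rot (rot (aNC a t⁻¹ o)) = o := by rw [hrot.eqv, hrot.eqv, ← ho, hinv']
            have h6 := hf' (rot (aNC a t⁻¹ o))
            rw [h5, hf' (aNC a t⁻¹ o)] at h6
            rw [h6]; ring
      · rw [if_neg h1, if_neg h2, HH_eq (ε := 0) fun m => ?_, hv_val.1]
        · norm_num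
        · have hQ : ∀ o, (aNC a t o ≠ rot o ∧ aNC a t o ≠ rot (rot o)) →
              (aNC a t (aNC a t⁻¹ o) ≠ rot (aNC a t⁻¹ o) ∧
                aNC a t (aNC a t⁻¹ o) ≠ rot (rot (aNC a t⁻¹ o))) := by
            intro o ho
            constructor
            · intro h
              have h7 := congrArg (aNC a t) h
              rw [← hrot.eqv, hinv] at h7
              exact ho.1 h7
            · intro h
              have h7 := congrArg (aNC a t) h
              rw [← hrot.eqv, ← hrot.eqv, hinv] at h7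
              exact ho.2 h7
          refine pow_phase (Q := fun o => aNC a t o ≠ rot o ∧ aNC a t o ≠ rot (rot o))
            hQ (fun o ho => ?_) m o ⟨h1, h2⟩
          have h8 := hft _ (hQ o ho).1 (hQ o ho).2
          rw [hinv] at h8
          rw [sub_zero]
          exact h8.symm
  have hcard : ∀ P : NC S → Prop, ∑ o, (if P o then (1 : ℤ) else 0) = Nat.card {o // P o} := by
    intro P
    rw [Finset.sum_boole, Nat.card_eq_fintype_card, Fintype.card_subtype]
  have h3 := three_sum hrot.three hf' (HH (aNC a) f' t) (fun o => by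
    rw [hH, hH, ← hrot.eqv]
    have hri : Function.Injective (rot (S := S)) := fun x y h => by
      rw [← hrot.three x, ← hrot.three y, h]
    simp only [hri.eq_iff])
  simp only [hH] at h3 hdiv
  rw [Finset.sum_add_distrib (s := Finset.univ), ← Finset.mul_sum, hcard, hcard,
    Nat.card_congr (eP a t hS3), Nat.card_congr (eM a t hS3)] at h3
  have hS : Nat.card S = Nat.card {s : S // a t s = s} + Nat.card {s : S // a t s ≠ s} := by
    rw [← Nat.card_sum]
    exact Nat.card_congr (Equiv.sumCompl fun s : S => a t s = s).symm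
  rw [hS]
  push_cast
  obtain ⟨k, hk⟩ := hdiv
  rw [hk] at h3
  omega

end MP590
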