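import Pool.Agent.Lib.MP_00590d_ag.Spec

set_option autoImplicit false

/-! # MP_00590d_ag : module SIG -/

namespace MP590

namespace Sg

/-- `s` fixes `ζ` and its cube is the conjugation by `ζ⁻¹`. -/
def IsSg {g : ℕ} (s : FG g →* FG g) : Prop :=
  s (zeta g) = zeta g ∧ ∀ x, s (s (s x)) = (zeta g)⁻¹ * x * zeta g

lemma isSg_zero : IsSg (MonoidHom.id (FG 0)) := by
  refine ⟨rfl, fun x => ?_⟩
  have h : zeta 0 = 1 := rfl
  simp [h]

/-- The recursion step. -/
def step {g : ℕ} (s : FG g →* FG g) : FG (g + 1) →* FG (g + 1) :=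
  FreeGroup.lift fun p =>
    Fin.lastCases (motive := fun _ => FG (g + 1))
      (if p.2 then gb (Fin.last g) * ga (Fin.last g) * (gb (Fin.last g))⁻¹ * inc g (zeta g) *
          (gb (Fin.last g))⁻¹
        else gb (Fin.last g) * (inc g (zeta g))⁻¹ * (gb (Fin.last g))⁻¹ * inc g (zeta g) *
          (gb (Fin.last g))⁻¹)
      (fun i => gb (Fin.last g) * inc g (s (s (FreeGroup.of (i, p.2)))) * (gb (Fin.last g))⁻¹) p.1

variable {g : ℕ} (s : FG g →* FG g)

lemma step_inc (x : FG g) :
    step s (inc g x) = gb (Fin.last g) * inc g (s (s x)) * (gb (Fin.last g))⁻¹ := by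
  have h : (step s).comp (inc g) =
      (MulAut.conj (gb (Fin.last g))).toMonoidHom.comp ((inc g).comp (s.comp s)) := by
    ext ⟨i, e⟩
    simp [step, inc]
  exact congrArg (fun f : FG g →* FG (g + 1) => f x) h

lemma step_a : step s (ga (Fin.last g)) = gb (Fin.last g) * (inc g (zeta g))⁻¹ *
    (gb (Fin.last g))⁻¹ * inc g (zeta g) * (gb (Fin.last g))⁻¹ := by
  simp [step, ga]

lemma step_b : step s (gb (Fin.last g)) = gb (Fin.last g) * ga (Fin.last g) *
    (gb (Fin.last g))⁻¹ * inc g (zeta g) * (gb (Fin.last g))⁻¹ := by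
  simp [step, gb]

lemma step_isSg (hs : IsSg s) : IsSg (step s) := by
  have hz : step s (inc g (zeta g)) = gb (Fin.last g) * inc g (zeta g) * (gb (Fin.last g))⁻¹ := by
    rw [step_inc, hs.1, hs.1]
  have hA := step_a s
  have hB := step_b s
  refine ⟨?_, ?_⟩
  · rw [zeta_succ, cm, map_mul, map_mul, map_mul, map_mul, map_inv, map_inv, hz, hA, hB]
    group
  · have key : ((step s).comp ((step s).comp (step s))) =
        (MulAut.conj (zeta (g + 1))⁻¹).toMonoidHom := by
      refine hom_ext1 (fun x => ?_) (fun e => ?_)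
      · change step s (step s (step s (inc g x))) =
          (zeta (g + 1))⁻¹ * inc g x * (zeta (g + 1))⁻¹⁻¹
        simp only [step_inc, map_mul, map_inv, hA, hB, hs.1, hs.2, zeta_succ, cm]
        group
      · cases e
        · change step s (step s (step s (ga (Fin.last g)))) =
            (zeta (g + 1))⁻¹ * ga (Fin.last g) * (zeta (g + 1))⁻¹⁻¹
          simp only [step_inc, map_mul, map_inv, hA, hB, hs.1, zeta_succ, cm]
          group
        · change step s (step s (step s (gb (Fin.last g)))) =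
            (zeta (g + 1))⁻¹ * gb (Fin.last g) * (zeta (g + 1))⁻¹⁻¹
          simp only [step_inc, map_mul, map_inv, hA, hB, hs.1, zeta_succ, cm]
          group
    intro x
    have := congrArg (fun f : FG (g + 1) →* FG (g + 1) => f x) key
    simpa using this

/-! ### The base case in genus three -/

/-- The third commutator. -/
def c2 : FG 3 := cm (ga 2) (gb 2)

/-- The cyclic permutation of three handles. -/
def s3 : FG 3 →* FG 3 := FreeGroup.lift fun p => c2⁻¹ * FreeGroup.of (p.1 - 1, p.2) * c2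

lemma s3_of (i : Fin 3) (e : Bool) :
    s3 (FreeGroup.of (i, e)) = c2⁻¹ * FreeGroup.of (i - 1, e) * c2 := by
  simp [s3]

lemma s3_cm (i : Fin 3) : s3 (cm (ga i) (gb i)) = c2⁻¹ * cm (ga (i - 1)) (gb (i - 1)) * c2 := by
  simp only [cm, map_mul, map_inv]
  rw [ga, gb, s3_of, s3_of, ← ga, ← gb]
  group

lemma zeta_three : zeta 3 = cm (ga 0) (gb 0) * cm (ga 1) (gb 1) * cm (ga 2) (gb 2) := by
  simp [zeta, List.ofFn_succ, mul_assoc]

lemma isSg_three : IsSg s3 := by
  have h0 : s3 (cm (ga 0) (gb 0)) = c2⁻¹ * cm (ga 2) (gb 2) * c2 := s3_cm 0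
  have h1 : s3 (cm (ga 1) (gb 1)) = c2⁻¹ * cm (ga 0) (gb 0) * c2 := s3_cm 1
  have h2 : s3 (cm (ga 2) (gb 2)) = c2⁻¹ * cm (ga 1) (gb 1) * c2 := s3_cm 2
  have hc : s3 c2 = c2⁻¹ * cm (ga 1) (gb 1) * c2 := s3_cm 2
  refine ⟨?_, ?_⟩
  · rw [zeta_three, map_mul, map_mul, h0, h1, h2, c2]
    group
  · have key : s3.comp (s3.comp s3) = (MulAut.conj (zeta 3)⁻¹).toMonoidHom := by
      ext ⟨i, e⟩
      change s3 (s3 (s3 (FreeGroup.of (i, e)))) =
        (zeta 3)⁻¹ * FreeGroup.of (i, e) * (zeta 3)⁻¹⁻¹
      have h3 : i - 1 - 1 - 1 = i := by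
        fin_cases i <;> rfl
      have h4 : s3 (s3 (s3 (FreeGroup.of (i, e)))) =
          (s3 (s3 c2))⁻¹ * ((s3 c2)⁻¹ * (c2⁻¹ * FreeGroup.of (i - 1 - 1 - 1, e) * c2) * s3 c2) *
            s3 (s3 c2) := by
        simp only [s3_of, map_mul, map_inv]
      rw [h4, hc, h3]
      simp only [map_mul, map_inv]
      rw [hc, h1, zeta_three, c2]
      group
    intro x
    have := congrArg (fun f : FG 3 →* FG 3 => f x) key
    simpa using this

/-! ### Automorphisms -/

/-- The automorphism of `FG g` given by `s`. -/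
def aut {g : ℕ} {s : FG g →* FG g} (hs : IsSg s) : MulAut (FG g) where
  toFun := s
  invFun x := s (s (zeta g * x * (zeta g)⁻¹))
  left_inv x := by
    have h : zeta g * s x * (zeta g)⁻¹ = s (zeta g * x * (zeta g)⁻¹) := by
      rw [map_mul, map_mul, map_inv, hs.1]
    change s (s (zeta g * s x * (zeta g)⁻¹)) = x
    rw [h, hs.2]
    group
  right_inv x := by
    change s (s (s (zeta g * x * (zeta g)⁻¹))) = x
    rw [hs.2]
    group
  map_mul' := map_mul s

/-- The mapping class given by `s`. -/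
def gam {g : ℕ} {s : FG g →* FG g} (hs : IsSg s) : GamB g := ⟨aut hs, hs.1⟩

lemma pr_zeta (g : ℕ) : pr g (zeta g) = 1 := by
  apply PresentedGroup.one_of_mem
  exact Set.mem_singleton _

lemma cap_cube {g : ℕ} {s : FG g →* FG g} (hs : IsSg s) : (cap g (gam hs)) ^ 3 = 1 := by
  rw [← map_pow]
  have h : ((⟨ind ((gam hs) ^ 3), ind_mem _⟩ : AutP g)) = 1 := by
    apply Subtype.ext
    apply MulEquiv.toMonoidHom_injective
    apply PresentedGroup.ext
    intro p
    change pr g (s (s (s (FreeGroup.of p)))) = pr g (FreeGroup.of p)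
    rw [hs.2, map_mul, map_mul, map_inv, pr_zeta]
    simp
  change ((⟨ind ((gam hs) ^ 3), ind_mem _⟩ : AutP g) : Gam g) = 1
  rw [h]
  rfl

/-! ### Homomorphisms to `ℤ/5` -/

/-- The cyclic group of order five. -/
abbrev Z5 : Type := Multiplicative (ZMod 5)

lemma hom_zeta {A : Type} [CommGroup A] (f : FG g →* A) : f (zeta g) = 1 := by
  rw [zeta, map_list_prod, List.map_ofFn]
  apply List.prod_eq_one
  intro x hx
  obtain ⟨i, rfl⟩ := List.mem_ofFn.mp hx
  simp only [Function.comp_apply, cm, map_mul, map_inv]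
  rw [mul_comm (f (ga i)) (f (gb i))]
  simp

/-- Homomorphisms from the surface group and from the free group to `ℤ/5`. -/
def eSS (g : ℕ) : SS g ≃ (FG g →* Z5) where
  toFun s := s.comp (pr g)
  invFun f := QuotientGroup.lift _ f (Subgroup.normalClosure_le_normal (by
    rintro x hx
    rw [Set.mem_singleton_iff] at hx
    rw [hx]
    exact hom_zeta f))
  left_inv s := by
    apply PresentedGroup.ext
    intro p
    rfl
  right_inv f := by
    ext p
    rfl

lemma card_hom (g : ℕ) : Nat.card (FG g →* Z5) = 25 ^ g := by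
  rw [← Nat.card_congr (FreeGroup.lift (α := Fin g × Bool) (β := Z5))]
  rw [Nat.card_fun, Nat.card_prod]
  have h5 : Nat.card Z5 = 5 := by
    rw [Nat.card_eq_fintype_card]
    rfl
  rw [h5, Nat.card_eq_fintype_card, Nat.card_eq_fintype_card, Fintype.card_fin,
    Fintype.card_bool, mul_comm, pow_mul]
  norm_num

lemma card_SS (g : ℕ) : Nat.card (SS g) = 25 ^ g := by
  rw [Nat.card_congr (eSS g), card_hom]

/-- Fixed homomorphisms. -/
def Fx {g : ℕ} (s : FG g →* FG g) : Type := {f : FG g →* Z5 // f.comp s = f}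

lemma card_fix {g : ℕ} {s : FG g →* FG g} (hs : IsSg s) :
    Nat.card {t : SS g // aS g (cap g (gam hs)) t = t} = Nat.card (Fx s) := by
  refine Nat.card_congr ((eSS g).subtypeEquiv fun t => ?_)
  have h1 : aS g (cap g (gam hs)) t = t ↔ t.comp (ind (gam hs)).toMonoidHom = t := by
    have h : aS g (cap g (gam hs)) t =
        t.comp ((⟨ind (gam hs), ind_mem _⟩ : AutP g)⁻¹ : AutP g).1.toMonoidHom := rfl
    rw [h]
    constructor
    · intro h
      have h' := congrArg (fun f : SS g => f.comp (ind (gam hs)).toMonoidHom) h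
      refine h'.symm.trans ?_
      ext x
      simp
    · intro h
      have h' := congrArg (fun f : SS g => f.comp
        ((⟨ind (gam hs), ind_mem _⟩ : AutP g)⁻¹ : AutP g).1.toMonoidHom) h
      refine h'.symm.trans ?_
      ext x
      simp
  rw [h1]
  constructor
  · intro h
    change (t.comp (pr g)).comp s = t.comp (pr g)
    conv_rhs => rw [← h]
    rfl
  · intro h
    apply PresentedGroup.ext
    intro p
    exact congrArg (fun f : FG g →* Z5 => f (FreeGroup.of p)) h

lemma hom_isSg {s : FG g →* FG g} (hs : IsSg s) (f : FG g →* Z5) (x : FG g) :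
    f (s (s (s x))) = f x := by
  rw [hs.2, map_mul, map_mul, map_inv, hom_zeta]
  simp

/-- Extension of a homomorphism by `1` on the last handle. -/
def Fext (f : FG g →* Z5) : FG (g + 1) →* Z5 :=
  FreeGroup.lift fun p => Fin.lastCases (motive := fun _ => Z5) 1
    (fun i => f (FreeGroup.of (i, p.2))) p.1

lemma Fext_inc (f : FG g →* Z5) (x : FG g) : Fext f (inc g x) = f x := by
  have h : (Fext f).comp (inc g) = f := by
    ext ⟨i, e⟩
    simp [Fext, inc]
  exact congrArg (fun k : FG g →* Z5 => k x) h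

lemma Fext_last (f : FG g →* Z5) (e : Bool) : Fext f (FreeGroup.of (Fin.last g, e)) = 1 := by
  simp [Fext]

/-- Fixed homomorphisms of the step. -/
def eFx {s : FG g →* FG g} (hs : IsSg s) : Fx (step s) ≃ Fx s where
  toFun f := ⟨f.1.comp (inc g), by
    have h2 : ∀ x, f.1 (inc g (s (s x))) = f.1 (inc g x) := by
      intro x
      have h := congrArg (fun k : FG (g + 1) →* Z5 => k (inc g x)) f.2
      simp only [MonoidHom.comp_apply, step_inc, map_mul, map_inv] at h
      rw [mul_comm (f.1 (gb (Fin.last g))), mul_inv_cancel_right] at h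
      exact h
    ext p
    change f.1 (inc g (s (FreeGroup.of p))) = f.1 (inc g (FreeGroup.of p))
    rw [← h2]
    exact hom_isSg hs (f.1.comp (inc g)) _⟩
  invFun f := ⟨Fext f.1, by
    refine hom_ext1 (fun x => ?_) (fun e => ?_)
    · simp only [MonoidHom.comp_apply, step_inc, map_mul, map_inv, Fext_inc]
      rw [show gb (Fin.last g) = FreeGroup.of (Fin.last g, true) from rfl, Fext_last]
      have h : ∀ y, f.1 (s y) = f.1 y := fun y => congrArg (fun k : FG g →* Z5 => k y) f.2
      rw [h, h]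
      simp
    · cases e
      · change Fext f.1 (step s (ga (Fin.last g))) = Fext f.1 (ga (Fin.last g))
        rw [step_a]
        simp only [map_mul, map_inv, Fext_inc, hom_zeta]
        rw [show gb (Fin.last g) = FreeGroup.of (Fin.last g, true) from rfl,
          show ga (Fin.last g) = FreeGroup.of (Fin.last g, false) from rfl, Fext_last, Fext_last]
        simp
      · change Fext f.1 (step s (gb (Fin.last g))) = Fext f.1 (gb (Fin.last g))
        rw [step_b]
        simp only [map_mul, map_inv, Fext_inc, hom_zeta]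
        rw [show gb (Fin.last g) = FreeGroup.of (Fin.last g, true) from rfl,
          show ga (Fin.last g) = FreeGroup.of (Fin.last g, false) from rfl, Fext_last, Fext_last]
        simp⟩
  left_inv f := by
    apply Subtype.ext
    refine hom_ext1 (fun x => ?_) (fun e => ?_)
    · exact Fext_inc _ _
    · change Fext (f.1.comp (inc g)) (FreeGroup.of (Fin.last g, e)) = _
      rw [Fext_last]
      have hA := congrArg (fun k : FG (g + 1) →* Z5 => k (ga (Fin.last g))) f.2
      have hB := congrArg (fun k : FG (g + 1) →* Z5 => k (gb (Fin.last g))) f.2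
      simp only [MonoidHom.comp_apply, step_a, step_b, map_mul, map_inv] at hA hB
      have hz : f.1 (inc g (zeta g)) = 1 := hom_zeta (f.1.comp (inc g))
      rw [hz] at hA hB
      have key : ∀ u v : Z5, v * 1⁻¹ * v⁻¹ * 1 * v⁻¹ = u → v * u * v⁻¹ * 1 * v⁻¹ = v →
          1 = u ∧ 1 = v := by decide
      have := key _ _ hA hB
      cases e
      · exact this.1
      · exact this.2
  right_inv f := by
    apply Subtype.ext
    exact MonoidHom.ext fun x => Fext_inc _ _

lemma card_Fx_zero : Nat.card (Fx (MonoidHom.id (FG 0))) = 1 := by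
  have : Unique (Fx (MonoidHom.id (FG 0))) :=
    { default := ⟨1, rfl⟩
      uniq := by
        rintro ⟨f, hf⟩
        apply Subtype.ext
        ext ⟨i, e⟩
        exact i.elim0 }
  exact Nat.card_unique

/-- Fixed homomorphisms in the base case of genus three. -/
def eFx3 : Fx s3 ≃ Z5 × Z5 where
  toFun f := (f.1 (ga 0), f.1 (gb 0))
  invFun q := ⟨FreeGroup.lift fun p => if p.2 then q.2 else q.1, by
    ext ⟨i, e⟩
    simp only [MonoidHom.comp_apply, s3_of, map_mul, map_inv, FreeGroup.lift_apply_of]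
    rw [mul_comm, mul_inv_cancel_left]⟩
  left_inv f := by
    have h : ∀ (i : Fin 3) (e : Bool), f.1 (FreeGroup.of (i - 1, e)) = f.1 (FreeGroup.of (i, e)) := by
      intro i e
      have h := congrArg (fun k : FG 3 →* Z5 => k (FreeGroup.of (i, e))) f.2
      simp only [MonoidHom.comp_apply, s3_of, map_mul, map_inv] at h
      rw [mul_comm, mul_inv_cancel_left] at h
      exact h
    have h0 : ∀ (i : Fin 3) (e : Bool), f.1 (FreeGroup.of (i, e)) = f.1 (FreeGroup.of (0, e)) := by
      intro i e
      have h1 := h 1 e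
      have h2 := h 2 e
      have e1 : (1 : Fin 3) - 1 = 0 := rfl
      have e2 : (2 : Fin 3) - 1 = 1 := rfl
      rw [e1] at h1
      rw [e2] at h2
      fin_cases i
      · rfl
      · exact h1.symm
      · exact (h1.trans h2).symm
    apply Subtype.ext
    ext ⟨i, e⟩
    rw [h0]
    cases e
    · simp [ga]
    · simp [gb]
  right_inv q := by
    simp [ga, gb]

lemma card_Fx_three : Nat.card (Fx s3) = 25 := by
  rw [Nat.card_congr eFx3, Nat.card_prod, Nat.card_eq_fintype_card]
  rfl

lemma exists_sg (g c : ℕ) (s : FG g →* FG g) (hs : IsSg s) (hc : Nat.card (Fx s) = c) (m : ℕ) :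
    ∃ s : FG (g + m) →* FG (g + m), IsSg s ∧ Nat.card (Fx s) = c := by
  induction m with
  | zero => exact ⟨s, hs, hc⟩
  | succ m ih =>
    obtain ⟨s, hs, hc⟩ := ih
    exact ⟨step s, step_isSg s hs, by rw [Nat.card_congr (eFx hs), hc]⟩

end Sg

open Sg in
theorem specSig : SpecSig := by
  refine ⟨card_SS, fun g hg => ?_⟩
  have h : ∃ s : FG g →* FG g, IsSg s ∧ Nat.card (Fx s) = if 3 ∣ g then 25 else 1 := by
    split_ifs with h3
    · obtain ⟨m, rfl⟩ : ∃ m, g = 3 + m := ⟨g - 3, by omega⟩
      exact exists_sg 3 25 s3 isSg_three card_Fx_three m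
    · obtain ⟨m, rfl⟩ : ∃ m, g = 0 + m := ⟨g, by omega⟩
      exact exists_sg 0 1 _ isSg_zero card_Fx_zero m
  obtain ⟨s, hs, hc⟩ := h
  exact ⟨cap g (gam hs), cap_cube hs, by rw [card_fix hs, hc]⟩

end MP590
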