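import Pool.Agent.Lib.MP_00590d_ag.Spec

/-!
# MP_00590d_ag, module STAB: compatibility with the stabilisation (helper72)
-/

set_option autoImplicit false

namespace MP590

namespace StabM

section

variable {G G' : Type} [Group G] [Group G']

omit [Group G] in
lemma dlt_comb {k : ℕ} (m n : ℤ) (e e' : (Fin (k + 1) → G) → ℤ) (x : Fin (k + 2) → G) :
    dlt (fun y => m * e y + n * e' y) x = m * dlt e x + n * dlt e' x := by
  simp only [dlt, Finset.mul_sum, ← Finset.sum_add_distrib]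
  exact Finset.sum_congr rfl fun i _ => by ring

lemma cobd_comb {k : ℕ} (m n : ℤ) {c c' : (Fin (k + 2) → G) → ℤ} (h : IsCobd c)
    (h' : IsCobd c') : IsCobd fun x => m * c x + n * c' x := by
  obtain ⟨e, he, rfl⟩ := h
  obtain ⟨e', he', rfl⟩ := h'
  refine ⟨fun y => m * e y + n * e' y, fun γ x => ?_, ?_⟩
  · simp only [he γ x, he' γ x]
  · funext x
    exact dlt_comb m n e e' x

lemma cobd_pull {k : ℕ} (f : G' →* G) {c : (Fin (k + 2) → G) → ℤ} (h : IsCobd c) :
    IsCobd (pull f c) := by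
  obtain ⟨e, he, rfl⟩ := h
  refine ⟨pull f e, fun γ x => ?_, ?_⟩
  · simp only [pull, map_mul]
    exact he (f γ) fun i => f (x i)
  · funext x
    simp only [pull, dlt]

lemma xx_comp {O : Type} [Fintype O] (a : G →* Equiv.Perm O) (h : G' →* G) (f : O → ZMod 3)
    (x : Fin 5 → G') : xx (a.comp h) f x = xx a f (fun i => h (x i)) := by
  simp only [xx, bb, dd, MonoidHom.comp_apply, map_inv]

end

section

variable {S S' V : Type} (e : S' ≃ S × V)

/-- the copy `v` of a triple -/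
def jj (v : V) (o : NC S) : NC S' :=
  ⟨(e.symm (o.1.1, v), e.symm (o.1.2.1, v), e.symm (o.1.2.2, v)), fun h => o.2 (by
    have h1 := e.symm.injective h.1
    have h2 := e.symm.injective h.2
    exact ⟨(Prod.ext_iff.1 h1).1, (Prod.ext_iff.1 h2).1⟩)⟩

/-- the triple of the `V`-parts is constant -/
def cst (t : NC S') : Prop :=
  (e t.1.1).2 = (e t.1.2.1).2 ∧ (e t.1.2.1).2 = (e t.1.2.2).2

/-- the triple of the `S`-parts -/
def sp (t : NC S') (h : cst e t) : NC S :=
  ⟨((e t.1.1).1, (e t.1.2.1).1, (e t.1.2.2).1), fun h' => t.2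
    ⟨e.injective (Prod.ext h'.1 h.1), e.injective (Prod.ext h'.2 h.2)⟩⟩

open Classical in
/-- the adapted phase -/
noncomputable def ph (f : NC S → ZMod 3) (fV : NC V → ZMod 3) (t : NC S') : ZMod 3 :=
  if h : cst e t then f (sp e t h) else fV ⟨((e t.1.1).2, (e t.1.2.1).2, (e t.1.2.2).2), h⟩

lemma NC_ext {t t' : NC S} (h1 : t.1.1 = t'.1.1) (h2 : t.1.2.1 = t'.1.2.1)
    (h3 : t.1.2.2 = t'.1.2.2) : t = t' :=
  Subtype.ext (Prod.ext h1 (Prod.ext h2 h3))

lemma ph_pos {f : NC S → ZMod 3} {fV : NC V → ZMod 3} {t : NC S'} (h : cst e t) :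
    ph e f fV t = f (sp e t h) := dif_pos h

lemma ph_neg {f : NC S → ZMod 3} {fV : NC V → ZMod 3} {t : NC S'} (h : ¬ cst e t) :
    ph e f fV t = fV ⟨((e t.1.1).2, (e t.1.2.1).2, (e t.1.2.2).2), h⟩ := dif_neg h

lemma ph_phase {f : NC S → ZMod 3} {fV : NC V → ZMod 3} (hf : Phase rot f)
    (hV : Phase rot fV) : Phase rot (ph e f fV) := by
  intro t
  by_cases h : cst e t
  · have h' : cst e (rot t) := ⟨h.2, h.2.symm.trans h.1.symm⟩
    rw [ph_pos e h, ph_pos e h', ← hf]
    rfl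
  · have h' : ¬ cst e (rot t) := fun h' => h ⟨h'.2.symm.trans h'.1.symm, h'.1⟩
    rw [ph_neg e h, ph_neg e h']
    exact hV ⟨((e t.1.1).2, (e t.1.2.1).2, (e t.1.2.2).2), h⟩

lemma ph_jj {f : NC S → ZMod 3} {fV : NC V → ZMod 3} (v : V) (o : NC S) :
    ph e f fV (jj e v o) = f o := by
  have h : cst e (jj e v o) := by
    constructor <;> simp [jj]
  rw [ph_pos e h]
  congr 1
  apply NC_ext <;> simp [sp, jj]

lemma jj_inj {v w : V} {o p : NC S} (h : jj e v o = jj e w p) : v = w ∧ o = p := by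
  have h1 : e.symm (o.1.1, v) = e.symm (p.1.1, w) := congrArg (fun t => t.1.1) h
  have h2 : e.symm (o.1.2.1, v) = e.symm (p.1.2.1, w) := congrArg (fun t => t.1.2.1) h
  have h3 : e.symm (o.1.2.2, v) = e.symm (p.1.2.2, w) := congrArg (fun t => t.1.2.2) h
  have k1 := Prod.ext_iff.1 (e.symm.injective h1)
  have k2 := Prod.ext_iff.1 (e.symm.injective h2)
  have k3 := Prod.ext_iff.1 (e.symm.injective h3)
  exact ⟨k1.2, NC_ext k1.1 k2.1 k3.1⟩

lemma jj_surj {t : NC S'} (h : cst e t) : jj e (e t.1.1).2 (sp e t h) = t := by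
  apply NC_ext
  · simp [sp, jj]
  · change e.symm ((e t.1.2.1).1, (e t.1.1).2) = t.1.2.1
    rw [h.1]; simp
  · change e.symm ((e t.1.2.2).1, (e t.1.1).2) = t.1.2.2
    rw [h.1, h.2]; simp

end

end StabM

open StabM

theorem specStab (hCls : SpecCls) (hIndep : SpecIndep) (hCopies : SpecCopies)
    (hPhase : SpecPhase) (hS : SpecStabS) : SpecStab := by
  intro g f f' hf hf'
  obtain ⟨e, he⟩ := hS g
  obtain ⟨fV, hfV⟩ := hPhase.2 (Multiplicative (ZMod 5) × Multiplicative (ZMod 5))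
  have he' : ∀ (γ : GamB g) (s : SS g) (v : Multiplicative (ZMod 5) × Multiplicative (ZMod 5)),
      e.symm (aS g (cap g γ) s, v) = aS (g + 1) (cap (g + 1) (stab g γ)) (e.symm (s, v)) := by
    intro γ s v
    rw [Equiv.symm_apply_eq, he, Equiv.apply_symm_apply]
  have h2 : ∀ (γ : GamB g) (t : NC (SS (g + 1))),
      ∀ (i : NC (SS (g + 1)) → SS (g + 1)),
      (i ((aNC (aS (g + 1))).comp ((cap (g + 1)).comp (stab g)) γ t) =
        aS (g + 1) (cap (g + 1) (stab g γ)) (i t)) →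
      (e (i ((aNC (aS (g + 1))).comp ((cap (g + 1)).comp (stab g)) γ t))).2 = (e (i t)).2 := by
    intro γ t i hi
    rw [hi, he]
  have hC := hCopies (Gam g) (GamB g) (NC (SS g)) (NC (SS (g + 1)))
    (Multiplicative (ZMod 5) × Multiplicative (ZMod 5)) (cap g) (aNC (aS g))
    ((aNC (aS (g + 1))).comp ((cap (g + 1)).comp (stab g))) f (ph e f fV) (jj e)
    (fun v w o p h => jj_inj e h)
    (fun v γ o => NC_ext (he' γ _ v) (he' γ _ v) (he' γ _ v))
    (fun v o => ph_jj e v o)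
    (by
      intro t ht γ
      have hc : ¬ cst e t := fun h => ht _ _ (jj_surj e h)
      have e0 := h2 γ t (fun t => t.1.1) rfl
      have e1 := h2 γ t (fun t => t.1.2.1) rfl
      have e2 := h2 γ t (fun t => t.1.2.2) rfl
      have hc' : ¬ cst e ((aNC (aS (g + 1))).comp ((cap (g + 1)).comp (stab g)) γ t) := by
        intro h
        apply hc
        unfold cst at h ⊢
        rw [e0, e1, e2] at h
        exact h
      rw [ph_neg e hc, ph_neg e hc']
      congr 1
      exact NC_ext e0 e1 e2)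
  have h3 := cobd_pull (cap g) (hCls (Gam g) (NC (SS g)) (aNC (aS g)) rot f (hPhase.1 _ _ _) hf).2
  have hrot : IsRot ((aNC (aS (g + 1))).comp ((cap (g + 1)).comp (stab g))) rot :=
    ⟨fun γ o => (hPhase.1 _ _ (aS (g + 1))).eqv _ o, (hPhase.1 _ _ (aS (g + 1))).three⟩
  have h4 := hIndep (GamB g) (NC (SS (g + 1)))
    ((aNC (aS (g + 1))).comp ((cap (g + 1)).comp (stab g))) rot f' (ph e f fV) hrot hf'
    (ph_phase e hf hfV)
  have h5 := cobd_comb (-1) (-8) h4 h3
  refine Eq.mp (congrArg _ ?_) h5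
  funext y
  rw [hC]
  have hcard : Fintype.card (Multiplicative (ZMod 5) × Multiplicative (ZMod 5)) = 25 := by
    rw [Fintype.card_prod]
    rfl
  rw [hcard, xx_comp]
  simp only [pull, MonoidHom.comp_apply]
  push_cast
  ring

end MP590
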