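import Pool.Agent.Lib.MP_00590d_ag.Spec

/-!
# MP_00590d_ag, module STABS: `H¹(Σ_{g+1}; ℤ/5)` and `H¹(Σ_g; ℤ/5)` (helper72)
-/

set_option autoImplicit false

namespace MP590

namespace StabS

/-- the coefficient group -/
abbrev A5 : Type := Multiplicative (ZMod 5)

lemma zeta_comm {G : Type*} [CommGroup G] {g : ℕ} (f : FG g →* G) : f (zeta g) = 1 := by
  rw [zeta, map_list_prod, List.map_ofFn]
  refine List.prod_eq_one fun x hx => ?_
  rw [List.mem_ofFn] at hx
  obtain ⟨i, rfl⟩ := hx
  rw [Function.comp_apply, map_cm, cm, mul_comm (f (ga i)), mul_inv_cancel_right, mul_inv_cancel]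

/-- homomorphisms from the surface group to an abelian group are the homomorphisms from the free
group -/
def toF (g : ℕ) : SS g ≃ (FG g →* A5) where
  toFun s := s.comp (pr g)
  invFun f := QuotientGroup.lift _ f (Subgroup.normalClosure_le_normal (N := f.ker) (by
    rintro x (rfl : x = _)
    exact zeta_comm f))
  left_inv s := by
    ext x
    rfl
  right_inv f := by
    ext x
    rfl

lemma toF_apply {g : ℕ} (s : SS g) (x : FG g) : toF g s x = s (pr g x) := rfl

lemma toF_inj {g : ℕ} {s s' : SS g} (h : ∀ x, toF g s x = toF g s' x) : s = s' :=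
  (toF g).injective (MonoidHom.ext h)

lemma aS_mk {g : ℕ} (φ : AutP g) (s : SS g) (x : PiG g) :
    aS g (QuotientGroup.mk φ : Gam g) s x = s (((φ⁻¹ : AutP g) : MulAut (PiG g)) x) := rfl

lemma toF_aS {g : ℕ} (γ : GamB g) (s : SS g) (x : FG g) :
    toF g (aS g (cap g γ) s) x = toF g s (((γ⁻¹ : GamB g) : MulAut (FG g)) x) := rfl

/-- homomorphisms from `FG (g + 1)` -/
def split (g : ℕ) : (FG (g + 1) →* A5) ≃ (FG g →* A5) × (A5 × A5) where
  toFun f := (f.comp (inc g), (f (ga (Fin.last g)), f (gb (Fin.last g))))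
  invFun p := FreeGroup.lift fun q =>
    Fin.lastCases (motive := fun _ => A5) (if q.2 then p.2.2 else p.2.1)
      (fun i => p.1 (FreeGroup.of (i, q.2))) q.1
  left_inv f := by
    refine hom_ext1 (fun x => ?_) (fun e => ?_)
    · have h : (FreeGroup.lift fun q : Fin (g + 1) × Bool =>
        Fin.lastCases (motive := fun _ => A5) (if q.2 then f (gb (Fin.last g))
          else f (ga (Fin.last g)))
          (fun i => (f.comp (inc g)) (FreeGroup.of (i, q.2))) q.1).comp (inc g) =
          f.comp (inc g) := by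
        ext ⟨i, e⟩
        simp [inc]
      exact DFunLike.congr_fun h x
    · cases e <;> simp [ga, gb]
  right_inv p := by
    refine Prod.ext ?_ (Prod.ext ?_ ?_)
    · ext ⟨i, e⟩
      simp [inc]
    · simp [ga]
    · simp [gb]

end StabS

open StabS

theorem specStabS : SpecStabS := by
  intro g
  refine ⟨((toF (g + 1)).trans (split g)).trans ((toF g).symm.prodCongr (Equiv.refl _)),
    fun γ s => ?_⟩
  have h1 : ∀ x, toF (g + 1) (aS (g + 1) (cap (g + 1) (stab g γ)) s) x =
      toF (g + 1) s (((stab g γ⁻¹ : GamB (g + 1)) : MulAut (FG (g + 1))) x) := by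
    intro x
    rw [toF_aS, ← map_inv]
  have hi : ∀ x, (((stab g γ⁻¹ : GamB (g + 1)) : MulAut (FG (g + 1))) (inc g x)) =
      inc g (((γ⁻¹ : GamB g) : MulAut (FG g)) x) := fun x => extA_inc _ _
  have hl : ∀ e, (((stab g γ⁻¹ : GamB (g + 1)) : MulAut (FG (g + 1)))
      (FreeGroup.of (Fin.last g, e))) = FreeGroup.of (Fin.last g, e) := fun e => extA_last _ _
  refine Prod.ext ?_ (Prod.ext ?_ ?_)
  · apply toF_inj
    intro x
    rw [toF_aS]
    change toF g ((toF g).symm ((toF (g + 1)
      (aS (g + 1) (cap (g + 1) (stab g γ)) s)).comp (inc g))) x =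
      toF g ((toF g).symm ((toF (g + 1) s).comp (inc g))) _
    rw [Equiv.apply_symm_apply, Equiv.apply_symm_apply, MonoidHom.comp_apply, h1, hi]
    rfl
  · change toF (g + 1) (aS (g + 1) (cap (g + 1) (stab g γ)) s) (ga (Fin.last g)) =
      toF (g + 1) s (ga (Fin.last g))
    rw [h1, ga, hl]
  · change toF (g + 1) (aS (g + 1) (cap (g + 1) (stab g γ)) s) (gb (Fin.last g)) =
      toF (g + 1) s (gb (Fin.last g))
    rw [h1, gb, hl]

end MP590
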