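import Pool.Agent.Lib.MP_00590d_ag.Spec
import Pool.Agent.Lib.MP_ab96eb_gt.Plan

set_option autoImplicit false

/-! # MP_00590d_ag : module DESC (invariant cochains come from the base) -/

namespace MP590

open MPb00168 TCMM

theorem specDesc : SpecDesc := by
  intro Γ T _ _ C n E hE
  have hL : ∀ σ : Sing T n, ∃ τ : Sing C.T n, C.p.comp τ = σ := fun σ => Lift.exists_lift C σ
  choose L hL using hL
  refine ⟨fun σ => E (L σ), fun τ => ?_⟩
  obtain ⟨g, hg⟩ := Lift.unique_lift C τ (L (C.p.comp τ)) (hL _).symm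
  have e : L (C.p.comp τ) = (smC C g).comp τ := by
    ext t
    exact hg t
  show E (L (C.p.comp τ)) = E τ
  rw [e, hE]

end MP590
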