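import Pool.Agent.Lib.MP_00590d_ag.Spec
import Pool.Agent.Lib.MP_b00168_gt.ZC
import Pool.Agent.Lib.MP_b00168_gt.SDT

set_option autoImplicit false

/-! # MP_00590d_ag : module SMALL (cochains vanishing on small simplices) -/

namespace MP590

open MPb00168 TCMM

namespace SmallCo

open SS

variable {X : Type} [TopologicalSpace X]

/-- Linear extension of a cochain. -/
noncomputable def wl {n : ℕ} (w : Sing X n → ℤ) : Chain X n →ₗ[ℤ] ℤ := Finsupp.linearCombination ℤ w

@[simp] lemma wl_single {n : ℕ} (w : Sing X n → ℤ) (σ : Sing X n) (a : ℤ) :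
    wl w (Finsupp.single σ a) = a * w σ := by
  simp [wl]

lemma wl_zero_of {n : ℕ} (w : Sing X n → ℤ) (c : Chain X n) (h : ∀ σ ∈ c.support, w σ = 0) :
    wl w c = 0 := by
  rw [MPb00168.lin_eq_sum (wl w) c]
  refine Finset.sum_eq_zero fun σ hσ => ?_
  rw [wl_single, h σ hσ]
  simp

lemma wl_bd_zero {n : ℕ} (w : Sing X (n + 1) → ℤ) (c : Chain X (n + 2))
    (h : ∀ ρ ∈ c.support, ∑ k : Fin (n + 3), (-1) ^ (k : ℕ) * w (face k ρ) = 0) :
    wl w (bd c) = 0 := by
  have e := MPb00168.lin_eq_sum ((wl w).comp bd) c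
  rw [LinearMap.comp_apply] at e
  rw [e]
  refine Finset.sum_eq_zero fun ρ hρ => ?_
  have e1 : ((wl w).comp bd) (Finsupp.single ρ 1) =
      ∑ k : Fin (n + 3), (-1) ^ (k : ℕ) * w (face k ρ) := by
    simp only [LinearMap.comp_apply, bd_single, map_sum, map_smul, wl_single, one_smul,
      smul_eq_mul, one_mul]
  rw [e1, h ρ hρ, smul_zero]

/-- Iterated subdivision as a linear map. -/
noncomputable def S (n r : ℕ) : Chain X n →ₗ[ℤ] Chain X n := (SdS (X := X) (n := n)) ^ r

lemma S_eq {n : ℕ} (r : ℕ) (c : Chain X n) : S n r c = (⇑(SdS (X := X) (n := n)))^[r] c := by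
  unfold S
  rw [Module.End.coe_pow]

lemma S_zero {n : ℕ} (c : Chain X n) : S n 0 c = c := by
  rw [S_eq]; rfl

lemma S_succ {n : ℕ} (r : ℕ) (c : Chain X n) : S n (r + 1) c = SdS (S n r c) := by
  rw [S_eq, S_eq, Function.iterate_succ_apply']

lemma S_bd {n : ℕ} (r : ℕ) (c : Chain X (n + 1)) : bd (S (n + 1) r c) = S n r (bd c) := by
  induction r with
  | zero => rw [S_zero, S_zero]
  | succ r ih => rw [S_succ, S_succ, SdS_bd specSdMap, ih]

lemma push_S {Y : Type} [TopologicalSpace Y] (φ : C(X, Y)) {n : ℕ} (r : ℕ) (c : Chain X n) :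
    push φ (S n r c) = S n r (push φ c) := by
  induction r with
  | zero => rw [S_zero, S_zero]
  | succ r ih => rw [S_succ, S_succ, push_SdS, ih]

lemma push_TT {Y : Type} [TopologicalSpace Y] (φ : C(X, Y)) {n : ℕ} (c : Chain X n) :
    push φ (TT X n c) = TT Y n (push φ c) := by
  have := linext_apply (f := (push φ).comp (TT X n)) (g := (TT Y n).comp (push φ)) (c := c) (by
    intro σ
    simp only [LinearMap.comp_apply, push_single, TT_single, push_comp])
  simpa using this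

/-- The simplices of the subdivisions and of the homotopy are contained in the original one. -/
lemma range_S {n : ℕ} (r : ℕ) (σ : Sing X n) :
    ∀ τ ∈ (S n r (Finsupp.single σ 1)).support, Set.range τ ⊆ Set.range σ := by
  intro τ hτ
  rw [S_eq, Small.iter_SdS] at hτ
  exact range_push _ _ τ hτ

lemma range_TT {n : ℕ} (c : Chain X n) : ∀ τ ∈ (TT X n c).support, ∃ σ ∈ c.support,
    Set.range τ ⊆ Set.range σ := by
  intro τ hτ
  obtain ⟨σ, hσ, h⟩ := mem_support_lin (TT X n) c hτ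
  rw [TT_single] at h
  exact ⟨σ, hσ, range_push _ _ τ h⟩

/-- Subdivisions of a simplex covered by the open sets `V i` are small. -/
lemma small_S {ι : Type} (V : ι → Set X) (hV : ∀ i, IsOpen (V i)) {n : ℕ} (σ : Sing X n)
    (hσ : ∀ t, ∃ i, σ t ∈ V i) : ∃ r : ℕ, ∀ r' ≥ r,
      ∀ τ ∈ (S n r' (Finsupp.single σ 1)).support, ∃ i, ∀ t, τ t ∈ V i := by
  obtain ⟨r, hr⟩ := Small.small_single (X := Dl n) (Set.range fun i => σ ⁻¹' V i)
    (by
      rintro _ ⟨i, rfl⟩
      exact (hV i).preimage σ.continuous)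
    (fun t => by
      obtain ⟨i, hi⟩ := hσ t
      exact ⟨_, ⟨i, rfl⟩, hi⟩) (ContinuousMap.id (Dl n) : Sing (Dl n) n)
  refine ⟨r, fun r' hr' τ hτ => ?_⟩
  have e : S n r' (Finsupp.single σ (1 : ℤ)) =
      push σ (S n r' (Finsupp.single (ContinuousMap.id (Dl n) : Sing (Dl n) n) 1)) := by
    rw [push_S, push_single, ContinuousMap.comp_id]
  rw [e] at hτ
  obtain ⟨ρ, hρ, hρ'⟩ := mem_support_lin (push σ) _ hτ
  rw [push_single] at hρ'
  have h1 : τ = σ.comp ρ := by simpa using Finsupp.support_single_subset hρ'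
  rw [S_eq] at hρ
  obtain ⟨_, ⟨i, rfl⟩, hi⟩ := hr r' hr' ρ hρ
  refine ⟨i, fun t => ?_⟩
  rw [h1]
  exact hi ⟨t, rfl⟩

variable {n : ℕ} (w : Sing X (n + 1) → ℤ)

/-- One term of the cochain `E`. -/
noncomputable def term (j : ℕ) (τ : Sing X n) : ℤ := wl w (TT X n (S n j (Finsupp.single τ 1)))

/-- The cochain `E`. -/
noncomputable def EE (τ : Sing X n) : ℤ := -∑ᶠ j : ℕ, term w j τ

variable {w}

lemma term_zero {ι : Type} (V : ι → Set X) (hV : ∀ i, IsOpen (V i))
    (h0 : ∀ σ : Sing X (n + 1), (∃ i, ∀ t, σ t ∈ V i) → w σ = 0) (τ : Sing X n)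
    (hτ : ∀ t, ∃ i, τ t ∈ V i) : ∃ r : ℕ, ∀ j ≥ r, term w j τ = 0 := by
  obtain ⟨r, hr⟩ := small_S V hV τ hτ
  refine ⟨r, fun j hj => ?_⟩
  refine wl_zero_of w _ fun σ hσ => h0 σ ?_
  obtain ⟨ρ, hρ, hσρ⟩ := range_TT _ σ hσ
  obtain ⟨i, hi⟩ := hr j hj ρ hρ
  refine ⟨i, fun t => ?_⟩
  obtain ⟨s, hs⟩ := hσρ ⟨t, rfl⟩
  rw [← hs]
  exact hi s

lemma EE_eq {r : ℕ} {τ : Sing X n} (h : ∀ j ≥ r, term w j τ = 0) :
    EE w τ = -∑ j ∈ Finset.range r, term w j τ := by
  unfold EE
  congr 1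
  refine finsum_eq_finset_sum_of_support_subset _ fun j hj => ?_
  by_contra hcon
  rw [Finset.mem_coe, Finset.mem_range, not_lt] at hcon
  exact hj (h j hcon)

lemma term_bd (j : ℕ) (σ : Sing X (n + 1)) :
    wl w (TT X n (S n j (bd (Finsupp.single σ 1)))) =
      ∑ k : Fin (n + 2), (-1) ^ (k : ℕ) * term w j (face k σ) := by
  unfold term
  simp only [bd_single, map_sum, map_smul, one_smul, smul_eq_mul]

lemma step (σ : Sing X (n + 1))
    (h : ∀ ρ : Sing X (n + 2), Set.range ρ ⊆ Set.range σ →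
      ∑ k : Fin (n + 3), (-1) ^ (k : ℕ) * w (face k ρ) = 0) (r : ℕ) :
    w σ = wl w (S (n + 1) r (Finsupp.single σ 1)) -
      ∑ j ∈ Finset.range r, wl w (TT X n (S n j (bd (Finsupp.single σ 1)))) := by
  induction r with
  | zero => simp [S_zero]
  | succ r ih =>
    have e := TT_succ specSdHomot n (S (n + 1) r (Finsupp.single σ (1 : ℤ)))
    rw [S_bd, ← S_succ] at e
    have e1 : wl w (bd (TT X (n + 1) (S (n + 1) r (Finsupp.single σ 1)))) = 0 := by
      refine wl_bd_zero w _ fun ρ hρ => h ρ ?_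
      obtain ⟨τ, hτ, hρτ⟩ := range_TT _ ρ hρ
      exact hρτ.trans (range_S r σ τ hτ)
    rw [e] at e1
    simp only [map_sub] at e1
    rw [Finset.sum_range_succ, ih]
    linarith

end SmallCo

open SmallCo SS in
theorem specSmallCo : SpecSmallCo := by
  intro X ι _ V n w hV hc h0
  refine ⟨EE w, fun σ hσ => ?_, fun φ hφ τ => ?_⟩
  · have hf : ∀ k : Fin (n + 2), ∀ t, ∃ i, face k σ t ∈ V i := fun k t => hσ _
    have h1 := fun k => term_zero V hV h0 (face k σ) (hf k)
    choose r hr using h1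
    obtain ⟨r0, hr0⟩ := small_S V hV σ hσ
    set R := max r0 (Finset.univ.sup r) with hR
    have hrR : ∀ k, ∀ j ≥ R, term w j (face k σ) = 0 := fun k j hj =>
      hr k j (le_trans (le_trans (Finset.le_sup (Finset.mem_univ k)) (le_max_right _ _)) hj)
    have hs := step (w := w) σ (fun ρ hρ => hc ρ fun t => by
      obtain ⟨s, hs⟩ := hρ ⟨t, rfl⟩
      rw [← hs]
      exact hσ s) R
    have hz : wl w (S (n + 1) R (Finsupp.single σ 1)) = 0 :=
      wl_zero_of w _ fun τ hτ => h0 τ (hr0 R (le_max_left _ _) τ hτ)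
    rw [hz, zero_sub] at hs
    rw [hs]
    have e2 : ∀ k, EE w (face k σ) = -∑ j ∈ Finset.range R, term w j (face k σ) := fun k =>
      EE_eq (hrR k)
    simp only [e2, term_bd, mul_neg, Finset.sum_neg_distrib, Finset.mul_sum]
    rw [Finset.sum_comm]
  · unfold EE
    congr 1
    refine finsum_congr fun j => ?_
    unfold term
    have e1 : S n j (Finsupp.single (φ.comp τ) (1 : ℤ)) =
        push φ (S n j (Finsupp.single τ 1)) := by
      rw [push_S, push_single]
    rw [e1, ← push_TT]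
    have e3 := linext_apply (f := (wl w).comp (push φ)) (g := wl w)
      (c := TT X n (S n j (Finsupp.single τ 1))) (by
      intro σ
      simp only [LinearMap.comp_apply, push_single, wl_single, hφ])
    simpa using e3

end MP590
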