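import Pool.Agent.Lib.MP_00590d_ag.Cup
import Pool.Agent.Lib.MP_00590d_ag.SmallCo
import Pool.Agent.Lib.MP_00590d_ag.Desc

set_option autoImplicit false

/-! # MP_00590d_ag : module TOP (the topological statement) -/

namespace MP590

open MPb00168 TCMM

theorem specTop : SpecTop := by
  classical
  intro Γ T O _ _ _ C a r f U Θ hR hP hUo hUr hUi hc h0 hr hi u hu
  have hw := fun j => specWind Γ T O C a r f (U j) (Θ j) hR hP (hUr j) (hUi j) (hc j) (h0 j)
    (hr j) (hi j) u hu
  choose N hNi hNr hN using hw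
  obtain ⟨w, κ, hwi, hκi, hwc, hw0, hx⟩ := specCup Γ T O C a r f U u N hR hP hu hNi hNr hN
  obtain ⟨E, hE, hEn⟩ := specSmallCo C.T (O → Bool) (fun ε => {m | ∀ o, m ∈ U (ε o) o}) 3 w
    (fun ε => by
      have e : {m | ∀ o, m ∈ U (ε o) o} = ⋂ o, U (ε o) o := by
        ext m
        simp
      rw [e]
      exact isOpen_iInter_of_finite fun o => hUo _ _)
    (fun ρ _ => hwc ρ)
    (fun σ hσ => by
      obtain ⟨ε, hε⟩ := hσ
      refine hw0 σ fun o => ?_
      have key : ∀ t, σ t ∈ U (ε o) o := fun t => hε t o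
      rcases h : ε o
      · rw [h] at key
        exact Or.inl key
      · rw [h] at key
        exact Or.inr key)
  obtain ⟨e, he⟩ := specDesc Γ T C 3 (fun τ => E τ + κ τ) (fun γ τ => by
    show E ((smC C γ).comp τ) + κ ((smC C γ).comp τ) = E τ + κ τ
    rw [hκi, hEn (smC C γ) (fun σ => hwi γ σ)])
  refine ⟨e, fun σ hσ => ?_⟩
  have h1 := hE σ fun t => ⟨fun o => if σ t ∈ U false o then false else true, fun o => by
    by_cases h : σ t ∈ U false o
    · simp only [h, if_true]
    · simp only [h, if_false]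
      exact (hσ t o).resolve_left h⟩
  have h2 : ∀ k : Fin 5, face k (C.p.comp σ) = C.p.comp (face k σ) := fun k => rfl
  rw [hx σ, h1, ← Finset.sum_add_distrib]
  refine Finset.sum_congr rfl fun k _ => ?_
  rw [h2, he]
  ring

end MP590
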