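import Pool.Agent.Lib.MP_00590d_ag.Main
import Pool.Agent.Lib.MP_00590d_ag.Sig
import Pool.Agent.Lib.MP_00590d_ag.Stab
import Pool.Agent.Lib.MP_00590d_ag.StabS
import Pool.Agent.Lib.MP_00590d_ag.Det
import Pool.Agent.Lib.MP_00590d_ag.TopM
import Pool.Agent.Lib.MP_00590d_ag.Codim

set_option autoImplicit false

/-! # MP_00590d_ag : the result -/

namespace MP590

theorem goal :
    ∃ (cp : ∀ g : ℕ, GamB g → Gam g) (st : ∀ g : ℕ, GamB g → Gam (g + 1))
      (x : ∀ g : ℕ, (Fin (3 + 2) → Gam g) → ℤ),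
      (∀ g, IsCap (cp g)) ∧ (∀ g, IsStab (st g)) ∧ (∀ g, IsCocycle (x g)) ∧
      (∀ g, IsCobd fun y => 3 * x g y) ∧
      (∀ g, IsCobd fun y => pull (cp g) (x g) y - pull (st g) (x (g + 1)) y) ∧
      (∀ g, 1 ≤ g → ¬ IsCobd (x g)) ∧ (∀ g, 2 ≤ g → InAH 2 (x g)) ∧
      ∀ (g : ℕ) (L : Torsor g), DiesOff 2 L (x g) :=
  goal_of specCls specPhase (specStab specCls specIndep specCopies specPhase specStabS)
    (specDet specIndep specPhase specDetE) specSig (specGeo specTop specPhase)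

end MP590
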