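import Pool.Agent.Lib.MP_00590d_ag.Groups

set_option autoImplicit false

/-!
# MP_00590d_ag : the homomorphisms `cap` and `stab`
-/

namespace MP590

lemma map_cm {G H : Type*} [Group G] [Group H] (f : G →* H) (x y : G) :
    f (cm x y) = cm (f x) (f y) := by
  simp [cm]

/-- The projection `FG g → PiG g`. -/
abbrev pr (g : ℕ) : FG g →* PiG g := PresentedGroup.mk {zeta g}

/-- The intersection form on `Hom(FG g, ℤ)`: `ω(f, f') = ∑ f(a_i) f'(b_i) - f(b_i) f'(a_i)`. -/
def omega {g : ℕ} (f f' : FG g →* Multiplicative ℤ) : ℤ :=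
  ∑ i : Fin g, ((f (ga i)).toAdd * (f' (gb i)).toAdd - (f (gb i)).toAdd * (f' (ga i)).toAdd)

/-! ## The Heisenberg group

It is used to show that automorphisms fixing `ζ` preserve the intersection form. -/

/-- The Heisenberg group: triples of integers with
`(x, y, z)(x', y', z') = (x + x', y + y', z + z' + x y')`. -/
@[ext] structure Heis where
  /-- first coordinate -/
  x : ℤ
  /-- second coordinate -/
  y : ℤ
  /-- third (central) coordinate -/
  z : ℤ

namespace Heis

instance : Mul Heis := ⟨fun u v => ⟨u.x + v.x, u.y + v.y, u.z + v.z + u.x * v.y⟩⟩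
instance : One Heis := ⟨⟨0, 0, 0⟩⟩
instance : Inv Heis := ⟨fun u => ⟨-u.x, -u.y, -u.z + u.x * u.y⟩⟩

@[simp] lemma mul_x (u v : Heis) : (u * v).x = u.x + v.x := rfl
@[simp] lemma mul_y (u v : Heis) : (u * v).y = u.y + v.y := rfl
@[simp] lemma mul_z (u v : Heis) : (u * v).z = u.z + v.z + u.x * v.y := rfl
@[simp] lemma one_x : (1 : Heis).x = 0 := rfl
@[simp] lemma one_y : (1 : Heis).y = 0 := rfl
@[simp] lemma one_z : (1 : Heis).z = 0 := rfl
@[simp] lemma inv_x (u : Heis) : (u⁻¹).x = -u.x := rfl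
@[simp] lemma inv_y (u : Heis) : (u⁻¹).y = -u.y := rfl
@[simp] lemma inv_z (u : Heis) : (u⁻¹).z = -u.z + u.x * u.y := rfl

instance : Group Heis :=
  Group.ofLeftAxioms
    (fun a b c => by ext <;> simp <;> ring)
    (fun a => by ext <;> simp)
    (fun a => by ext <;> simp)

/-- The first coordinate as a homomorphism. -/
def px : Heis →* Multiplicative ℤ where
  toFun u := Multiplicative.ofAdd u.x
  map_one' := rfl
  map_mul' _ _ := rfl

/-- The second coordinate as a homomorphism. -/
def py : Heis →* Multiplicative ℤ where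
  toFun u := Multiplicative.ofAdd u.y
  map_one' := rfl
  map_mul' _ _ := rfl

end Heis

/-- The value at `ζ` of a homomorphism to the Heisenberg group is the intersection number of its
first two coordinates. -/
lemma heis_zeta {g : ℕ} (Φ : FG g →* Heis) :
    Φ (zeta g) = ⟨0, 0, omega (Heis.px.comp Φ) (Heis.py.comp Φ)⟩ := by
  have key : ∀ l : List (Fin g),
      Φ ((l.map fun i => cm (ga i) (gb i)).prod) =
        ⟨0, 0, (l.map fun i => (Φ (ga i)).x * (Φ (gb i)).y - (Φ (gb i)).x * (Φ (ga i)).y).sum⟩ := by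
    intro l
    induction l with
    | nil => simp; rfl
    | cons i l ih =>
      rw [List.map_cons, List.prod_cons, map_mul, ih, List.map_cons, List.sum_cons, map_cm]
      ext
      · simp [cm]
      · simp [cm]
      · simp [cm]; ring
  rw [zeta, List.ofFn_eq_map, key, ← List.ofFn_eq_map, List.sum_ofFn]
  rfl

lemma heis_exists {g : ℕ} (f f' : FG g →* Multiplicative ℤ) :
    ∃ Φ : FG g →* Heis, Heis.px.comp Φ = f ∧ Heis.py.comp Φ = f' := by
  refine ⟨FreeGroup.lift fun p => ⟨(f (FreeGroup.of p)).toAdd, (f' (FreeGroup.of p)).toAdd, 0⟩,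
    ?_, ?_⟩
  · ext p; simp [Heis.px]
  · ext p; simp [Heis.py]

/-- An endomorphism of the free group fixing `ζ` preserves the intersection form. -/
lemma omega_comp {g : ℕ} (φ : FG g →* FG g) (hφ : φ (zeta g) = zeta g)
    (f f' : FG g →* Multiplicative ℤ) : omega (f.comp φ) (f'.comp φ) = omega f f' := by
  obtain ⟨Φ, rfl, rfl⟩ := heis_exists f f'
  have h1 := heis_zeta Φ
  have h2 := heis_zeta (Φ.comp φ)
  rw [MonoidHom.comp_apply, hφ, h1] at h2
  exact (congrArg Heis.z h2).symm

lemma GamB.map_closure {g : ℕ} (φ : GamB g) :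
    (Subgroup.normalClosure {zeta g}).map (φ : MulAut (FG g)).toMonoidHom =
      Subgroup.normalClosure {zeta g} := by
  rw [Subgroup.map_normalClosure _ _ (φ : MulAut (FG g)).surjective]
  congr 1
  rw [Set.image_singleton]
  exact congrArg _ φ.2

/-- The automorphism of `PiG g` induced by an automorphism of `FG g` fixing `ζ`. -/
def ind {g : ℕ} (φ : GamB g) : MulAut (PiG g) :=
  QuotientGroup.congr _ _ (φ : MulAut (FG g)) (GamB.map_closure φ)

lemma ind_pr {g : ℕ} (φ : GamB g) (x : FG g) :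
    ind φ (pr g x) = pr g ((φ : MulAut (FG g)) x) := rfl

/-- The homomorphism to `Multiplicative ℤ` given by an additive function. -/
def homZ {g : ℕ} {f : PiG g → ℤ} (hf : IsAddZ f) : PiG g →* Multiplicative ℤ where
  toFun x := Multiplicative.ofAdd (f x)
  map_one' := by
    have h := hf 1 1
    rw [mul_one] at h
    have h0 : f 1 = 0 := by linarith
    rw [h0]
    rfl
  map_mul' x y := by
    rw [hf]
    rfl

lemma form_eq {g : ℕ} {f f' : PiG g → ℤ} (hf : IsAddZ f) (hf' : IsAddZ f') :
    form f f' = omega ((homZ hf).comp (pr g)) ((homZ hf').comp (pr g)) := rfl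

lemma ind_mem {g : ℕ} (φ : GamB g) : ind φ ∈ AutP g := by
  intro f f' hf hf'
  have h : (φ : MulAut (FG g)) (zeta g) = zeta g := φ.2
  exact omega_comp (φ : MulAut (FG g)).toMonoidHom h ((homZ hf).comp (pr g))
    ((homZ hf').comp (pr g))

/-- The homomorphism `GamB g → Gam g` given by gluing a disc to the boundary. -/
def cap (g : ℕ) : GamB g →* Gam g :=
  (QuotientGroup.mk' (Inn g)).comp
    { toFun := fun φ => ⟨ind φ, ind_mem φ⟩
      map_one' := by
        apply Subtype.ext
        ext x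
        obtain ⟨x, rfl⟩ := PresentedGroup.mk_surjective _ x
        rfl
      map_mul' := by
        intro φ ψ
        apply Subtype.ext
        ext x
        obtain ⟨x, rfl⟩ := PresentedGroup.mk_surjective _ x
        rfl }

/-! ## Stabilisation -/

/-- The inclusion of `FG g` in `FG (g + 1)`. -/
def inc (g : ℕ) : FG g →* FG (g + 1) := FreeGroup.map fun p => (p.1.castSucc, p.2)

/-- The extension of an endomorphism of `FG g` to `FG (g + 1)` fixing `a_g` and `b_g`. -/
def ext1 {g : ℕ} (φ : FG g →* FG g) : FG (g + 1) →* FG (g + 1) :=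
  FreeGroup.lift fun p =>
    Fin.lastCases (motive := fun _ => FG (g + 1)) (FreeGroup.of (Fin.last g, p.2))
      (fun i => inc g (φ (FreeGroup.of (i, p.2)))) p.1

lemma ext1_inc {g : ℕ} (φ : FG g →* FG g) (x : FG g) : ext1 φ (inc g x) = inc g (φ x) := by
  have h : (ext1 φ).comp (inc g) = (inc g).comp φ := by
    ext ⟨i, e⟩
    simp [ext1, inc]
  exact congrArg (fun f : FG g →* FG (g + 1) => f x) h

lemma ext1_last {g : ℕ} (φ : FG g →* FG g) (e : Bool) :
    ext1 φ (FreeGroup.of (Fin.last g, e)) = FreeGroup.of (Fin.last g, e) := by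
  simp [ext1]

lemma zeta_succ (g : ℕ) :
    zeta (g + 1) = inc g (zeta g) * cm (ga (Fin.last g)) (gb (Fin.last g)) := by
  rw [zeta, List.ofFn_succ', List.prod_concat]
  congr 1
  rw [zeta, map_list_prod, List.map_ofFn]
  congr 2

lemma hom_ext1 {g : ℕ} {G : Type*} [Group G] {f f' : FG (g + 1) →* G}
    (h : ∀ x, f (inc g x) = f' (inc g x))
    (h' : ∀ e, f (FreeGroup.of (Fin.last g, e)) = f' (FreeGroup.of (Fin.last g, e))) : f = f' := by
  ext ⟨i, e⟩
  induction i using Fin.lastCases with
  | last => exact h' e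
  | cast i => simpa [inc] using h (FreeGroup.of (i, e))

lemma ext1_comp {g : ℕ} (φ ψ : FG g →* FG g) : (ext1 φ).comp (ext1 ψ) = ext1 (φ.comp ψ) := by
  refine hom_ext1 (fun x => ?_) (fun e => ?_)
  · simp [ext1_inc]
  · simp [ext1_last]

lemma ext1_id (g : ℕ) : ext1 (MonoidHom.id (FG g)) = MonoidHom.id (FG (g + 1)) := by
  refine hom_ext1 (fun x => ?_) (fun e => ?_)
  · simp [ext1_inc]
  · simp [ext1_last]

/-- The extension of an automorphism of `FG g` to `FG (g + 1)` fixing `a_g` and `b_g`. -/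
def extA {g : ℕ} (φ : MulAut (FG g)) : MulAut (FG (g + 1)) :=
  MonoidHom.toMulEquiv (ext1 φ.toMonoidHom) (ext1 (φ⁻¹ : MulAut (FG g)).toMonoidHom)
    (by
      rw [ext1_comp, ← ext1_id]
      congr 1
      ext x
      simp)
    (by
      rw [ext1_comp, ← ext1_id]
      congr 1
      ext x
      simp)

lemma extA_inc {g : ℕ} (φ : MulAut (FG g)) (x : FG g) : extA φ (inc g x) = inc g (φ x) :=
  ext1_inc _ _

lemma extA_last {g : ℕ} (φ : MulAut (FG g)) (e : Bool) :
    extA φ (FreeGroup.of (Fin.last g, e)) = FreeGroup.of (Fin.last g, e) :=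
  ext1_last _ _

/-- The stabilisation homomorphism `GamB g → GamB (g + 1)`: the automorphism is extended by
`a_g ↦ a_g`, `b_g ↦ b_g`. -/
def stab (g : ℕ) : GamB g →* GamB (g + 1) where
  toFun φ := ⟨extA (φ : MulAut (FG g)), by
    change extA (φ : MulAut (FG g)) (zeta (g + 1)) = zeta (g + 1)
    rw [zeta_succ, map_mul, extA_inc, show (φ : MulAut (FG g)) (zeta g) = zeta g from φ.2]
    congr 1
    simp only [cm, ga, gb, map_mul, map_inv, extA_last]⟩
  map_one' := by
    apply Subtype.ext
    apply MulEquiv.toMonoidHom_injective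
    exact ext1_id g
  map_mul' φ ψ := by
    apply Subtype.ext
    apply MulEquiv.toMonoidHom_injective
    exact (ext1_comp (φ : MulAut (FG g)).toMonoidHom (ψ : MulAut (FG g)).toMonoidHom).symm

theorem isCap (g : ℕ) : IsCap (cap g) := fun φ => ⟨⟨ind φ, ind_mem φ⟩, rfl, fun _ => rfl⟩

theorem isStab (g : ℕ) : IsStab fun φ : GamB g => cap (g + 1) (stab g φ) := by
  intro φ
  refine ⟨⟨ind (stab g φ), ind_mem (stab g φ)⟩, rfl, fun x => ?_, ?_, ?_⟩
  · exact congrArg (pr (g + 1)) (extA_inc (φ : MulAut (FG g)) x)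
  · exact congrArg (pr (g + 1)) (extA_last (φ : MulAut (FG g)) false)
  · exact congrArg (pr (g + 1)) (extA_last (φ : MulAut (FG g)) true)

end MP590
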