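import Pool.Agent.Lib.MP_00590d_ag.Proj

set_option autoImplicit false

/-!
# MP_00590d_ag : REGD
-/

namespace MP590

open MPb00168 TCMM

theorem specRegD : SpecRegD := by
  classical
  intro n Y ι _ α d P Q a hα hP hQ
  refine zc_of_forall (fun y hy => hy.1) fun y₀ hy₀ hy₀A => ?_
  -- local formulas near y₀
  choose e F hF1 hF2 hF3 using fun i => hα i ⟨y₀, hy₀⟩
  have hj : ∀ i, ∃ j, MvPolynomial.eval y₀.rep (F i j) ≠ 0 := by
    intro i
    by_contra hall
    push Not at hall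
    exact hF2 i (funext hall)
  choose j hj using hj
  -- the composed polynomials
  set PF : ι → Pol n := fun i => MvPolynomial.aeval (F i) (P i) with hPF
  set QF : ι → Pol n := fun i => MvPolynomial.aeval (F i) (Q i) with hQF
  have hPFh : ∀ i, (PF i).IsHomogeneous (e i * d) := fun i => (hP i).aeval (F i) (hF1 i)
  have hQFh : ∀ i, (QF i).IsHomogeneous (e i * d) := fun i => (hQ i).aeval (F i) (hF1 i)
  have ev1 : ∀ (i : ι) (R : Pol n) (v : Fin (n + 1) → ℂ),
      MvPolynomial.eval v (MvPolynomial.aeval (F i) R) =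
        MvPolynomial.eval (fun k => MvPolynomial.eval v (F i k)) R := by
    intro i R v
    rw [← MvPolynomial.bind₁, MvPolynomial.eval, MvPolynomial.eval₂Hom_bind₁]
    rfl
  -- the values at a point where all the formulas hold
  have hval : ∀ (z : PS n) (hz : z ∈ Y), (∀ i, MvPolynomial.eval z.rep (F i (j i)) ≠ 0) →
      ∀ i, (MvPolynomial.eval (α i ⟨z, hz⟩ : PS n).rep (Q i) = 0 ↔
          MvPolynomial.eval z.rep (QF i) = 0) ∧
        MvPolynomial.eval (α i ⟨z, hz⟩ : PS n).rep (P i) /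
          MvPolynomial.eval (α i ⟨z, hz⟩ : PS n).rep (Q i) =
          MvPolynomial.eval z.rep (PF i) / MvPolynomial.eval z.rep (QF i) := by
    intro z hz h i
    have hne : (fun k => MvPolynomial.eval z.rep (F i k)) ≠ 0 := fun h0 => h i (congrFun h0 (j i))
    have hα' : (α i ⟨z, hz⟩ : PS n) = Projectivization.mk ℂ
        (fun k => MvPolynomial.eval z.rep (F i k)) hne := hF3 i ⟨z, hz⟩ hne
    rw [hα', eval_rep_mk_eq_zero (hQ i), eval_rep_mk_div (hP i) (hQ i), hPF, hQF]
    simp only [ev1]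
    exact ⟨trivial, trivial⟩
  have hsum : ∀ (z : PS n), (∀ i, MvPolynomial.eval z.rep (QF i) ≠ 0) →
      MvPolynomial.eval z.rep (∑ i, MvPolynomial.C (a i) * (PF i * ∏ k ∈ Finset.univ.erase i, QF k)) =
        (∏ k, MvPolynomial.eval z.rep (QF k)) *
          ∑ i, a i * (MvPolynomial.eval z.rep (PF i) / MvPolynomial.eval z.rep (QF i)) := by
    intro z hz
    rw [map_sum, Finset.mul_sum]
    refine Finset.sum_congr rfl fun i _ => ?_
    rw [map_mul, map_mul, map_prod, MvPolynomial.eval_C,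
      ← Finset.mul_prod_erase Finset.univ _ (Finset.mem_univ i)]
    field_simp [hz i]
  have hdeg : ∀ i, (PF i * ∏ k ∈ Finset.univ.erase i, QF k).IsHomogeneous (∑ k, e k * d) := by
    intro i
    rw [← Finset.add_sum_erase Finset.univ _ (Finset.mem_univ i)]
    exact (hPFh i).mul (MvPolynomial.IsHomogeneous.prod _ _ _ fun k _ => hQFh k)
  refine ⟨(∏ i, F i (j i)) * (∏ i, QF i) *
      ∑ i, MvPolynomial.C (a i) * (PF i * ∏ k ∈ Finset.univ.erase i, QF k),
    (∑ i, e i) + (∑ i, e i * d) + ∑ i, e i * d, ?_, ?_, ?_⟩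
  · refine (MvPolynomial.IsHomogeneous.mul ?_ ?_).mul ?_
    · exact MvPolynomial.IsHomogeneous.prod _ _ _ fun i _ => hF1 i (j i)
    · exact MvPolynomial.IsHomogeneous.prod _ _ _ fun i _ => hQFh i
    · exact MvPolynomial.IsHomogeneous.sum _ _ _ fun i _ => (hdeg i).C_mul _
  · rintro z ⟨hz, hzA⟩
    rw [map_mul, map_mul, map_prod, map_prod]
    by_cases h1 : ∃ i, MvPolynomial.eval z.rep (F i (j i)) = 0
    · obtain ⟨i, hi⟩ := h1
      rw [Finset.prod_eq_zero (Finset.mem_univ i) hi, zero_mul, zero_mul]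
    push Not at h1
    by_cases h2 : ∃ i, MvPolynomial.eval z.rep (QF i) = 0
    · obtain ⟨i, hi⟩ := h2
      rw [Finset.prod_eq_zero (s := Finset.univ)
        (f := fun i => MvPolynomial.eval z.rep (QF i)) (Finset.mem_univ i) hi, mul_zero, zero_mul]
    push Not at h2
    rcases hzA with ⟨i, hi⟩ | hz0
    · exact absurd (((hval z hz h1 i).1).1 hi) (h2 i)
    · rw [hsum z h2]
      have : ∑ i, a i * (MvPolynomial.eval z.rep (PF i) / MvPolynomial.eval z.rep (QF i)) = 0 := by
        rw [← hz0]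
        exact Finset.sum_congr rfl fun i _ => by rw [(hval z hz h1 i).2]
      rw [this, mul_zero, mul_zero]
  · have hy₀A' : ¬ ((∃ i, MvPolynomial.eval (α i ⟨y₀, hy₀⟩ : PS n).rep (Q i) = 0) ∨
      ∑ i, a i * (MvPolynomial.eval (α i ⟨y₀, hy₀⟩ : PS n).rep (P i) /
        MvPolynomial.eval (α i ⟨y₀, hy₀⟩ : PS n).rep (Q i)) = 0) := fun h => hy₀A ⟨hy₀, h⟩
    rw [not_or] at hy₀A'
    obtain ⟨hq, hs⟩ := hy₀A'
    push Not at hq
    have h2 : ∀ i, MvPolynomial.eval y₀.rep (QF i) ≠ 0 := fun i h =>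
      hq i (((hval y₀ hy₀ hj i).1).2 h)
    rw [map_mul, map_mul, map_prod, map_prod, hsum y₀ h2]
    refine mul_ne_zero (mul_ne_zero (Finset.prod_ne_zero_iff.2 fun i _ => hj i)
      (Finset.prod_ne_zero_iff.2 fun i _ => h2 i))
      (mul_ne_zero (Finset.prod_ne_zero_iff.2 fun i _ => h2 i) ?_)
    intro h0
    refine hs ?_
    rw [← h0]
    exact Finset.sum_congr rfl fun i _ => by rw [(hval y₀ hy₀ hj i).2]

end MP590
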