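import Pool.Agent.Lib.MP_00590d_ag.Act
import Pool.Agent.Lib.MP_00590d_ag.Regd

set_option autoImplicit false

/-!
# MP_00590d_ag : CHOICE
-/

namespace MP590

open MPb00168 TCMM

/-! ## The cube root of unity -/

lemma om_prim : IsPrimitiveRoot om 3 := by
  have h := Complex.isPrimitiveRoot_exp 3 (by norm_num)
  simpa [om] using h

lemma om_cube : om ^ 3 = 1 := om_prim.pow_eq_one

lemma om_ne_zero : om ≠ 0 := om_prim.ne_zero (by norm_num)

lemma om_sum : 1 + om + om ^ 2 = 0 := by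
  have h1 : om - 1 ≠ 0 := sub_ne_zero.2 (om_prim.ne_one (by norm_num))
  have h2 : (om - 1) * (1 + om + om ^ 2) = 0 := by
    have := om_cube
    linear_combination this
  exact (mul_eq_zero.1 h2).resolve_left h1

lemma om_im : om.im ≠ 0 := by
  have e : om = Complex.exp (((2 * Real.pi / 3 : ℝ) : ℂ) * Complex.I) := by
    rw [om]
    congr 1
    push_cast
    ring
  rw [e, Complex.exp_ofReal_mul_I_im]
  refine (Real.sin_pos_of_pos_of_lt_pi ?_ ?_).ne'
  · have := Real.pi_pos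
    positivity
  · have := Real.pi_pos
    linarith

lemma om_indep (x y z : ℝ) (h : (x : ℂ) + om * y + om ^ 2 * z = 0) : x = y ∧ y = z := by
  have h1 : ((x - z : ℝ) : ℂ) + om * ((y - z : ℝ) : ℂ) = 0 := by
    have h2 := om_sum
    push_cast
    linear_combination h - z * h2
  have h2 := congrArg Complex.im h1
  simp only [Complex.add_im, Complex.ofReal_im, Complex.mul_im, Complex.ofReal_re, mul_zero,
    zero_add, Complex.zero_im] at h2
  have h3 : y - z = 0 := by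
    rcases mul_eq_zero.1 h2 with h | h
    · exact absurd h om_im
    · exact h
  rw [h3] at h1
  simp only [Complex.ofReal_zero, mul_zero, add_zero, Complex.ofReal_eq_zero] at h1
  exact ⟨by linarith, by linarith⟩

/-! ## The construction -/

section

variable {g : ℕ} (L : Tors g) (Q : Pol L.n) (F : SS g → Pol L.n)

/-- The basic function. -/
noncomputable def tm (s : SS g) (γ : Gam g) (y : L.Y) : ℂ :=
  MvPolynomial.eval (L.act γ y : PS L.n).rep (F (aS g γ s)) /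
    MvPolynomial.eval (L.act γ y : PS L.n).rep Q

/-- Poles. -/
def pole (y : L.Y) : Prop := ∃ γ : Gam g, MvPolynomial.eval (L.act γ y : PS L.n).rep Q = 0

noncomputable instance : Fintype (Gam g ⧸ Lev g) := Fintype.ofFinite _

lemma act_out (γ : Gam g) (y : L.Y) :
    L.act (γ : Gam g ⧸ Lev g).out y = L.act γ y := by
  obtain ⟨h, hh⟩ := QuotientGroup.mk_out_eq_mul (Lev g) γ
  rw [hh, act_mul, act_lev L _ h.2]

lemma aS_out (γ : Gam g) : aS g (γ : Gam g ⧸ Lev g).out = aS g γ := by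
  obtain ⟨h, hh⟩ := QuotientGroup.mk_out_eq_mul (Lev g) γ
  rw [hh, map_mul, (mem_lev_iff g _).1 h.2, mul_one]

lemma tm_out (s : SS g) (γ : Gam g) (y : L.Y) :
    tm L Q F s (γ : Gam g ⧸ Lev g).out y = tm L Q F s γ y := by
  rw [tm, tm, act_out, aS_out]

lemma tm_act (s : SS g) (γ δ : Gam g) (y : L.Y) :
    tm L Q F (aS g δ s) γ (L.act δ y) = tm L Q F s (γ * δ) y := by
  rw [tm, tm, act_mul, map_mul, Equiv.Perm.mul_apply]

lemma pole_act (δ : Gam g) (y : L.Y) : pole L Q (L.act δ y) ↔ pole L Q y := by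
  constructor
  · rintro ⟨γ, h⟩
    exact ⟨γ * δ, by rw [act_mul]; exact h⟩
  · rintro ⟨γ, h⟩
    exact ⟨γ * δ⁻¹, by rw [act_mul, ← act_mul L δ⁻¹ δ, inv_mul_cancel, act_one]; exact h⟩

/-- The sum over the group. -/
noncomputable def hs (s : SS g) (y : L.Y) : ℂ := ∑ x : Gam g ⧸ Lev g, tm L Q F s x.out y

lemma hs_act (δ : Gam g) (s : SS g) (y : L.Y) :
    hs L Q F (aS g δ s) (L.act δ y) = hs L Q F s y := by
  rw [hs, hs, ← Equiv.sum_comp (Equiv.mulRight (δ : Gam g ⧸ Lev g))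
    (fun x : Gam g ⧸ Lev g => tm L Q F s x.out y)]
  refine Finset.sum_congr rfl fun x _ => ?_
  rw [tm_act, ← tm_out]
  congr 2
  rw [Equiv.coe_mulRight, QuotientGroup.mk_mul, QuotientGroup.out_eq']

/-- The function `Θ`. -/
noncomputable def th (t : NC (SS g)) (y : L.Y) : ℂ :=
  hs L Q F t.1.1 y + om * hs L Q F t.1.2.1 y + om ^ 2 * hs L Q F t.1.2.2 y

/-- The set `D`. -/
def Dt (t : NC (SS g)) : Set (PS L.n) :=
  {y | ∃ h : y ∈ L.Y, pole L Q ⟨y, h⟩ ∨ th L Q F t ⟨y, h⟩ = 0}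

lemma mem_Dt (t : NC (SS g)) (y : L.Y) :
    (y : PS L.n) ∈ Dt L Q F t ↔ pole L Q y ∨ th L Q F t y = 0 :=
  ⟨fun ⟨_, h⟩ => h, fun h => ⟨y.2, h⟩⟩

lemma th_rot (t : NC (SS g)) (y : L.Y) : th L Q F (rot t) y = om⁻¹ * th L Q F t y := by
  rw [eq_inv_mul_iff_mul_eq₀ om_ne_zero, th, th]
  have h := om_cube
  simp only [rot]
  linear_combination hs L Q F t.1.1 y * h

lemma th_act (γ : Gam g) (t : NC (SS g)) (y : L.Y) :
    th L Q F (aNC (aS g) γ t) (L.act γ y) = th L Q F t y := by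
  rw [th, th]
  change hs L Q F (aS g γ t.1.1) (L.act γ y) + om * hs L Q F (aS g γ t.1.2.1) (L.act γ y) +
    om ^ 2 * hs L Q F (aS g γ t.1.2.2) (L.act γ y) = _
  rw [hs_act, hs_act, hs_act]

/-- The components of a triple. -/
def cp (t : NC (SS g)) (k : Fin 3) : SS g := ![t.1.1, t.1.2.1, t.1.2.2] k

lemma th_eq_sum (t : NC (SS g)) (y : L.Y) :
    ∑ i : (Gam g ⧸ Lev g) × Fin 3, om ^ (i.2 : ℕ) *
      (MvPolynomial.eval (L.act i.1.out y : PS L.n).rep (F (aS g i.1.out (cp t i.2))) /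
        MvPolynomial.eval (L.act i.1.out y : PS L.n).rep Q) = th L Q F t y := by
  rw [Fintype.sum_prod_type_right, Fin.sum_univ_three, th]
  simp only [← Finset.mul_sum]
  simp [hs, tm, cp]

lemma Dt_zc {d : ℕ} (hQ : Q.IsHomogeneous d) (hF : ∀ s, (F s).IsHomogeneous d)
    (t : NC (SS g)) : ZC L.Y (Dt L Q F t) := by
  have h := specRegD L.n L.Y ((Gam g ⧸ Lev g) × Fin 3) (fun i => L.act i.1.out) d
    (fun i => F (aS g i.1.out (cp t i.2))) (fun _ => Q) (fun i => om ^ (i.2 : ℕ))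
    (fun i => L.act_reg _) (fun i => hF _) (fun _ => hQ)
  have e : {y | ∃ h : y ∈ L.Y,
      (∃ i : (Gam g ⧸ Lev g) × Fin 3, MvPolynomial.eval (L.act i.1.out ⟨y, h⟩ : PS L.n).rep Q = 0) ∨
      ∑ i : (Gam g ⧸ Lev g) × Fin 3, om ^ (i.2 : ℕ) *
        (MvPolynomial.eval (L.act i.1.out ⟨y, h⟩ : PS L.n).rep (F (aS g i.1.out (cp t i.2))) /
          MvPolynomial.eval (L.act i.1.out ⟨y, h⟩ : PS L.n).rep Q) = 0} = Dt L Q F t := by
    ext y
    refine exists_congr fun hy => or_congr ?_ ?_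
    · constructor
      · rintro ⟨i, hi⟩
        exact ⟨_, hi⟩
      · rintro ⟨γ, hγ⟩
        refine ⟨((γ : Gam g ⧸ Lev g), 0), ?_⟩
        change MvPolynomial.eval (L.act (γ : Gam g ⧸ Lev g).out ⟨y, hy⟩ : PS L.n).rep Q = 0
        rwa [act_out]
    · rw [th_eq_sum]
  rw [e] at h
  exact h

lemma th_cont {d : ℕ} (hQ : Q.IsHomogeneous d) (hF : ∀ s, (F s).IsHomogeneous d)
    (t : NC (SS g)) : ContinuousOn (th L Q F t) {y : L.Y | (y : PS L.n) ∉ Dt L Q F t} := by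
  have h1 : ∀ (s : SS g) (γ : Gam g),
      ContinuousOn (tm L Q F s γ) {y : L.Y | (y : PS L.n) ∉ Dt L Q F t} := by
    intro s γ
    have h2 := (specZCont L.n).2 d (F (aS g γ s)) Q (hF _) hQ
    refine h2.comp (continuous_subtype_val.comp (act_continuous L γ)).continuousOn ?_
    intro y hy h0
    exact hy ((mem_Dt L Q F t y).2 (Or.inl ⟨γ, h0⟩))
  have h2 : ∀ s : SS g, ContinuousOn (hs L Q F s) {y : L.Y | (y : PS L.n) ∉ Dt L Q F t} :=
    fun s => continuousOn_finsetSum _ fun x _ => h1 s x.out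
  exact ((h2 _).add (continuousOn_const.mul (h2 _))).add (continuousOn_const.mul (h2 _))

lemma good_Dt {d : ℕ} (hQ : Q.IsHomogeneous d) (hF : ∀ s, (F s).IsHomogeneous d) :
    Good L (Dt L Q F) (th L Q F) where
  zc := Dt_zc L Q F hQ hF
  closed t := (specZCont L.n).1 _ _ (Dt_zc L Q F hQ hF t)
  drot t := by
    ext y
    refine exists_congr fun hy => or_congr Iff.rfl ?_
    rw [th_rot, mul_eq_zero, or_iff_right (inv_ne_zero om_ne_zero)]
  dinv γ t y := by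
    rw [mem_Dt, mem_Dt, pole_act, th_act]
  ne t y hy h0 := hy ((mem_Dt L Q F t y).2 (Or.inr h0))
  cont := th_cont L Q F hQ hF
  trot := th_rot L Q F
  tinv := th_act L Q F

end

theorem specChoice : SpecChoice := by
  classical
  intro g L A hA hAY
  obtain ⟨v, hv1, hv2⟩ := (specAct.2.2.2 g L).2.2.2
  set B : Set (PS L.n) := {z | ∃ (γ : Gam g) (y : PS L.n) (hy : y ∈ A),
    z = L.act γ ⟨y, hAY hy⟩} with hB
  have hBfin : B.Finite := by
    have : Finite A := hA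
    refine (Set.finite_range fun p : (Gam g ⧸ Lev g) × A =>
      (L.act p.1.out ⟨p.2.1, hAY p.2.2⟩ : PS L.n)).subset ?_
    rintro z ⟨γ, y, hy, rfl⟩
    refine ⟨((γ : Gam g ⧸ Lev g), ⟨y, hy⟩), ?_⟩
    change (L.act (γ : Gam g ⧸ Lev g).out ⟨y, hAY hy⟩ : PS L.n) = _
    rw [act_out]
  obtain ⟨w, hw⟩ := Countable.exists_injective_nat (SS g)
  obtain ⟨d, Q, hQ, hQB, hint⟩ := specInterp L.n B hBfin
  choose F hF hFB using fun s : SS g =>
    hint (fun z => if h : z ∈ L.Y then ((w (v ⟨z, h⟩ s) : ℕ) : ℂ) else 0)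
  refine ⟨Dt L Q F, th L Q F, good_Dt L Q F hQ hF, fun t y hy hD => ?_⟩
  obtain ⟨hyY, hpole | hth⟩ := hD
  · obtain ⟨γ, h0⟩ := hpole
    exact hQB _ ⟨γ, y, hy, rfl⟩ h0
  · have h1 : ∀ (s : SS g) (γ : Gam g), tm L Q F s γ ⟨y, hyY⟩ = ((w (v ⟨y, hyY⟩ s) : ℕ) : ℂ) := by
      intro s γ
      have h2 := hFB (aS g γ s) (L.act γ ⟨y, hyY⟩ : PS L.n) ⟨γ, y, hy, rfl⟩
      rw [dif_pos (L.act γ ⟨y, hyY⟩).2] at h2
      rw [tm, h2]
      congr 2
      exact hv2 γ ⟨y, hyY⟩ s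
    have h2 : ∀ s : SS g, hs L Q F s ⟨y, hyY⟩ =
        (Fintype.card (Gam g ⧸ Lev g) : ℂ) * ((w (v ⟨y, hyY⟩ s) : ℕ) : ℂ) := by
      intro s
      rw [hs, Finset.sum_congr rfl fun x _ => h1 s x.out]
      simp
    have hcard : (Fintype.card (Gam g ⧸ Lev g) : ℂ) ≠ 0 :=
      Nat.cast_ne_zero.2 Fintype.card_ne_zero
    rw [th, h2, h2, h2] at hth
    have h3 : ((w (v ⟨y, hyY⟩ t.1.1) : ℝ) : ℂ) + om * ((w (v ⟨y, hyY⟩ t.1.2.1) : ℝ) : ℂ) +
        om ^ 2 * ((w (v ⟨y, hyY⟩ t.1.2.2) : ℝ) : ℂ) = 0 := by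
      refine (mul_eq_zero.1 ?_).resolve_left hcard
      push_cast
      linear_combination hth
    obtain ⟨h4, h5⟩ := om_indep _ _ _ h3
    refine t.2 ⟨hv1 ⟨y, hyY⟩ (hw (Nat.cast_injective (R := ℝ) h4)),
      hv1 ⟨y, hyY⟩ (hw (Nat.cast_injective (R := ℝ) h5))⟩

end MP590
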