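import Pool.Agent.Lib.MP_00590d_ag.Spec

set_option autoImplicit false

/-! # MP_00590d_ag : module CLS -/

namespace MP590

namespace Cls

open Finset

variable {Γ O : Type} [Group Γ] {a : Γ →* Equiv.Perm O} {r : O → O} {f : O → ZMod 3}

lemma rot_bij (hr : IsRot a r) : Function.Bijective r := by
  constructor
  · intro o p h
    rw [← hr.three o, ← hr.three p, h]
  · intro o
    exact ⟨r (r o), hr.three o⟩

lemma sum_step [Fintype O] (hr : IsRot a r) (hf : Phase r f) (F : O → ℤ)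
    (hF : ∀ o, F (r o) = F o) (c : ZMod 3) :
    ∑ o with f o = c + 1, F o = ∑ o with f o = c, F o := by
  symm
  refine Finset.sum_bij (fun o _ => r o) ?_ ?_ ?_ ?_
  · intro o ho
    rw [Finset.mem_filter] at ho ⊢
    exact ⟨Finset.mem_univ _, by rw [hf o, ho.2]⟩
  · intro o _ p _ h
    exact (rot_bij hr).1 h
  · intro o ho
    obtain ⟨p, rfl⟩ := (rot_bij hr).2 o
    rw [Finset.mem_filter, hf p] at ho
    exact ⟨p, by rw [Finset.mem_filter]; exact ⟨Finset.mem_univ _, add_right_cancel ho.2⟩, rfl⟩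
  · intro o _
    exact (hF o).symm

lemma sum_phase [Fintype O] (hr : IsRot a r) (hf : Phase r f) (F : O → ℤ)
    (hF : ∀ o, F (r o) = F o) : 3 * ∑ o with f o = 0, F o = ∑ o, F o := by
  have h1 : ∑ o with f o = 1, F o = ∑ o with f o = 0, F o := by
    simpa using sum_step hr hf F hF 0
  have h2 : ∑ o with f o = 2, F o = ∑ o with f o = 1, F o := by
    have := sum_step hr hf F hF 1
    rwa [one_add_one_eq_two] at this
  have h3 : ∑ o, F o = ∑ c : ZMod 3, ∑ o with f o = c, F o :=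
    (Finset.sum_fiberwise Finset.univ f F).symm
  have h4 : ∀ G : ZMod 3 → ℤ, ∑ c, G c = G 0 + G 1 + G 2 := fun G => Fin.sum_univ_three G
  rw [h3, h4, h2, h1]
  ring

lemma dd_rot (hr : IsRot a r) (hf : Phase r f) (o : O) (g h : Γ) :
    dd a f (r o) g h = dd a f o g h := by
  simp only [dd]
  rw [← hr.eqv, ← hr.eqv, hf, hf]
  ring

lemma dd_inv (o : O) (γ g h : Γ) : dd a f (a γ o) (γ * g) (γ * h) = dd a f o g h := by
  simp [dd, mul_inv_rev, map_mul, Equiv.Perm.mul_apply, map_inv]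

lemma dd_add (o : O) (g₀ g₁ g₂ : Γ) : dd a f o g₀ g₁ + dd a f o g₁ g₂ = dd a f o g₀ g₂ := by
  simp only [dd]
  ring

lemma bb_three (o : O) (g₀ g₁ g₂ : Γ) : 3 * bb a f o g₀ g₁ g₂ =
    ((dd a f o g₀ g₁).val : ℤ) + ((dd a f o g₁ g₂).val : ℤ) - ((dd a f o g₀ g₂).val : ℤ) := by
  refine Int.mul_ediv_cancel' ?_
  have h : ((3 : ℕ) : ℤ) ∣ ((dd a f o g₀ g₁).val : ℤ) + ((dd a f o g₁ g₂).val : ℤ) -
      ((dd a f o g₀ g₂).val : ℤ) := by
    rw [← ZMod.intCast_zmod_eq_zero_iff_dvd]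
    push_cast
    rw [ZMod.natCast_zmod_val, ZMod.natCast_zmod_val, ZMod.natCast_zmod_val, dd_add, sub_self]
  exact_mod_cast h

lemma bb_rot (hr : IsRot a r) (hf : Phase r f) (o : O) (g₀ g₁ g₂ : Γ) :
    bb a f (r o) g₀ g₁ g₂ = bb a f o g₀ g₁ g₂ := by
  simp only [bb, dd_rot hr hf]

lemma bb_inv (o : O) (γ g₀ g₁ g₂ : Γ) :
    bb a f (a γ o) (γ * g₀) (γ * g₁) (γ * g₂) = bb a f o g₀ g₁ g₂ := by
  simp only [bb, dd_inv]

lemma bb_coc (o : O) (g₀ g₁ g₂ g₃ : Γ) :
    bb a f o g₁ g₂ g₃ - bb a f o g₀ g₂ g₃ + bb a f o g₀ g₁ g₃ - bb a f o g₀ g₁ g₂ = 0 := by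
  have h1 := bb_three (a := a) (f := f) o g₁ g₂ g₃
  have h2 := bb_three (a := a) (f := f) o g₀ g₂ g₃
  have h3 := bb_three (a := a) (f := f) o g₀ g₁ g₃
  have h4 := bb_three (a := a) (f := f) o g₀ g₁ g₂
  linarith

lemma dlt4 {G : Type} (e : (Fin (3 + 1) → G) → ℤ) (x : Fin (3 + 2) → G) :
    dlt e x = e ![x 1, x 2, x 3, x 4] - e ![x 0, x 2, x 3, x 4] + e ![x 0, x 1, x 3, x 4] -
      e ![x 0, x 1, x 2, x 4] + e ![x 0, x 1, x 2, x 3] := by
  have h0 : (fun j => x ((0 : Fin 5).succAbove j)) = ![x 1, x 2, x 3, x 4] := by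
    funext j; fin_cases j <;> rfl
  have h1 : (fun j => x ((1 : Fin 5).succAbove j)) = ![x 0, x 2, x 3, x 4] := by
    funext j; fin_cases j <;> rfl
  have h2 : (fun j => x ((2 : Fin 5).succAbove j)) = ![x 0, x 1, x 3, x 4] := by
    funext j; fin_cases j <;> rfl
  have h3 : (fun j => x ((3 : Fin 5).succAbove j)) = ![x 0, x 1, x 2, x 4] := by
    funext j; fin_cases j <;> rfl
  have h4 : (fun j => x ((4 : Fin 5).succAbove j)) = ![x 0, x 1, x 2, x 3] := by
    funext j; fin_cases j <;> rfl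
  have h5 : dlt e x = (-1) ^ 0 * e (fun j => x ((0 : Fin 5).succAbove j)) +
      (-1) ^ 1 * e (fun j => x ((1 : Fin 5).succAbove j)) +
      (-1) ^ 2 * e (fun j => x ((2 : Fin 5).succAbove j)) +
      (-1) ^ 3 * e (fun j => x ((3 : Fin 5).succAbove j)) +
      (-1) ^ 4 * e (fun j => x ((4 : Fin 5).succAbove j)) := by
    rw [dlt, Fin.sum_univ_five]
    rfl
  rw [h5, h0, h1, h2, h3, h4]
  ring

lemma dlt5 {G : Type} (e : (Fin (4 + 1) → G) → ℤ) (x : Fin (4 + 2) → G) :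
    dlt e x = e ![x 1, x 2, x 3, x 4, x 5] - e ![x 0, x 2, x 3, x 4, x 5] +
      e ![x 0, x 1, x 3, x 4, x 5] - e ![x 0, x 1, x 2, x 4, x 5] +
      e ![x 0, x 1, x 2, x 3, x 5] - e ![x 0, x 1, x 2, x 3, x 4] := by
  have h0 : (fun j => x ((0 : Fin 6).succAbove j)) = ![x 1, x 2, x 3, x 4, x 5] := by
    funext j; fin_cases j <;> rfl
  have h1 : (fun j => x ((1 : Fin 6).succAbove j)) = ![x 0, x 2, x 3, x 4, x 5] := by
    funext j; fin_cases j <;> rfl
  have h2 : (fun j => x ((2 : Fin 6).succAbove j)) = ![x 0, x 1, x 3, x 4, x 5] := by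
    funext j; fin_cases j <;> rfl
  have h3 : (fun j => x ((3 : Fin 6).succAbove j)) = ![x 0, x 1, x 2, x 4, x 5] := by
    funext j; fin_cases j <;> rfl
  have h4 : (fun j => x ((4 : Fin 6).succAbove j)) = ![x 0, x 1, x 2, x 3, x 5] := by
    funext j; fin_cases j <;> rfl
  have h6 : (fun j => x ((5 : Fin 6).succAbove j)) = ![x 0, x 1, x 2, x 3, x 4] := by
    funext j; fin_cases j <;> rfl
  have h5 : dlt e x = (-1) ^ 0 * e (fun j => x ((0 : Fin 6).succAbove j)) +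
      (-1) ^ 1 * e (fun j => x ((1 : Fin 6).succAbove j)) +
      (-1) ^ 2 * e (fun j => x ((2 : Fin 6).succAbove j)) +
      (-1) ^ 3 * e (fun j => x ((3 : Fin 6).succAbove j)) +
      (-1) ^ 4 * e (fun j => x ((4 : Fin 6).succAbove j)) +
      (-1) ^ 5 * e (fun j => x ((5 : Fin 6).succAbove j)) := by
    rw [dlt, Fin.sum_univ_six]
    rfl
  rw [h5, h0, h1, h2, h3, h4, h6]
  ring

/-- Sums over phase zero of invariant functions are invariant. -/
lemma sum_inv [Fintype O] (hr : IsRot a r) (hf : Phase r f) (F F' : O → ℤ)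
    (hF : ∀ o, F (r o) = F o) (γ : Γ) (h : ∀ o, F' (a γ o) = F o) :
    ∑ o with f o = 0, F' o = ∑ o with f o = 0, F o := by
  have hF' : ∀ o, F' (r o) = F' o := by
    intro o
    obtain ⟨p, rfl⟩ := (a γ).surjective o
    rw [hr.eqv, h, h, hF]
  have h1 := sum_phase hr hf F hF
  have h2 := sum_phase hr hf F' hF'
  have h3 : ∑ o, F' o = ∑ o, F o := by
    rw [← Equiv.sum_comp (a γ) F']
    exact Finset.sum_congr rfl fun o _ => h o
  have h4 : 3 * ∑ o with f o = 0, F' o = 3 * ∑ o with f o = 0, F o := by rw [h1, h2, h3]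
  exact mul_left_cancel₀ three_ne_zero h4

end Cls

open Cls in
theorem specCls : SpecCls := by
  intro Γ O _ _ a r f hr hf
  refine ⟨⟨?_, ?_⟩, ?_⟩
  · intro γ x
    refine sum_inv hr hf _ _ (fun o => ?_) γ (fun o => ?_)
    · rw [bb_rot hr hf, bb_rot hr hf]
    · rw [bb_inv, bb_inv]
  · intro x
    have key : ∀ o, bb a f o (x 1) (x 2) (x 3) * bb a f o (x 3) (x 4) (x 5)
        - bb a f o (x 0) (x 2) (x 3) * bb a f o (x 3) (x 4) (x 5)
        + bb a f o (x 0) (x 1) (x 3) * bb a f o (x 3) (x 4) (x 5)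
        - bb a f o (x 0) (x 1) (x 2) * bb a f o (x 2) (x 4) (x 5)
        + bb a f o (x 0) (x 1) (x 2) * bb a f o (x 2) (x 3) (x 5)
        - bb a f o (x 0) (x 1) (x 2) * bb a f o (x 2) (x 3) (x 4) = 0 := by
      intro o
      have h1 := bb_coc (a := a) (f := f) o (x 0) (x 1) (x 2) (x 3)
      have h2 := bb_coc (a := a) (f := f) o (x 2) (x 3) (x 4) (x 5)
      linear_combination bb a f o (x 3) (x 4) (x 5) * h1 + bb a f o (x 0) (x 1) (x 2) * h2
    rw [dlt5]
    rw [← Finset.sum_eq_zero (s := Finset.univ.filter fun o => f o = 0) fun o _ => key o]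
    simp only [Finset.sum_add_distrib, Finset.sum_sub_distrib]
    rfl
  · refine ⟨fun y => ∑ o with f o = 0, ((dd a f o (y 0) (y 1)).val : ℤ) *
      bb a f o (y 1) (y 2) (y 3), ?_, ?_⟩
    · intro γ x
      refine sum_inv hr hf _ _ (fun o => ?_) γ (fun o => ?_)
      · rw [dd_rot hr hf, bb_rot hr hf]
      · rw [dd_inv, bb_inv]
    · funext x
      have key : ∀ o, ((dd a f o (x 1) (x 2)).val : ℤ) * bb a f o (x 2) (x 3) (x 4)
          - ((dd a f o (x 0) (x 2)).val : ℤ) * bb a f o (x 2) (x 3) (x 4)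
          + ((dd a f o (x 0) (x 1)).val : ℤ) * bb a f o (x 1) (x 3) (x 4)
          - ((dd a f o (x 0) (x 1)).val : ℤ) * bb a f o (x 1) (x 2) (x 4)
          + ((dd a f o (x 0) (x 1)).val : ℤ) * bb a f o (x 1) (x 2) (x 3) =
          3 * (bb a f o (x 0) (x 1) (x 2) * bb a f o (x 2) (x 3) (x 4)) := by
        intro o
        have h1 := bb_coc (a := a) (f := f) o (x 1) (x 2) (x 3) (x 4)
        have h2 := bb_three (a := a) (f := f) o (x 0) (x 1) (x 2)
        linear_combination (-((dd a f o (x 0) (x 1)).val : ℤ)) * h1 -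
          bb a f o (x 2) (x 3) (x 4) * h2
      rw [dlt4, xx, Finset.mul_sum, ← Finset.sum_congr rfl fun o _ => key o]
      simp only [Finset.sum_add_distrib, Finset.sum_sub_distrib]
      rfl

end MP590
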