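import Pool.Agent.Lib.MP_00590d_ag.Wind

set_option autoImplicit false

/-! # MP_00590d_ag : module CUP (the cochain algebra) -/

namespace MP590

open MPb00168 TCMM

namespace Cup

open Wind

section Sub

variable {X : Type} [TopologicalSpace X]

/-- The restriction of a singular simplex to the simplex with vertices `α 0, α 1, …`. -/
noncomputable def sub {k n : ℕ} (α : Fin (k + 1) → Fin (n + 1)) (σ : Sing X n) : Sing X k :=
  σ.comp ⟨stdSimplex.map α, stdSimplex.continuous_map _⟩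

lemma face_eq {n : ℕ} (i : Fin (n + 2)) (σ : Sing X (n + 1)) : face i σ = sub i.succAbove σ := rfl

lemma sub_sub {k l n : ℕ} (α : Fin (k + 1) → Fin (l + 1)) (β : Fin (l + 1) → Fin (n + 1))
    (σ : Sing X n) : sub α (sub β σ) = sub (β ∘ α) σ := by
  ext t
  simp only [sub, ContinuousMap.comp_apply, ContinuousMap.coe_mk]
  exact congrArg σ (stdSimplex.map_comp_apply α β t)

lemma sub_vertex {k n : ℕ} (α : Fin (k + 1) → Fin (n + 1)) (σ : Sing X n) (i : Fin (k + 1)) :
    sub α σ (stdSimplex.vertex i) = σ (stdSimplex.vertex (α i)) :=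
  congrArg σ (stdSimplex.map_vertex α i)

lemma face_vertex {n : ℕ} (k : Fin (n + 2)) (σ : Sing X (n + 1)) (i : Fin (n + 1)) :
    face k σ (stdSimplex.vertex i) = σ (stdSimplex.vertex (k.succAbove i)) :=
  sub_vertex _ _ _

lemma sub_face {n : ℕ} (k : Fin (n + 2)) (σ : Sing X (n + 1)) (i j : Fin (n + 1)) :
    sub ![i, j] (face k σ) = sub ![k.succAbove i, k.succAbove j] σ := by
  rw [face_eq, sub_sub]
  congr 1
  funext t
  fin_cases t <;> rfl

lemma face_sub {n : ℕ} (σ : Sing X n) (x : Fin 3 → Fin (n + 1)) (k : Fin 3) :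
    face k (sub x σ) = sub ![x (k.succAbove 0), x (k.succAbove 1)] σ := by
  rw [face_eq, sub_sub]
  congr 1
  funext t
  fin_cases t <;> rfl

end Sub

section Sum

variable {Γ O : Type} [Group Γ] [Fintype O] {a : Γ →* Equiv.Perm O} {r : O → O} {f : O → ZMod 3}

/-- The sum over the orbits of the rotation. -/
lemma three_sum (hR : IsRot a r) (hP : Phase r f) (F : O → ℤ) (hF : ∀ o, F (r o) = F o) :
    3 * ∑ o with f o = 0, F o = ∑ o, F o := by
  classical
  have hinj : Function.Injective r := fun o o' h => by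
    rw [← hR.three o, ← hR.three o', h]
  let e : Equiv.Perm O := ⟨r, fun o => r (r o), fun o => hR.three o, fun o => hR.three o⟩
  have shift : ∀ c : ZMod 3, ∑ o with f o = c + 1, F o = ∑ o with f o = c, F o := by
    intro c
    symm
    refine Finset.sum_bij (fun o _ => r o) ?_ ?_ ?_ ?_
    · intro o ho
      rw [Finset.mem_filter] at ho ⊢
      exact ⟨Finset.mem_univ _, by rw [hP, ho.2]⟩
    · intro o _ o' _ h
      exact hinj h
    · intro o ho
      rw [Finset.mem_filter] at ho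
      refine ⟨r (r o), ?_, hR.three o⟩
      rw [Finset.mem_filter]
      refine ⟨Finset.mem_univ _, ?_⟩
      rw [hP, hP, ho.2, add_assoc, add_assoc, show (1 + (1 + 1) : ZMod 3) = 0 by decide, add_zero]
    · intro o _
      exact (hF o).symm
  have s1 := shift 0
  have s2 := shift 1
  rw [zero_add] at s1
  rw [show (1 + 1 : ZMod 3) = 2 by decide] at s2
  have tot : ∑ o, F o = ∑ c : ZMod 3, ∑ o with f o = c, F o :=
    (Finset.sum_fiberwise Finset.univ f F).symm
  have e3 : ∑ c : ZMod 3, (∑ o with f o = c, F o) =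
      (∑ o with f o = 0, F o) + (∑ o with f o = 1, F o) + ∑ o with f o = 2, F o := by
    exact Fin.sum_univ_three fun c : ZMod 3 => ∑ o with f o = c, F o
  rw [tot, e3, s2, s1]
  ring

/-- Invariance of the sum over the orbits. -/
lemma sum_inv (hR : IsRot a r) (hP : Phase r f) (γ : Γ) (F F' : O → ℤ) (hF : ∀ o, F (r o) = F o)
    (hF' : ∀ o, F' (r o) = F' o) (h : ∀ o, F' (a γ o) = F o) :
    ∑ o with f o = 0, F' o = ∑ o with f o = 0, F o := by
  have h1 := three_sum hR hP F hF
  have h2 := three_sum hR hP F' hF'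
  have h3 : ∑ o, F' o = ∑ o, F o := by
    rw [← Equiv.sum_comp (a γ) F']
    exact Finset.sum_congr rfl fun o _ => h o
  have : 3 * ∑ o with f o = 0, F' o = 3 * ∑ o with f o = 0, F o := by rw [h1, h2, h3]
  linarith

omit [Fintype O] in
lemma bb_rot (hR : IsRot a r) (hP : Phase r f) (o : O) (g h k : Γ) :
    bb a f (r o) g h k = bb a f o g h k := by
  unfold bb
  simp only [dd_rot hR hP]

omit [Fintype O] in
lemma bb_inv (γ : Γ) (o : O) (g h k : Γ) :
    bb a f (a γ o) (γ * g) (γ * h) (γ * k) = bb a f o g h k := by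
  unfold bb
  simp only [dd_inv]

omit [Fintype O] in
lemma bb_coc (o : O) (g h k l : Γ) :
    bb a f o h k l - bb a f o g k l + bb a f o g h l - bb a f o g h k = 0 := by
  have h1 := three_bb (a := a) (f := f) o h k l
  have h2 := three_bb (a := a) (f := f) o g k l
  have h3 := three_bb (a := a) (f := f) o g h l
  have h4 := three_bb (a := a) (f := f) o g h k
  omega

end Sum

section Main

variable {Γ T O : Type} [Group Γ] [TopologicalSpace T] {C : GCov Γ T} {a : Γ →* Equiv.Perm O}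
  {r : O → O} {f : O → ZMod 3} {u : C.T → Γ}

/-- `bb` at three vertices of a simplex. -/
noncomputable def cc (a : Γ →* Equiv.Perm O) (f : O → ZMod 3) (u : C.T → Γ) {n : ℕ}
    (σ : Sing C.T n) (o : O) (i j k : Fin (n + 1)) : ℤ :=
  bb a f o (u (σ (stdSimplex.vertex i))) (u (σ (stdSimplex.vertex j)))
    (u (σ (stdSimplex.vertex k)))

/-- `N` at an edge of a simplex. -/
noncomputable def AA (N : Sing C.T 1 → O → ℤ) {n : ℕ} (σ : Sing C.T n) (o : O)
    (i j : Fin (n + 1)) : ℤ := N (sub ![i, j] σ) o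

/-- `bb - δ N` at three vertices of a simplex. -/
noncomputable def be (a : Γ →* Equiv.Perm O) (f : O → ZMod 3) (u : C.T → Γ)
    (N : Sing C.T 1 → O → ℤ) {n : ℕ} (σ : Sing C.T n) (o : O) (i j k : Fin (n + 1)) : ℤ :=
  cc a f u σ o i j k - (AA N σ o j k - AA N σ o i k + AA N σ o i j)

variable {N N' : Sing C.T 1 → O → ℤ}

lemma cc_face {n : ℕ} (m : Fin (n + 2)) (σ : Sing C.T (n + 1)) (o : O) (i j k : Fin (n + 1)) :
    cc a f u (face m σ) o i j k =
      cc a f u σ o (m.succAbove i) (m.succAbove j) (m.succAbove k) := by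
  unfold cc
  simp only [face_vertex]

lemma AA_face {n : ℕ} (m : Fin (n + 2)) (σ : Sing C.T (n + 1)) (o : O) (i j : Fin (n + 1)) :
    AA N (face m σ) o i j = AA N σ o (m.succAbove i) (m.succAbove j) := by
  unfold AA
  rw [sub_face]

lemma be_face {n : ℕ} (m : Fin (n + 2)) (σ : Sing C.T (n + 1)) (o : O) (i j k : Fin (n + 1)) :
    be a f u N (face m σ) o i j k =
      be a f u N σ o (m.succAbove i) (m.succAbove j) (m.succAbove k) := by
  unfold be
  simp only [cc_face, AA_face]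

lemma cc_coc {n : ℕ} (σ : Sing C.T n) (o : O) (i j k l : Fin (n + 1)) :
    cc a f u σ o j k l - cc a f u σ o i k l + cc a f u σ o i j l - cc a f u σ o i j k = 0 :=
  bb_coc _ _ _ _ _

lemma cc_rot (hR : IsRot a r) (hP : Phase r f) {n : ℕ} (σ : Sing C.T n) (o : O)
    (i j k : Fin (n + 1)) : cc a f u σ (r o) i j k = cc a f u σ o i j k := bb_rot hR hP _ _ _ _

lemma cc_inv (hu : ∀ (γ : Γ) m, u (γ • m) = γ * u m) (γ : Γ) {n : ℕ} (σ : Sing C.T n) (o : O)
    (i j k : Fin (n + 1)) :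
    cc a f u ((smC C γ).comp σ) (a γ o) i j k = cc a f u σ o i j k := by
  unfold cc
  have e : ∀ t, ((smC C γ).comp σ) t = γ • σ t := fun _ => rfl
  simp only [e, hu, bb_inv]

lemma AA_rot (hN : ∀ σ o, N σ (r o) = N σ o) {n : ℕ} (σ : Sing C.T n) (o : O)
    (i j : Fin (n + 1)) : AA N σ (r o) i j = AA N σ o i j := hN _ _

lemma AA_inv (hN : ∀ (γ : Γ) σ o, N ((smC C γ).comp σ) (a γ o) = N σ o) (γ : Γ) {n : ℕ}
    (σ : Sing C.T n) (o : O) (i j : Fin (n + 1)) :
    AA N ((smC C γ).comp σ) (a γ o) i j = AA N σ o i j := hN γ (sub ![i, j] σ) o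

lemma be_rot (hR : IsRot a r) (hP : Phase r f) (hN : ∀ σ o, N σ (r o) = N σ o) {n : ℕ}
    (σ : Sing C.T n) (o : O) (i j k : Fin (n + 1)) :
    be a f u N σ (r o) i j k = be a f u N σ o i j k := by
  unfold be
  rw [cc_rot hR hP, AA_rot hN, AA_rot hN, AA_rot hN]

lemma be_inv (hu : ∀ (γ : Γ) m, u (γ • m) = γ * u m)
    (hN : ∀ (γ : Γ) σ o, N ((smC C γ).comp σ) (a γ o) = N σ o) (γ : Γ) {n : ℕ}
    (σ : Sing C.T n) (o : O) (i j k : Fin (n + 1)) :
    be a f u N ((smC C γ).comp σ) (a γ o) i j k = be a f u N σ o i j k := by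
  unfold be
  rw [cc_inv hu, AA_inv hN, AA_inv hN, AA_inv hN]

lemma be_zero {U : O → Set C.T} (hN : ∀ (τ : Sing C.T 2) (o : O), (∀ t, τ t ∈ U o) →
      N (face 0 τ) o - N (face 1 τ) o + N (face 2 τ) o =
        bb a f o (u (τ (stdSimplex.vertex 0))) (u (τ (stdSimplex.vertex 1)))
          (u (τ (stdSimplex.vertex 2)))) {n : ℕ} (σ : Sing C.T n) (o : O)
    (hσ : ∀ t, σ t ∈ U o) (i j k : Fin (n + 1)) : be a f u N σ o i j k = 0 := by
  have h := hN (sub ![i, j, k] σ) o fun t => hσ _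
  rw [face_sub, face_sub, face_sub, sub_vertex, sub_vertex, sub_vertex] at h
  have k00 : (0 : Fin 3).succAbove (0 : Fin 2) = 1 := rfl
  have k01 : (0 : Fin 3).succAbove (1 : Fin 2) = 2 := rfl
  have k10 : (1 : Fin 3).succAbove (0 : Fin 2) = 0 := rfl
  have k11 : (1 : Fin 3).succAbove (1 : Fin 2) = 2 := rfl
  have k20 : (2 : Fin 3).succAbove (0 : Fin 2) = 0 := rfl
  have k21 : (2 : Fin 3).succAbove (1 : Fin 2) = 1 := rfl
  rw [k00, k01, k10, k11, k20, k21] at h
  have e0 : (![i, j, k] : Fin 3 → Fin (n + 1)) 0 = i := rfl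
  have e1 : (![i, j, k] : Fin 3 → Fin (n + 1)) 1 = j := rfl
  have e2 : (![i, j, k] : Fin 3 → Fin (n + 1)) 2 = k := rfl
  rw [e0, e1, e2] at h
  unfold be cc AA
  linarith

lemma be_coc {n : ℕ} (σ : Sing C.T n) (o : O) (i j k l : Fin (n + 1)) :
    be a f u N σ o j k l - be a f u N σ o i k l + be a f u N σ o i j l
      - be a f u N σ o i j k = 0 := by
  have h := cc_coc (a := a) (f := f) (u := u) σ o i j k l
  unfold be
  linarith

lemma sa4 : ∀ (k : Fin 5) (j : Fin 4), k.succAbove j =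
    (![![1, 2, 3, 4], ![0, 2, 3, 4], ![0, 1, 3, 4], ![0, 1, 2, 4], ![0, 1, 2, 3]] :
      Fin 5 → Fin 4 → Fin 5) k j := by decide

lemma sa5 : ∀ (k : Fin 6) (j : Fin 5), k.succAbove j =
    (![![1, 2, 3, 4, 5], ![0, 2, 3, 4, 5], ![0, 1, 3, 4, 5], ![0, 1, 2, 4, 5], ![0, 1, 2, 3, 5],
      ![0, 1, 2, 3, 4]] : Fin 6 → Fin 5 → Fin 6) k j := by decide

end Main

end Cup

open Cup Wind in
theorem specCup : SpecCup := by
  intro Γ T O _ _ _ C a r f U u N hR hP hu hNi hNr hN
  refine ⟨fun σ => ∑ o with f o = 0, be a f u (N false) σ o 0 1 2 * be a f u (N true) σ o 2 3 4,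
    fun σ => ∑ o with f o = 0, (AA (N false) σ o 0 1 * cc a f u σ o 1 2 3 +
      be a f u (N false) σ o 0 1 2 * AA (N true) σ o 2 3), ?_, ?_, ?_, ?_, ?_⟩
  · intro γ σ
    refine sum_inv hR hP γ _ _ (fun o => ?_) (fun o => ?_) (fun o => ?_)
    · simp only [be_rot hR hP (hNr _)]
    · simp only [be_rot hR hP (hNr _)]
    · simp only [be_inv hu (hNi _)]
  · intro γ σ
    refine sum_inv hR hP γ _ _ (fun o => ?_) (fun o => ?_) (fun o => ?_)
    · simp only [be_rot hR hP (hNr _), cc_rot hR hP, AA_rot (hNr _)]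
    · simp only [be_rot hR hP (hNr _), cc_rot hR hP, AA_rot (hNr _)]
    · simp only [be_inv hu (hNi _), cc_inv hu, AA_inv (hNi _)]
  · intro ρ
    simp only [Finset.mul_sum]
    rw [Finset.sum_comm]
    refine Finset.sum_eq_zero fun o _ => ?_
    have h1 := be_coc (a := a) (f := f) (u := u) (N := N false) ρ o 0 1 2 3
    have h2 := be_coc (a := a) (f := f) (u := u) (N := N true) ρ o 2 3 4 5
    simp only [be_face, sa5, Fin.sum_univ_six]
    simp only [Matrix.cons_val]
    norm_num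
    linear_combination (be a f u (N true) ρ o 3 4 5) * h1 + (be a f u (N false) ρ o 0 1 2) * h2
  · intro σ hσ
    refine Finset.sum_eq_zero fun o _ => ?_
    rcases hσ o with h | h
    · rw [be_zero (hN false) σ o h, zero_mul]
    · rw [be_zero (hN true) σ o h, mul_zero]
  · intro σ
    simp only [Finset.mul_sum]
    rw [Finset.sum_comm, ← Finset.sum_add_distrib]
    unfold xx
    refine Finset.sum_congr rfl fun o _ => ?_
    have h1 := cc_coc (a := a) (f := f) (u := u) σ o 0 1 2 3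
    have h2 := cc_coc (a := a) (f := f) (u := u) σ o 1 2 3 4
    show cc a f u σ o 0 1 2 * cc a f u σ o 2 3 4 = _
    simp only [be_face, cc_face, AA_face, sa4, Fin.sum_univ_five]
    simp only [Matrix.cons_val]
    unfold be
    norm_num
    linear_combination (AA (N false) σ o 0 1) * h2 - (AA (N true) σ o 3 4) * h1

end MP590
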