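import Pool.Agent.Lib.MP_00590d_ag.Old
import Pool.Agent.Lib.MP_ab96eb_gt.Defs

set_option autoImplicit false

/-!
# MP_00590d_ag : auxiliary definitions

Actions on sets are given by homomorphisms `a : Γ →* Equiv.Perm O`, so that restricting the action
along `h : Γ' →* Γ` is `a.comp h`.
-/

namespace MP590

open MPb00168 TCMM

/-! ## The class -/

section Class

variable {Γ O : Type} [Group Γ]

/-- `r` is a rotation of order three of the `Γ`-set `O`. -/
structure IsRot (a : Γ →* Equiv.Perm O) (r : O → O) : Prop where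
  eqv : ∀ (γ : Γ) (o : O), r (a γ o) = a γ (r o)
  three : ∀ o, r (r (r o)) = o

/-- A phase: a function which increases by one under the rotation (equivalently, the choice of an
element, the one of phase 0, in each orbit of the rotation). -/
def Phase (r : O → O) (f : O → ZMod 3) : Prop := ∀ o, f (r o) = f o + 1

/-- The difference of the translates by `g` and `h` of the phase. It depends only on the orbit of
`o` under the rotation. -/
def dd (a : Γ →* Equiv.Perm O) (f : O → ZMod 3) (o : O) (g h : Γ) : ZMod 3 :=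
  f (a g⁻¹ o) - f (a h⁻¹ o)

/-- The (integral) Bockstein of `dd`. -/
def bb (a : Γ →* Equiv.Perm O) (f : O → ZMod 3) (o : O) (g₀ g₁ g₂ : Γ) : ℤ :=
  (((dd a f o g₀ g₁).val : ℤ) + ((dd a f o g₁ g₂).val : ℤ) - ((dd a f o g₀ g₂).val : ℤ)) / 3

/-- The sum over the orbits of the rotation of the squares of the Bocksteins. -/
def xx [Fintype O] (a : Γ →* Equiv.Perm O) (f : O → ZMod 3) (x : Fin 5 → Γ) : ℤ :=
  ∑ o with f o = 0, bb a f o (x 0) (x 1) (x 2) * bb a f o (x 2) (x 3) (x 4)

end Class

/-! ## Nonconstant triples -/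

section Triples

variable (S : Type)

/-- Nonconstant ordered triples of elements of `S`. -/
def NC : Type := {t : S × S × S // ¬ (t.1 = t.2.1 ∧ t.2.1 = t.2.2)}

instance [Finite S] : Finite (NC S) := inferInstanceAs (Finite {_t : S × S × S // _})

noncomputable instance [Finite S] : Fintype (NC S) := Fintype.ofFinite _

variable {S}

/-- The rotation `(s₀, s₁, s₂) ↦ (s₁, s₂, s₀)`. -/
def rot (t : NC S) : NC S :=
  ⟨(t.1.2.1, t.1.2.2, t.1.1), fun h => t.2 ⟨h.2.symm.trans h.1.symm, h.1⟩⟩

/-- The action on nonconstant triples. -/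
def aNC {Γ : Type} [Group Γ] (a : Γ →* Equiv.Perm S) : Γ →* Equiv.Perm (NC S) where
  toFun γ :=
    { toFun := fun t => ⟨(a γ t.1.1, a γ t.1.2.1, a γ t.1.2.2), fun h =>
        t.2 ⟨(a γ).injective h.1, (a γ).injective h.2⟩⟩
      invFun := fun t => ⟨((a γ).symm t.1.1, (a γ).symm t.1.2.1, (a γ).symm t.1.2.2), fun h =>
        t.2 ⟨(a γ).symm.injective h.1, (a γ).symm.injective h.2⟩⟩
      left_inv := fun t => by
        apply Subtype.ext
        simp
      right_inv := fun t => by
        apply Subtype.ext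
        simp }
  map_one' := by
    ext t
    apply Subtype.ext
    simp
  map_mul' γ γ' := by
    ext t
    apply Subtype.ext
    simp

end Triples

/-! ## The action on `H¹(Σ_g; ℤ/5)` -/

noncomputable instance SS.finite (g : ℕ) : Finite (SS g) := by
  refine Finite.of_injective
    (fun (s : SS g) (p : Fin g × Bool) => s (PresentedGroup.of p)) fun s t h => ?_
  apply PresentedGroup.ext
  intro p
  exact congrFun h p

/-- The action of the orientation preserving automorphisms: `s ↦ s ∘ φ⁻¹`. -/
def aP (g : ℕ) : AutP g →* Equiv.Perm (SS g) where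
  toFun φ :=
    { toFun := fun s => s.comp ((φ⁻¹ : AutP g) : MulAut (PiG g)).toMonoidHom
      invFun := fun s => s.comp (φ : MulAut (PiG g)).toMonoidHom
      left_inv := fun s => by
        ext x
        simp
      right_inv := fun s => by
        ext x
        simp }
  map_one' := by
    ext s x
    simp
  map_mul' φ ψ := by
    ext s x
    simp [mul_inv_rev]

lemma aP_inn (g : ℕ) : Inn g ≤ (aP g).ker := by
  rintro ⟨φ, hφ⟩ ⟨x, hx⟩
  have hx' : MulAut.conj x = φ := hx
  subst hx'
  rw [MonoidHom.mem_ker]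
  refine Equiv.ext fun s => MonoidHom.ext fun y => ?_
  change s ((MulAut.conj x)⁻¹ y) = s y
  rw [← map_inv, MulAut.conj_apply]
  simp

/-- The action of the mapping class group on `H¹(Σ_g; ℤ/5)`. -/
def aS (g : ℕ) : Gam g →* Equiv.Perm (SS g) := QuotientGroup.lift (Inn g) (aP g) (aP_inn g)

/-! ## Topology -/

/-- `ω = exp(2πi/3)`. -/
noncomputable def om : ℂ := Complex.exp (2 * Real.pi * Complex.I / 3)

/-! ## Good families of sections -/

/-- The data needed for the topological argument: for each nonconstant triple `t` of elements of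
`H¹(Σ_g; ℤ/5)` a closed algebraic subset `D t` of `Y` and a function `Θ t` without zeros outside
`D t`, rotated by `ω⁻¹` under the rotation of `t` and invariant under `Gam g`. -/
structure Good {g : ℕ} (L : Tors g) (D : NC (SS g) → Set (PS L.n)) (Θ : NC (SS g) → L.Y → ℂ) :
    Prop where
  zc : ∀ t, ZC L.Y (D t)
  closed : ∀ t, IsClosed {y : L.Y | (y : PS L.n) ∈ D t}
  drot : ∀ t, D (rot t) = D t
  dinv : ∀ (γ : Gam g) (t : NC (SS g)) (y : L.Y),
    (L.act γ y : PS L.n) ∈ D (aNC (aS g) γ t) ↔ (y : PS L.n) ∈ D t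
  ne : ∀ (t : NC (SS g)) (y : L.Y), (y : PS L.n) ∉ D t → Θ t y ≠ 0
  cont : ∀ t, ContinuousOn (Θ t) {y : L.Y | (y : PS L.n) ∉ D t}
  trot : ∀ (t : NC (SS g)) (y : L.Y), Θ (rot t) y = om⁻¹ * Θ t y
  tinv : ∀ (γ : Gam g) (t : NC (SS g)) (y : L.Y), Θ (aNC (aS g) γ t) (L.act γ y) = Θ t y

end MP590
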