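import Mathlib

set_option autoImplicit false

/-!
# MP_00590d_ag : surface groups and mapping class groups

* `PiG g` : the fundamental group of the closed oriented surface of genus `g`;
* `Gam g` : the mapping class group of the closed surface, that is, the group of the orientation
  preserving outer automorphisms of `PiG g` (Dehn, Nielsen, Baer);
* `GamB g` : the mapping class group of the surface of genus `g` with one boundary component, that
  is, the group of the automorphisms of the free group `⟨a_i, b_i⟩` fixing `∏ [a_i, b_i]`;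
* `IsCap`, `IsStab` : the homomorphisms `GamB g → Gam g` (glue a disc) and `GamB g → Gam (g + 1)`
  (glue a torus with one boundary component).
-/

namespace MP590

/-! ## Surface groups -/

/-- The commutator `[x, y] = x y x⁻¹ y⁻¹`. -/
def cm {G : Type*} [Group G] (x y : G) : G := x * y * x⁻¹ * y⁻¹

/-- The free group on `a_0, b_0, …, a_{g-1}, b_{g-1}`, the fundamental group of the surface of genus
`g` with one boundary component. -/
abbrev FG (g : ℕ) : Type := FreeGroup (Fin g × Bool)

/-- The generator `a_i`. -/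
def ga {g : ℕ} (i : Fin g) : FG g := FreeGroup.of (i, false)

/-- The generator `b_i`. -/
def gb {g : ℕ} (i : Fin g) : FG g := FreeGroup.of (i, true)

/-- The boundary curve `ζ = [a_0, b_0] [a_1, b_1] ⋯ [a_{g-1}, b_{g-1}]`. -/
def zeta (g : ℕ) : FG g := (List.ofFn fun i : Fin g => cm (ga i) (gb i)).prod

/-- The fundamental group `⟨a_i, b_i | ∏ [a_i, b_i]⟩` of the closed oriented surface of genus
`g`. -/
abbrev PiG (g : ℕ) : Type := PresentedGroup ({zeta g} : Set (FG g))

/-- The projection `FG g → PiG g`. -/
def prf {g : ℕ} (x : FG g) : PiG g := PresentedGroup.mk {zeta g} x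

/-! ## The mapping class group of the closed surface -/

/-- The group of the automorphisms of `PiG g`. -/
abbrev AutG (g : ℕ) : Type := MulAut (PiG g)

instance AutG.grp (g : ℕ) : Group (AutG g) := MulAut.instGroup (PiG g)

/-- The value of the automorphism `φ` of `PiG g` at `x`. -/
def AutG.ap {g : ℕ} (φ : AutG g) (x : PiG g) : PiG g := φ x

/-- Homomorphisms from `PiG g` to `ℤ`; they form the group `H¹(Σ_g; ℤ)`. -/
def IsAddZ {g : ℕ} (f : PiG g → ℤ) : Prop := ∀ x y, f (x * y) = f x + f y

/-- The intersection form (cup product form) on `H¹(Σ_g; ℤ)`: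
`ω(f, f') = ∑ f(a_i) f'(b_i) - f(b_i) f'(a_i)`. -/
def form {g : ℕ} (f f' : PiG g → ℤ) : ℤ :=
  ∑ i : Fin g, (f (prf (ga i)) * f' (prf (gb i)) - f (prf (gb i)) * f' (prf (ga i)))

/-- The automorphism `φ` of `PiG g` preserves the orientation: it preserves the intersection
form. -/
def OrPres {g : ℕ} (φ : AutG g) : Prop :=
  ∀ f f' : PiG g → ℤ, IsAddZ f → IsAddZ f' →
    form (fun x => f (φ.ap x)) (fun x => f' (φ.ap x)) = form f f'

lemma orPres_one (g : ℕ) : OrPres (1 : AutG g) := fun _ _ _ _ => rfl

lemma IsAddZ.comp {g : ℕ} {f : PiG g → ℤ} (hf : IsAddZ f) (φ : AutG g) :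
    IsAddZ fun x => f (φ.ap x) := fun x y => by
  change f ((φ : PiG g ≃* PiG g) (x * y)) = _
  rw [map_mul, hf]
  rfl

lemma orPres_mul {g : ℕ} {φ ψ : AutG g} (hφ : OrPres φ) (hψ : OrPres ψ) : OrPres (φ * ψ) :=
  fun f f' h h' => (hψ _ _ (h.comp φ) (h'.comp φ)).trans (hφ f f' h h')

lemma orPres_inv {g : ℕ} {φ : AutG g} (hφ : OrPres φ) : OrPres φ⁻¹ := by
  intro f f' h h'
  have h1 := hφ _ _ (h.comp φ⁻¹) (h'.comp φ⁻¹)
  have e : ∀ (f : PiG g → ℤ), (fun x => f ((φ⁻¹).ap (φ.ap x))) = f := by
    intro f
    funext x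
    exact congrArg f ((φ : PiG g ≃* PiG g).symm_apply_apply x)
  rw [e, e] at h1
  exact h1.symm

/-- The subgroup of the orientation preserving automorphisms of `PiG g`. -/
def AutP (g : ℕ) : Subgroup (AutG g) where
  carrier := {φ | OrPres φ}
  one_mem' := orPres_one g
  mul_mem' := orPres_mul
  inv_mem' := orPres_inv

/-- The group of the orientation preserving automorphisms of `PiG g`. -/
abbrev AutT (g : ℕ) : Type := AutP g

instance AutT.grp (g : ℕ) : Group (AutT g) := Subgroup.toGroup (AutP g)

/-- The value of the automorphism `φ` of `PiG g` at `x`. -/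
def AutT.ap {g : ℕ} (φ : AutT g) (x : PiG g) : PiG g := φ.1 x

/-- The subgroup of the inner automorphisms. -/
def Inn (g : ℕ) : Subgroup (AutT g) := (MulAut.conj (G := PiG g)).range.subgroupOf (AutP g)

instance Inn.normal (g : ℕ) : (Inn g).Normal where
  conj_mem := by
    rintro ⟨φ, hφ⟩ ⟨x, hx⟩ ⟨ψ, hψ⟩
    refine ⟨ψ x, ?_⟩
    have hx' : MulAut.conj x = φ := hx
    subst hx'
    ext y
    simp

/-- The mapping class group of the closed oriented surface of genus `g`: the group of the
orientation preserving outer automorphisms of its fundamental group. -/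
abbrev Gam (g : ℕ) : Type := AutT g ⧸ Inn g

instance Gam.grp (g : ℕ) : Group (Gam g) := QuotientGroup.Quotient.group (Inn g)

/-- The class of an orientation preserving automorphism. -/
def AutT.cls {g : ℕ} (φ : AutT g) : Gam g := QuotientGroup.mk φ

/-! ## The mapping class group of the surface with one boundary component -/

/-- The group of the automorphisms of `FG g`. -/
abbrev AutF (g : ℕ) : Type := MulAut (FG g)

instance AutF.grp (g : ℕ) : Group (AutF g) := MulAut.instGroup (FG g)

/-- The automorphism `φ` of the free group fixes the boundary curve `ζ`. -/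
def FixZ {g : ℕ} (φ : AutF g) : Prop := φ (zeta g) = zeta g

lemma fixZ_one (g : ℕ) : FixZ (1 : AutF g) := rfl

lemma fixZ_mul {g : ℕ} {φ ψ : AutF g} (hφ : FixZ φ) (hψ : FixZ ψ) : FixZ (φ * ψ) := by
  change φ (ψ (zeta g)) = zeta g
  rw [show ψ (zeta g) = zeta g from hψ]
  exact hφ

lemma fixZ_inv {g : ℕ} {φ : AutF g} (hφ : FixZ φ) : FixZ φ⁻¹ := by
  change (φ : MulAut (FG g))⁻¹ (zeta g) = zeta g
  rw [MulAut.inv_apply, MulEquiv.symm_apply_eq]
  exact hφ.symm

/-- The subgroup of the automorphisms of `FG g` fixing the boundary curve `ζ`. -/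
def GamBS (g : ℕ) : Subgroup (AutF g) where
  carrier := {φ | FixZ φ}
  one_mem' := fixZ_one g
  mul_mem' := fixZ_mul
  inv_mem' := fixZ_inv

/-- The mapping class group of the oriented surface of genus `g` with one boundary component: the
group of the automorphisms of the free group `FG g` fixing the boundary curve `ζ`. -/
abbrev GamB (g : ℕ) : Type := GamBS g

instance GamB.grp (g : ℕ) : Group (GamB g) := Subgroup.toGroup (GamBS g)

/-- The value of the automorphism `φ` of `FG g` at `x`. -/
def GamB.ap {g : ℕ} (φ : GamB g) (x : FG g) : FG g := φ.1 x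

/-- The inclusion of `FG g` in `FG (g + 1)`. -/
def incf {g : ℕ} (x : FG g) : FG (g + 1) := FreeGroup.map (fun p => (p.1.castSucc, p.2)) x

/-! ## Gluing a disc, gluing a torus -/

/-- `c : GamB g → Gam g` is the homomorphism given by gluing a disc to the boundary of the surface:
`c φ` is the class of the automorphism `ψ` of `PiG g` induced by the automorphism `φ` of `FG g`. -/
def IsCap {g : ℕ} (c : GamB g → Gam g) : Prop :=
  ∀ φ : GamB g, ∃ ψ : AutT g, c φ = ψ.cls ∧ ∀ x : FG g, ψ.ap (prf x) = prf (φ.ap x)

/-- `c : GamB g → Gam (g + 1)` is the homomorphism given by gluing a torus with one boundary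
component to the boundary of the surface: `c φ` is the class of the automorphism `ψ` of
`PiG (g + 1)` induced by the automorphism of `FG (g + 1)` extending the automorphism `φ` of `FG g`
and fixing `a_g` and `b_g`. -/
def IsStab {g : ℕ} (c : GamB g → Gam (g + 1)) : Prop :=
  ∀ φ : GamB g, ∃ ψ : AutT (g + 1), c φ = ψ.cls ∧
    (∀ x : FG g, ψ.ap (prf (incf x)) = prf (incf (φ.ap x))) ∧
    ψ.ap (prf (ga (Fin.last g))) = prf (ga (Fin.last g)) ∧
    ψ.ap (prf (gb (Fin.last g))) = prf (gb (Fin.last g))

end MP590
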