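import Pool.Agent.Lib.MP_00590d_ag.Cls

set_option autoImplicit false

/-! # MP_00590d_ag : modules INDEP, COPIES and PHASE -/

namespace MP590

namespace Indep

open Finset Cls

variable {Γ O : Type} [Group Γ] {a : Γ →* Equiv.Perm O} {r : O → O} {f f' : O → ZMod 3}

/-- The translate of the difference of two phases. -/
def nn (a : Γ →* Equiv.Perm O) (f f' : O → ZMod 3) (o : O) (g : Γ) : ZMod 3 :=
  f (a g⁻¹ o) - f' (a g⁻¹ o)

/-- The integral cochain comparing two Bocksteins. -/
def kk (a : Γ →* Equiv.Perm O) (f f' : O → ZMod 3) (o : O) (g h : Γ) : ℤ :=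
  (((dd a f o g h).val : ℤ) - ((dd a f' o g h).val : ℤ) - ((nn a f f' o g).val : ℤ) +
    ((nn a f f' o h).val : ℤ)) / 3

lemma kk_three (o : O) (g h : Γ) : 3 * kk a f f' o g h =
    ((dd a f o g h).val : ℤ) - ((dd a f' o g h).val : ℤ) - ((nn a f f' o g).val : ℤ) +
      ((nn a f f' o h).val : ℤ) := by
  refine Int.mul_ediv_cancel' ?_
  have h : ((3 : ℕ) : ℤ) ∣ ((dd a f o g h).val : ℤ) - ((dd a f' o g h).val : ℤ) -
      ((nn a f f' o g).val : ℤ) + ((nn a f f' o h).val : ℤ) := by
    rw [← ZMod.intCast_zmod_eq_zero_iff_dvd]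
    push_cast
    simp only [ZMod.natCast_zmod_val]
    simp only [dd, nn]
    ring
  exact_mod_cast h

lemma nn_rot (hr : IsRot a r) (hf : Phase r f) (hf' : Phase r f') (o : O) (g : Γ) :
    nn a f f' (r o) g = nn a f f' o g := by
  simp only [nn]
  rw [← hr.eqv, hf, hf']
  ring

lemma nn_inv (o : O) (γ g : Γ) : nn a f f' (a γ o) (γ * g) = nn a f f' o g := by
  simp [nn, mul_inv_rev, map_mul, Equiv.Perm.mul_apply, map_inv]

lemma kk_rot (hr : IsRot a r) (hf : Phase r f) (hf' : Phase r f') (o : O) (g h : Γ) :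
    kk a f f' (r o) g h = kk a f f' o g h := by
  simp only [kk, dd_rot hr hf, dd_rot hr hf', nn_rot hr hf hf']

lemma kk_inv (o : O) (γ g h : Γ) : kk a f f' (a γ o) (γ * g) (γ * h) = kk a f f' o g h := by
  simp only [kk, dd_inv, nn_inv]

lemma kk_bd (o : O) (g₀ g₁ g₂ : Γ) :
    kk a f f' o g₁ g₂ - kk a f f' o g₀ g₂ + kk a f f' o g₀ g₁ =
      bb a f o g₀ g₁ g₂ - bb a f' o g₀ g₁ g₂ := by
  have h1 := kk_three (a := a) (f := f) (f' := f') o g₁ g₂
  have h2 := kk_three (a := a) (f := f) (f' := f') o g₀ g₂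
  have h3 := kk_three (a := a) (f := f) (f' := f') o g₀ g₁
  have h4 := bb_three (a := a) (f := f) o g₀ g₁ g₂
  have h5 := bb_three (a := a) (f := f') o g₀ g₁ g₂
  linarith

end Indep

open Cls Indep in
theorem specIndep : SpecIndep := by
  intro Γ O _ _ a r f f' hr hf hf'
  refine ⟨fun y => ∑ o with f' o = 0, (kk a f f' o (y 0) (y 1) * bb a f o (y 1) (y 2) (y 3) +
    bb a f' o (y 0) (y 1) (y 2) * kk a f f' o (y 2) (y 3)), ?_, ?_⟩
  · intro γ x
    refine sum_inv hr hf' _ _ (fun o => ?_) γ (fun o => ?_)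
    · simp only [kk_rot hr hf hf', bb_rot hr hf, bb_rot hr hf']
    · simp only [kk_inv, bb_inv]
  · funext x
    have hxx : xx a f x = ∑ o with f' o = 0, bb a f o (x 0) (x 1) (x 2) *
        bb a f o (x 2) (x 3) (x 4) := by
      have hF : ∀ o, bb a f (r o) (x 0) (x 1) (x 2) * bb a f (r o) (x 2) (x 3) (x 4) =
          bb a f o (x 0) (x 1) (x 2) * bb a f o (x 2) (x 3) (x 4) := by
        intro o
        simp only [bb_rot hr hf]
      have h1 := sum_phase hr hf (fun o => bb a f o (x 0) (x 1) (x 2) *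
        bb a f o (x 2) (x 3) (x 4)) hF
      have h2 := sum_phase hr hf' (fun o => bb a f o (x 0) (x 1) (x 2) *
        bb a f o (x 2) (x 3) (x 4)) hF
      exact mul_left_cancel₀ (three_ne_zero (α := ℤ)) (h1.trans h2.symm)
    rw [dlt4, hxx, xx, ← Finset.sum_sub_distrib, ← Finset.sum_sub_distrib,
      ← Finset.sum_add_distrib, ← Finset.sum_sub_distrib, ← Finset.sum_add_distrib]
    refine Finset.sum_congr rfl fun o _ => ?_
    change (kk a f f' o (x 1) (x 2) * bb a f o (x 2) (x 3) (x 4) +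
        bb a f' o (x 1) (x 2) (x 3) * kk a f f' o (x 3) (x 4)) -
      (kk a f f' o (x 0) (x 2) * bb a f o (x 2) (x 3) (x 4) +
        bb a f' o (x 0) (x 2) (x 3) * kk a f f' o (x 3) (x 4)) +
      (kk a f f' o (x 0) (x 1) * bb a f o (x 1) (x 3) (x 4) +
        bb a f' o (x 0) (x 1) (x 3) * kk a f f' o (x 3) (x 4)) -
      (kk a f f' o (x 0) (x 1) * bb a f o (x 1) (x 2) (x 4) +
        bb a f' o (x 0) (x 1) (x 2) * kk a f f' o (x 2) (x 4)) +
      (kk a f f' o (x 0) (x 1) * bb a f o (x 1) (x 2) (x 3) +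
        bb a f' o (x 0) (x 1) (x 2) * kk a f f' o (x 2) (x 3)) = _
    have h1 := kk_bd (a := a) (f := f) (f' := f') o (x 0) (x 1) (x 2)
    have h2 := kk_bd (a := a) (f := f) (f' := f') o (x 2) (x 3) (x 4)
    have h3 := bb_coc (a := a) (f := f) o (x 1) (x 2) (x 3) (x 4)
    have h4 := bb_coc (a := a) (f := f') o (x 0) (x 1) (x 2) (x 3)
    linear_combination bb a f o (x 2) (x 3) (x 4) * h1 + bb a f' o (x 0) (x 1) (x 2) * h2 -
      kk a f f' o (x 0) (x 1) * h3 + kk a f f' o (x 3) (x 4) * h4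

open Cls in
theorem specCopies : SpecCopies := by
  classical
  intro Γ Γ' O O' V _ _ _ _ _ h a a' f f' j hj hje hjf hout x
  have hd : ∀ v o g k, dd a' f' (j v o) g k = dd a f o (h g) (h k) := by
    intro v o g k
    simp only [dd]
    rw [← hje, ← hje, hjf, hjf]
    simp only [map_inv]
  have hb : ∀ v o g₀ g₁ g₂, bb a' f' (j v o) g₀ g₁ g₂ = bb a f o (h g₀) (h g₁) (h g₂) := by
    intro v o g₀ g₁ g₂
    simp only [bb, hd]
  have hz : ∀ o', (∀ v o, j v o ≠ o') → ∀ g₀ g₁ g₂, bb a' f' o' g₀ g₁ g₂ = 0 := by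
    intro o' ho g₀ g₁ g₂
    have : ∀ g k, dd a' f' o' g k = 0 := by
      intro g k
      simp only [dd]
      rw [hout o' ho, hout o' ho, sub_self]
    simp [bb, this]
  set F : O' → ℤ := fun o' => bb a' f' o' (x 0) (x 1) (x 2) * bb a' f' o' (x 2) (x 3) (x 4) with hF
  set G : O → ℤ := fun o => bb a f o (h (x 0)) (h (x 1)) (h (x 2)) *
    bb a f o (h (x 2)) (h (x 3)) (h (x 4)) with hG
  have h1 : ∑ p ∈ (Finset.univ : Finset V) ×ˢ (Finset.univ.filter fun o => f o = 0), G p.2 =
      ∑ o' with f' o' = 0, F o' := by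
    refine Finset.sum_of_injOn (fun p => j p.1 p.2) ?_ ?_ ?_ ?_
    · rintro ⟨v, o⟩ _ ⟨w, p⟩ _ hvw
      obtain ⟨h1, h2⟩ := hj v w o p hvw
      rw [h1, h2]
    · rintro ⟨v, o⟩ hp
      simp only [Finset.coe_product, Finset.coe_univ, Finset.coe_filter, Set.mem_prod,
        Set.mem_univ, Finset.mem_univ, true_and, Set.mem_ofPred_eq] at hp ⊢
      rw [hjf]
      exact hp
    · intro o' ho ho'
      have : ∀ v o, j v o ≠ o' := by
        intro v o hvo
        have hfo : f o = 0 := by
          rw [← hjf v o, hvo]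
          exact (Finset.mem_filter.mp ho).2
        refine ho' ⟨(v, o), ?_, hvo⟩
        simp [hfo]
      simp [hF, hz o' this]
    · rintro ⟨v, o⟩ _
      simp [hF, hG, hb]
  change ∑ o' with f' o' = 0, F o' = _ * ∑ o with f o = 0, G o
  rw [← h1, Finset.sum_product]
  simp

namespace PhaseM

variable {S : Type}

lemma rot_three (t : NC S) : rot (rot (rot t)) = t := rfl

lemma rot_ne (t : NC S) : rot t ≠ t := by
  intro h
  have h1 : (t.1.2.1, t.1.2.2, t.1.1) = t.1 := congrArg Subtype.val h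
  refine t.2 ⟨(congrArg Prod.fst h1).symm, (congrArg (fun p => p.2.1) h1).symm⟩

lemma rot_rot_ne (t : NC S) : rot (rot t) ≠ t := by
  intro h
  have h1 := congrArg rot h
  rw [rot_three] at h1
  exact rot_ne t h1.symm

lemma rot_inj {t t' : NC S} (h : rot t = rot t') : t = t' := by
  rw [← rot_three t, ← rot_three t', h]

/-- The orbits of the rotation. -/
def st (S : Type) : Setoid (NC S) where
  r t t' := t' = t ∨ t' = rot t ∨ t' = rot (rot t)
  iseqv :=
    { refl := fun t => Or.inl rfl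
      symm := by
        rintro t t' (h | h | h)
        · exact Or.inl h.symm
        · exact Or.inr (Or.inr (by rw [h, rot_three]))
        · exact Or.inr (Or.inl (by rw [h, rot_three]))
      trans := by
        rintro t t' t'' (h | h | h) (h' | h' | h')
        · exact Or.inl (by rw [h', h])
        · exact Or.inr (Or.inl (by rw [h', h]))
        · exact Or.inr (Or.inr (by rw [h', h]))
        · exact Or.inr (Or.inl (by rw [h', h]))
        · exact Or.inr (Or.inr (by rw [h', h]))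
        · exact Or.inl (by rw [h', h, rot_three])
        · exact Or.inr (Or.inr (by rw [h', h]))
        · exact Or.inl (by rw [h', h, rot_three])
        · exact Or.inr (Or.inl (by rw [h', h, rot_three])) }

/-- A representative of the orbit. -/
noncomputable def rp (t : NC S) : NC S := (Quotient.mk (st S) t).out

lemma rp_rot (t : NC S) : rp (rot t) = rp t := by
  unfold rp
  congr 1
  exact Quotient.sound (s := st S) (Or.inr (Or.inr (rot_three t).symm))

lemma rp_cases (t : NC S) : rp t = t ∨ rp t = rot t ∨ rp t = rot (rot t) := by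
  have h : (st S).r t (rp t) := Quotient.exact (s := st S) (Quotient.out_eq _).symm
  exact h

open Classical in
/-- A phase. -/
noncomputable def ph (t : NC S) : ZMod 3 :=
  if rp t = t then 0 else if rp t = rot t then 2 else 1

lemma ph_rot (t : NC S) : ph (rot t) = ph t + 1 := by
  unfold ph
  rw [rp_rot]
  rcases rp_cases t with h | h | h
  · rw [h, if_neg (fun e => rot_ne t e.symm), if_neg (fun e => rot_rot_ne t e.symm), if_pos rfl]
    rfl
  · rw [h, if_pos rfl, if_neg (rot_ne t), if_pos rfl]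
    rfl
  · rw [h, if_neg (rot_ne _), if_pos rfl, if_neg (rot_rot_ne t), if_neg (rot_ne _)]
    rfl

end PhaseM

theorem specPhase : SpecPhase :=
  ⟨fun _ _ _ _ => ⟨fun _ _ => rfl, fun _ => rfl⟩, fun _ => ⟨PhaseM.ph, PhaseM.ph_rot⟩⟩

end MP590
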