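import Pool.Agent.Lib.MP_00590d_ag.Indep

set_option autoImplicit false

/-! # MP_00590d_ag : assembly -/

namespace MP590

open MPb00168 TCMM

lemma pow25 (k : ℕ) : (25 : ℤ) ^ (3 * k) ≡ 1 [ZMOD 9] := by
  rw [pow_mul]
  have h : ((25 : ℤ) ^ 3) ≡ 1 [ZMOD 9] := by decide
  simpa using h.pow k

lemma not_nine_dvd (g : ℕ) :
    ¬ (9 : ℤ) ∣ (25 : ℤ) ^ g - ((if 3 ∣ g then 25 else 1 : ℕ) : ℤ) := by
  intro h
  have h' : (25 : ℤ) ^ g ≡ ((if 3 ∣ g then 25 else 1 : ℕ) : ℤ) [ZMOD 9] :=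
    (Int.modEq_iff_dvd.mpr h).symm
  obtain ⟨k, r, hr, rfl⟩ : ∃ k r, r < 3 ∧ g = 3 * k + r :=
    ⟨g / 3, g % 3, Nat.mod_lt _ (by norm_num), (Nat.div_add_mod g 3).symm⟩
  have h1 : (25 : ℤ) ^ (3 * k + r) ≡ 25 ^ r [ZMOD 9] := by
    rw [pow_add]
    simpa using (pow25 k).mul_right (25 ^ r)
  have h2 : (25 : ℤ) ^ r ≡ ((if 3 ∣ 3 * k + r then 25 else 1 : ℕ) : ℤ) [ZMOD 9] := h1.symm.trans h'
  interval_cases r
  · rw [if_pos (by simp)] at h2
    revert h2; decide
  · rw [if_neg (by omega)] at h2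
    revert h2; decide
  · rw [if_neg (by omega)] at h2
    revert h2; decide

/-! ## Comparison with the definitions of the statement -/

lemma inLev_iff {g : ℕ} (γ : Gam g) : InLev γ ↔ γ ∈ Lev g := by
  constructor
  · rintro ⟨φ, rfl, h⟩
    refine ⟨φ, fun s => ?_, rfl⟩
    refine MonoidHom.ext fun x => ?_
    have hs : ∀ x y, Multiplicative.toAdd (s (x * y)) =
        Multiplicative.toAdd (s x) + Multiplicative.toAdd (s y) := fun x y => by
      rw [map_mul]
      rfl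
    exact congrArg Multiplicative.ofAdd (h (fun x => Multiplicative.toAdd (s x)) hs x)
  · rintro ⟨φ, h, rfl⟩
    refine ⟨φ, rfl, fun s hs x => ?_⟩
    have h1 : s 1 = 0 := by
      have h := hs 1 1
      rw [mul_one] at h
      simpa using h
    let s' : SS g :=
      { toFun := fun x => Multiplicative.ofAdd (s x)
        map_one' := by
          rw [h1]
          rfl
        map_mul' := fun x y => by
          rw [hs]
          rfl }
    have h2 := congrArg (fun f : SS g => f x) (h s')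
    exact h2

/-- The covering given by a torsor of `Statement.lean`. -/
def toCov {g : ℕ} (L : Torsor g) : GCov (Gam g) L.T :=
  letI : MulAction (Gam g) L.M :=
    { smul := L.sm
      one_smul := L.sm_one
      mul_smul := L.sm_mul }
  haveI : ContinuousConstSMul (Gam g) L.M := ⟨L.sm_cont⟩
  { T := L.M
    p := L.p
    cov := L.cov
    surj := L.surj
    orbit := L.orbit
    free := L.sm_free }

/-- The torsor of `Old.lean` given by a torsor of `Statement.lean`. -/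
noncomputable def toTors {g : ℕ} (L : Torsor g) : Tors g where
  T := L.T
  M := toCov L
  n := L.n
  Y := L.Y
  qproj := L.qproj
  q m := ⟨L.q m, L.q_mem m⟩
  q_quot := L.q_quot
  q_orbit m m' := by
    rw [Subtype.mk.injEq, L.q_orbit]
    constructor
    · rintro ⟨γ, h, h'⟩
      exact ⟨γ, (inLev_iff γ).mp h, h'⟩
    · rintro ⟨γ, h, h'⟩
      exact ⟨γ, (inLev_iff γ).mpr h, h'⟩
  act γ y := ⟨L.act γ y, L.act_mem γ y y.2⟩
  act_reg γ y := by
    obtain ⟨d, F, hF, h0, h⟩ := L.act_reg γ y y.2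
    exact ⟨d, F, hF, h0, fun z hz => h z z.2 hz⟩
  act_q γ m := Subtype.ext (L.act_q γ m)

lemma diesOff_of {g k d : ℕ} (L : Torsor g) (x : (Fin (d + 2) → Gam g) → ℤ)
    (h : DiesOffO k (toTors L) x) : DiesOff k L x := by
  intro u hu
  obtain ⟨Z, h1, h2, h3, e, he⟩ := h u hu
  exact ⟨Z, h1, fun γ y hy => h2 γ ⟨y, h1.1 hy⟩ hy, h3, e, he⟩

/-- Assembly of the modules. -/
theorem goal_of (hCls : SpecCls) (hPhase : SpecPhase) (hStab : SpecStab) (hDet : SpecDet)
    (hSig : SpecSig) (hGeo : SpecGeo) :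
    ∃ (cp : ∀ g : ℕ, GamB g → Gam g) (st : ∀ g : ℕ, GamB g → Gam (g + 1))
      (x : ∀ g : ℕ, (Fin (3 + 2) → Gam g) → ℤ),
      (∀ g, IsCap (cp g)) ∧ (∀ g, IsStab (st g)) ∧ (∀ g, IsCocycle (x g)) ∧
      (∀ g, IsCobd fun y => 3 * x g y) ∧
      (∀ g, IsCobd fun y => pull (cp g) (x g) y - pull (st g) (x (g + 1)) y) ∧
      (∀ g, 1 ≤ g → ¬ IsCobd (x g)) ∧ (∀ g, 2 ≤ g → InAH 2 (x g)) ∧
      ∀ (g : ℕ) (L : Torsor g), DiesOff 2 L (x g) := by
  choose f hf using hPhase.2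
  have hrot : ∀ g, IsRot (aNC (aS g)) (rot (S := SS g)) := fun g => hPhase.1 _ _ _
  refine ⟨fun g => cap g, fun g φ => cap (g + 1) (stab g φ),
    fun g => xx (aNC (aS g)) (f (SS g)), isCap, isStab, ?_, ?_, ?_, ?_, ?_, ?_⟩
  · intro g
    exact (hCls _ _ _ _ _ (hrot g) (hf _)).1
  · intro g
    exact (hCls _ _ _ _ _ (hrot g) (hf _)).2
  · intro g
    exact hStab g _ _ (hf _) (hf _)
  · intro g hg hc
    obtain ⟨t, ht, hfix⟩ := hSig.2 g hg
    have h := hDet (Gam g) (SS g) (aS g) (f _) t (hf _) ht hc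
    rw [hSig.1 g, hfix] at h
    refine not_nine_dvd g ?_
    push_cast at h ⊢
    exact h
  · intro g _ L _ _
    exact diesOff_of L _ (hGeo g (toTors L) _ (hf _))
  · intro g L
    exact diesOff_of L _ (hGeo g (toTors L) _ (hf _))

end MP590
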