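import Pool.Agent.Lib.MP_00590d_ag.Groups

set_option autoImplicit false

/-!
# MP_00590d_ag : the definitions used in the statement of the result

The surface groups `PiG g`, the mapping class groups `Gam g` (closed surface) and `GamB g` (one
boundary component) and the homomorphisms `IsCap`, `IsStab` between them are in `Groups.lean`.
-/

namespace MP590

/-! ## Group cohomology by homogeneous cochains

`H^{k+1}(G; ℤ)` is the group of the cocycles `(Fin (k+2) → G) → ℤ` modulo coboundaries. -/

section Cochains

variable {G : Type} [Group G]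

/-- Invariance under the diagonal action. -/
def Invt {k : ℕ} (c : (Fin k → G) → ℤ) : Prop := ∀ (γ : G) (x : Fin k → G),
  c (fun i => γ * x i) = c x

/-- The coboundary of a homogeneous cochain. -/
def dlt {k : ℕ} (c : (Fin (k + 1) → G) → ℤ) (x : Fin (k + 2) → G) : ℤ :=
  ∑ i : Fin (k + 2), (-1) ^ (i : ℕ) * c (fun j => x (i.succAbove j))

/-- Homogeneous cocycles. -/
def IsCocycle {k : ℕ} (c : (Fin (k + 1) → G) → ℤ) : Prop := Invt c ∧ ∀ x, dlt c x = 0

/-- Homogeneous coboundaries: the class of the cocycle `c` is zero. -/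
def IsCobd {k : ℕ} (c : (Fin (k + 2) → G) → ℤ) : Prop :=
  ∃ e : (Fin (k + 1) → G) → ℤ, Invt e ∧ dlt e = c

end Cochains

/-- Pull back of cochains by a map. -/
def pull {G G' : Type} (f : G' → G) {k : ℕ} (c : (Fin k → G) → ℤ) (x : Fin k → G') : ℤ :=
  c (fun i => f (x i))

/-! ## Singular simplices -/

/-- Singular `k`-simplices of `X`. -/
abbrev Sx (X : Type) [TopologicalSpace X] (k : ℕ) : Type := C(stdSimplex ℝ (Fin (k + 1)), X)

/-- The `i`-th face of a singular simplex. -/
noncomputable def fc {X : Type} [TopologicalSpace X] {k : ℕ} (i : Fin (k + 2)) (σ : Sx X (k + 1)) :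
    Sx X k :=
  σ.comp ⟨stdSimplex.map i.succAbove, stdSimplex.continuous_map _⟩

/-! ## Quasi-projective varieties -/

/-- Complex projective space of dimension `n`. -/
abbrev PS (n : ℕ) : Type := Projectivization ℂ (Fin (n + 1) → ℂ)

/-- The classical topology of projective space. -/
noncomputable instance PS.top (n : ℕ) : TopologicalSpace (PS n) :=
  TopologicalSpace.coinduced
    (fun v : {v : Fin (n + 1) → ℂ // v ≠ 0} => Projectivization.mk ℂ v.1 v.2) inferInstance

/-- Polynomials in the homogeneous coordinates of `PS n`. -/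
abbrev Pol (n : ℕ) : Type := MvPolynomial (Fin (n + 1)) ℂ

/-- The value of a polynomial at (chosen homogeneous coordinates of) a point. -/
noncomputable abbrev evp {n : ℕ} (y : PS n) (P : Pol n) : ℂ := MvPolynomial.eval y.rep P

/-- Homogeneous polynomials (of some degree). -/
abbrev Hom {n : ℕ} (P : Pol n) : Prop := ∃ d, P.IsHomogeneous d

/-- `A` is a Zariski closed subset of `Y`. -/
def ZC {n : ℕ} (Y A : Set (PS n)) : Prop :=
  A ⊆ Y ∧ ∃ I : Set (Pol n), (∀ P ∈ I, Hom P) ∧ ∀ y ∈ Y, y ∈ A ↔ ∀ P ∈ I, evp y P = 0

/-- Quasi-projective (that is, Zariski locally closed) subsets. -/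
def QProj {n : ℕ} (Y : Set (PS n)) : Prop :=
  ∃ A B : Set (PS n), ZC Set.univ A ∧ ZC Set.univ B ∧ Y = A \ B

/-- `Y` is smooth (Jacobian criterion): near each of its points `Y` is given by homogeneous
equations with linearly independent differentials. -/
def Smooth {n : ℕ} (Y : Set (PS n)) : Prop :=
  ∀ y ∈ Y, ∃ (r : ℕ) (P : Fin r → Pol n) (Q : Pol n), (∀ i, Hom (P i)) ∧ Hom Q ∧ evp y Q ≠ 0 ∧
    (∀ z : PS n, evp z Q ≠ 0 → (z ∈ Y ↔ ∀ i, evp z (P i) = 0)) ∧
    LinearIndependent ℂ fun (i : Fin r) (j : Fin (n + 1)) => evp y (MvPolynomial.pderiv j (P i))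

/-- Irreducible closed subsets of `Y`. -/
def Irr {n : ℕ} (Y W : Set (PS n)) : Prop :=
  ZC Y W ∧ W.Nonempty ∧ ∀ A B, ZC Y A → ZC Y B → W ⊆ A ∪ B → W ⊆ A ∨ W ⊆ B

/-- `Z` has codimension at least `k` in `Y`: every irreducible closed subset `W` of `Z` is the
first term of a chain `W = W_0 ⊊ W_1 ⊊ ⋯ ⊊ W_k` of irreducible closed subsets of `Y`. -/
def CodimGE {n : ℕ} (Y Z : Set (PS n)) (k : ℕ) : Prop :=
  ∀ W ⊆ Z, Irr Y W → ∃ C : Fin (k + 1) → Set (PS n), C 0 = W ∧ (∀ i, Irr Y (C i)) ∧
    ∀ i : Fin k, C i.castSucc ⊂ C i.succ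

/-- The map `f` is regular on `Y`: locally it is given by homogeneous polynomials of the same
degree. -/
def RegularOn {n m : ℕ} (Y : Set (PS n)) (f : PS n → PS m) : Prop :=
  ∀ y ∈ Y, ∃ (d : ℕ) (F : Fin (m + 1) → Pol n), (∀ j, (F j).IsHomogeneous d) ∧
    (fun j => evp y (F j)) ≠ 0 ∧
    ∀ z ∈ Y, ∀ h : (fun j => evp z (F j)) ≠ 0, f z = Projectivization.mk ℂ (fun j => evp z (F j)) h

/-! ## Torsors under the mapping class group over quasi-projective varieties -/

/-- The level 5 subgroup of the mapping class group: the classes of the automorphisms of `PiG g`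
acting trivially on `H¹(Σ_g; ℤ/5)`, the group of the homomorphisms `PiG g → ℤ/5`. The quotient of
`Gam g` by this subgroup is the group `Sp_{2g}(ℤ/5)`. -/
def InLev {g : ℕ} (γ : Gam g) : Prop :=
  ∃ φ : AutT g, φ.cls = γ ∧
    ∀ s : PiG g → ZMod 5, (∀ x y, s (x * y) = s x + s y) → ∀ x, s (φ.ap x) = s x

/-- A torsor `M → T` under the mapping class group `Gam g` over (the space of complex points of) a
complex variety `T`, together with an algebraic structure: the intermediate covering `Y` of `T`, the
quotient of `M` by the level 5 subgroup, which is Galois with the finite group `G = Sp_{2g}(ℤ/5)`,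
is a quasi-projective variety on which `G` acts (freely) by algebraic automorphisms. So `T = Y / G`
as a variety. (By Riemann's existence theorem the finite covering `Y → T` of a quasi-projective
variety `T` always has such a structure.) -/
structure Torsor (g : ℕ) where
  /-- the base -/
  T : Type
  [topT : TopologicalSpace T]
  /-- the total space of the torsor -/
  M : Type
  [topM : TopologicalSpace M]
  /-- the action of the mapping class group on `M` -/
  sm : Gam g → M → M
  sm_one : ∀ m, sm 1 m = m
  sm_mul : ∀ γ γ' m, sm (γ * γ') m = sm γ (sm γ' m)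
  sm_cont : ∀ γ, Continuous (sm γ)
  sm_free : ∀ γ m, sm γ m = m → γ = 1
  /-- the covering `M → T`, whose fibres are the orbits of the mapping class group -/
  p : C(M, T)
  cov : IsCoveringMap p
  surj : Function.Surjective p
  orbit : ∀ m m', p m = p m' ↔ ∃ γ, sm γ m = m'
  /-- dimension of the ambient projective space -/
  n : ℕ
  /-- the quasi-projective variety `Y` -/
  Y : Set (PS n)
  qproj : QProj Y
  /-- the quotient map `M → Y` for the action of the level 5 subgroup -/
  q : M → PS n
  q_mem : ∀ m, q m ∈ Y
  /-- `Y` has the quotient topology (for the classical topology of projective space) -/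
  q_quot : Topology.IsQuotientMap fun m => (⟨q m, q_mem m⟩ : Y)
  q_orbit : ∀ m m', q m = q m' ↔ ∃ γ, InLev γ ∧ sm γ m = m'
  /-- the action of the mapping class group on `Y` -/
  act : Gam g → PS n → PS n
  act_mem : ∀ γ, ∀ y ∈ Y, act γ y ∈ Y
  act_reg : ∀ γ, RegularOn Y (act γ)
  act_q : ∀ γ m, q (sm γ m) = act γ (q m)

attribute [instance] Torsor.topT Torsor.topM

/-- The pull back to `T` of the class in `H^{d+1}(Gam g; ℤ)` of the homogeneous cocycle `x` vanishes
on the complement `T \ (Z / G)` of a closed algebraic subset of codimension at least `k`.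

The pull back is the classifying map `H^{d+1}(Gam g; ℤ) → H^{d+1}(T; ℤ)` of the torsor, at the level
of singular cochains: it sends `x` to the cochain whose value at the projection of the singular
simplex `σ` of `M` is `x (u (σ v_0), …, u (σ v_{d+1}))`, `v_i` the vertices of the standard simplex,
where `u : M → Gam g` is any equivariant map (every singular simplex of `T` is the projection
of a singular simplex of `M`, unique up to `Gam g`). The cochain `e` is a singular cochain of
`T \ (Z / G)` (its values at the other simplices of `T` do not matter). -/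
def DiesOff (k : ℕ) {g : ℕ} (L : Torsor g) {d : ℕ} (x : (Fin (d + 2) → Gam g) → ℤ) : Prop :=
  ∀ u : L.M → Gam g, (∀ γ m, u (L.sm γ m) = γ * u m) →
    ∃ Z : Set (PS L.n), ZC L.Y Z ∧ (∀ γ, ∀ y ∈ Z, L.act γ y ∈ Z) ∧ CodimGE L.Y Z k ∧
      ∃ e : Sx L.T d → ℤ, ∀ σ : Sx L.M (d + 1), (∀ t, L.q (σ t) ∉ Z) →
        x (fun i => u (σ (stdSimplex.vertex i))) =
          ∑ i : Fin (d + 2), (-1) ^ (i : ℕ) * e (fc i (L.p.comp σ))

/-! ## Families of curves -/

/-- Polynomials in the homogeneous coordinates of `PS n × PS m`. -/
abbrev BPol (n m : ℕ) : Type := MvPolynomial (Fin (n + 1) ⊕ Fin (m + 1)) ℂ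

/-- Bihomogeneous polynomials of bidegree `(a, b)`. -/
def Bihom {n m : ℕ} (a b : ℕ) (P : BPol n m) : Prop :=
  P.IsWeightedHomogeneous (Sum.elim (fun _ => 1) (fun _ => 0)) a ∧
    P.IsWeightedHomogeneous (Sum.elim (fun _ => 0) (fun _ => 1)) b

/-- The value of a polynomial at (chosen homogeneous coordinates of) a point of `PS n × PS m`. -/
noncomputable def ev {n m : ℕ} (y : PS n) (z : PS m) (P : BPol n m) : ℂ :=
  MvPolynomial.eval (Sum.elim y.rep z.rep) P

/-- The fibre over `y` of the closed algebraic subset of `PS n × PS m` given by bihomogeneous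
equations. -/
def Fib {n m : ℕ} (I : Set (BPol n m)) (y : PS n) : Set (PS m) := {z | ∀ P ∈ I, ev y z P = 0}

/-- The closed subset of `Y × PS (N + 1)` given by `I` is smooth of relative dimension 1 over `Y`:
locally it is given by `N` bihomogeneous equations whose differentials in the direction of the fibre
are linearly independent. -/
def RelSmooth {n N : ℕ} (Y : Set (PS n)) (I : Set (BPol n (N + 1))) : Prop :=
  ∀ y ∈ Y, ∀ z ∈ Fib I y, ∃ (P : Fin N → BPol n (N + 1)) (Q : BPol n (N + 1)),
    (∀ i, ∃ a b, Bihom a b (P i)) ∧ (∃ a b, Bihom a b Q) ∧ ev y z Q ≠ 0 ∧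
    (∀ y' ∈ Y, ∀ z', ev y' z' Q ≠ 0 → (z' ∈ Fib I y' ↔ ∀ i, ev y' z' (P i) = 0)) ∧
    LinearIndependent ℂ fun (i : Fin N) (j : Fin (N + 1 + 1)) =>
      ev y z (MvPolynomial.pderiv (Sum.inr j) (P i))

/-- The map `(y, z) ↦ f y z` from the closed subset of `Y × PS m` given by `I` to `PS m` is regular:
locally it is given by bihomogeneous polynomials of the same bidegree. -/
def RelRegular {n m : ℕ} (Y : Set (PS n)) (I : Set (BPol n m)) (f : PS n → PS m → PS m) : Prop :=
  ∀ y ∈ Y, ∀ z ∈ Fib I y, ∃ (a b : ℕ) (F : Fin (m + 1) → BPol n m),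
    (∀ j, Bihom a b (F j)) ∧ (fun j => ev y z (F j)) ≠ 0 ∧
    ∀ y' ∈ Y, ∀ z' ∈ Fib I y', ∀ h : (fun j => ev y' z' (F j)) ≠ 0,
      f y' z' = Projectivization.mk ℂ (fun j => ev y' z' (F j)) h

/-- The points of a subset of projective space, with the classical topology. -/
abbrev Pt {m : ℕ} (F : Set (PS m)) : Type := F

noncomputable instance Pt.top {m : ℕ} (F : Set (PS m)) : TopologicalSpace (Pt F) :=
  instTopologicalSpaceSubtype

/-- Homotopy classes of paths in `F` from `x` to `y`. -/
def PC {m : ℕ} {F : Set (PS m)} (x y : Pt F) : Type := Path.Homotopic.Quotient x y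

/-- Composition of (classes of) paths. -/
noncomputable def PC.tr {m : ℕ} {F : Set (PS m)} {x y z : Pt F} (p : PC x y) (q : PC y z) :
    PC x z := Path.Homotopic.Quotient.trans p q

/-- The image of a (class of) path under a continuous map. -/
noncomputable def PC.mp {m : ℕ} {F F' : Set (PS m)} {x y : Pt F} (p : PC x y)
    (f : C(Pt F, Pt F')) : PC (f x) (f y) := Path.Homotopic.Quotient.map p f

/-- A marking of a subset `F` of projective space (a curve): an isomorphism of the surface group with
the fundamental group of `F`, for some base point. -/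
structure Marking (g : ℕ) {m : ℕ} (F : Set (PS m)) where
  /-- the base point -/
  base : Pt F
  /-- the isomorphism -/
  iso : PiG g → PC base base
  bij : Function.Bijective iso
  hom : ∀ a b, iso (a * b) = (iso a).tr (iso b)

/-- The marking `ν` of `F'` corresponds to the marking `μ` of `F` under the continuous map
`h : F → F'` and the automorphism `α` of `PiG g`: `h_* ∘ μ` and `ν ∘ α` are equal up to a path `δ`
between the base points. -/
def MRel {g m : ℕ} {F F' : Set (PS m)} (h : PS m → PS m) (α : PiG g → PiG g) (μ : Marking g F)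
    (ν : Marking g F') : Prop :=
  ∃ f : C(Pt F, Pt F'), (∀ z, (f z : PS m) = h z) ∧
    ∃ δ : PC (f μ.base) ν.base, ∀ a : PiG g, ((μ.iso a).mp f).tr δ = δ.tr (ν.iso (α a))

/-- `h` is a trivialisation of the family `F t`, `0 ≤ t ≤ 1`, of closed subsets of projective
space: `h t` is a homeomorphism from `F 0` to `F t` depending continuously on `t`, and `h 0` is the
identity. -/
def IsTriv {m : ℕ} (F : unitInterval → Set (PS m)) (h : unitInterval → PS m → PS m) : Prop :=
  (∀ z ∈ F 0, h 0 z = z) ∧ (∀ t, Set.BijOn (h t) (F 0) (F t)) ∧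
    ContinuousOn (fun p : unitInterval × PS m => h p.1 p.2) (Set.univ ×ˢ F 0)

/-- A family of smooth projective curves of genus `g` over `Y` with an algebraic action of
`G = Sp_{2g}(ℤ/5)` lifting the action on `Y` (equivalently, by descent, a family over `T = Y / G`),
such that `M → T` is the torsor of (isotopy classes of) markings of the curves of the family.
(The markings may be orientation preserving or orientation reversing, depending on the connected
component of `T`. Reversing markings amount to passing to the complex conjugate family, and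
`AH^k(𝓜_g)` is stable under complex conjugation, so allowing them does not change `InAH`.) -/
structure Family {g : ℕ} (L : Torsor g) where
  /-- the curves are embedded in the projective space of dimension `N + 1` -/
  N : ℕ
  /-- the equations of the family, which is closed in `Y × PS (N + 1)`; the curve over `y` is
  `Fib I y` -/
  I : Set (BPol L.n (N + 1))
  bihom : ∀ P ∈ I, ∃ a b, Bihom a b P
  /-- the family is smooth of relative dimension 1 -/
  smooth : RelSmooth L.Y I
  /-- the curves are connected -/
  conn : ∀ y ∈ L.Y, IsConnected (Fib I y)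
  /-- the isomorphism `iso γ y` from the curve over `y` to the curve over `γ y` -/
  iso : Gam g → PS L.n → PS (N + 1) → PS (N + 1)
  iso_mem : ∀ γ : Gam g, ∀ y ∈ L.Y, ∀ z ∈ Fib I y, iso γ y z ∈ Fib I (L.act γ y)
  iso_lev : ∀ γ : Gam g, InLev γ → ∀ y ∈ L.Y, ∀ z ∈ Fib I y, iso γ y z = z
  iso_mul : ∀ γ γ' : Gam g, ∀ y ∈ L.Y, ∀ z ∈ Fib I y,
    iso (γ * γ') y z = iso γ (L.act γ' y) (iso γ' y z)
  iso_reg : ∀ γ : Gam g, RelRegular L.Y I (iso γ)
  /-- the marking of the curve over `q m` given by a point `m` of `M` -/
  mark : ∀ m : L.M, Marking g (Fib I (L.q m))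
  /-- compatibility with the action of the mapping class group: the marking given by `γ • m` is
  `(iso γ)_* ∘ (marking given by m) ∘ γ⁻¹`, for `γ` the class of `φ` -/
  mark_act : ∀ (φ : AutT g) (m : L.M),
    MRel (iso φ.cls (L.q m)) φ.ap (mark m) (mark (L.sm φ.cls m))
  /-- the markings are locally constant: along a path in `M` they correspond to each other under
  trivialisations of the family of curves over this path -/
  mark_cont : ∀ (δ : C(unitInterval, L.M)) (h : unitInterval → PS (N + 1) → PS (N + 1)),
    IsTriv (fun t => Fib I (L.q (δ t))) h → MRel (h 1) id (mark (δ 0)) (mark (δ 1))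

/-- `AH^k(𝓜_g)`, the image of the integral cycle map of the stack `𝓜_g`: the class of the
homogeneous cocycle `x` of degree `2k` on the mapping class group `Gam g` belongs to it iff for every
family of curves of genus `g` over a smooth quasi-projective variety `T` the pull back of the class
to `H^{2k}(T; ℤ)` vanishes on the complement of a closed algebraic subset of codimension at least
`k`. (Here `d + 1 = 2 k`, as is necessary for the equivalence explained below; for arbitrary `d` this
is the coniveau filtration `N^k H^{d+1}`.)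

Indeed, for smooth `T` the image of the cycle map `CH^k(T) → H^{2k}(T; ℤ)` is the
group of the classes that vanish on the complement of a closed subset `Z` of codimension at least
`k`, as `H^{2k}_Z(T; ℤ)` is the free group on the components of `Z` of codimension `k`; and by
definition (Edidin–Graham) `CH^k(𝓜_g)` is `CH^k(T)` for `T = (M_g[5] × U) / Sp_{2g}(ℤ/5)`, the
approximations of the quotient stack `𝓜_g = [M_g[5] / Sp_{2g}(ℤ/5)]`, `M_g[5]` the fine moduli space
of curves with level 5 structure; these `T` are covered by `Y = M_g[5] × U`. Conversely algebraic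
classes of `𝓜_g` pull back to algebraic classes on all smooth `T`. -/
def InAH (k : ℕ) {g d : ℕ} (x : (Fin (d + 2) → Gam g) → ℤ) : Prop :=
  ∀ L : Torsor g, Smooth L.Y → Nonempty (Family L) → DiesOff k L x

end MP590
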