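import Pool.Agent.Lib.MP_ab96eb_gt.Statement
import Pool.Agent.Lib.MP_00590d_ag.Statement
import Pool.Agent.Lib.MP_00590d_ag.CapStab

set_option autoImplicit false

/-!
# MP_00590d_ag : the definitions used in the proofs

They are variants, with subtypes and subgroups, of the definitions of `Statement.lean`.
-/

namespace MP590

open MPb00168 TCMM

/-- Regular maps to projective space: locally given by homogeneous polynomials of the same
degree. -/
def Regular {n m : ℕ} {Y : Set (PS n)} (f : Y → PS m) : Prop :=
  ∀ y : Y, ∃ (d : ℕ) (F : Fin (m + 1) → Pol n), (∀ j, (F j).IsHomogeneous d) ∧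
    (fun j => MvPolynomial.eval (y : PS n).rep (F j)) ≠ 0 ∧
    ∀ (z : Y) (h : (fun j => MvPolynomial.eval (z : PS n).rep (F j)) ≠ 0),
      f z = Projectivization.mk ℂ (fun j => MvPolynomial.eval (z : PS n).rep (F j)) h

/-- `H¹(Σ_g; ℤ/5)`, as the group of homomorphisms `PiG g → ℤ/5`. -/
abbrev SS (g : ℕ) : Type := PiG g →* Multiplicative (ZMod 5)

/-- The orientation preserving automorphisms of `PiG g` acting trivially on `H¹(Σ_g; ℤ/5)`. -/
def LevA (g : ℕ) : Subgroup (AutP g) where
  carrier := {φ | ∀ s : SS g, s.comp (φ : MulAut (PiG g)).toMonoidHom = s}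
  one_mem' := fun _ => rfl
  mul_mem' := by
    intro φ ψ hφ hψ s
    have h : (s.comp (φ : MulAut (PiG g)).toMonoidHom).comp (ψ : MulAut (PiG g)).toMonoidHom =
        s := by rw [hφ s, hψ s]
    exact h
  inv_mem' := by
    intro φ hφ s
    have h := congrArg (fun f : SS g => f.comp ((φ⁻¹ : AutP g) : MulAut (PiG g)).toMonoidHom)
      (hφ s)
    refine h.symm.trans ?_
    ext x
    simp

/-- The level 5 subgroup of the mapping class group: the kernel of the action on `H¹(Σ_g; ℤ/5)`.
The quotient `Gam g ⧸ Lev g` is the group `Sp_{2g}(ℤ/5)`. -/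
def Lev (g : ℕ) : Subgroup (Gam g) := (LevA g).map (QuotientGroup.mk' (Inn g))

/-- A torsor `M → T` under the mapping class group `Gam g` over (the space of complex points of) a
complex variety `T`, together with an algebraic structure: the intermediate covering
`Y = M / Lev g` of `T`, which is Galois with the finite group `G = Gam g ⧸ Lev g = Sp_{2g}(ℤ/5)`,
is a quasi-projective variety on which `G` acts (freely) by algebraic automorphisms. So `T = Y / G`
as a variety. (By Riemann's existence theorem the finite covering `Y → T` of a quasi-projective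
variety `T` always has such a structure.) -/
structure Tors (g : ℕ) where
  /-- the base -/
  T : Type
  [topT : TopologicalSpace T]
  /-- the torsor -/
  M : GCov (Gam g) T
  /-- dimension of the ambient projective space -/
  n : ℕ
  /-- the quasi-projective variety `Y` -/
  Y : Set (PS n)
  qproj : QProj Y
  /-- the quotient map `M → Y = M / Lev g`, for the classical topologies -/
  q : M.T → Y
  q_quot : Topology.IsQuotientMap q
  q_orbit : ∀ m m' : M.T, q m = q m' ↔ ∃ γ ∈ Lev g, γ • m = m'
  /-- the action of the mapping class group (through the quotient by `Lev g`) on `Y` -/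
  act : Gam g → Y → Y
  act_reg : ∀ γ, Regular fun y => (act γ y : PS n)
  act_q : ∀ (γ : Gam g) (m : M.T), q (γ • m) = act γ (q m)

attribute [instance] Tors.topT

/-- The pull back to `T` of the class in `H^{d+1}(Gam g; ℤ)` of the homogeneous cocycle `x` vanishes
on the complement `T \ (Z / G)` of a closed algebraic subset of codimension at least `k`.

The pull back is the classifying map `H^{d+1}(Gam g; ℤ) → H^{d+1}(T; ℤ)` of the torsor, at the level
of singular cochains: it sends `x` to the cochain whose value at the projection of the singular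
simplex `σ` of `M` is `x (u (σ v_0), …, u (σ v_{d+1}))`, `v_i` the vertices of the standard simplex,
where `u : M → Gam g` is any equivariant map (every singular simplex of `T` is the projection
of a singular simplex of `M`, unique up to `Gam g`). The cochain `e` is a singular cochain of
`T \ (Z / G)` (its values at the other simplices of `T` do not matter). -/
def DiesOffO (k : ℕ) {g : ℕ} (L : Tors g) {d : ℕ} (x : (Fin (d + 2) → Gam g) → ℤ) : Prop :=
  ∀ u : L.M.T → Gam g, (∀ (γ : Gam g) (m : L.M.T), u (γ • m) = γ * u m) →
    ∃ Z : Set (PS L.n), ZC L.Y Z ∧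
      (∀ (γ : Gam g) (y : L.Y), (y : PS L.n) ∈ Z → (L.act γ y : PS L.n) ∈ Z) ∧
      CodimGE L.Y Z k ∧
      ∃ e : Sing L.T d → ℤ, ∀ σ : Sing L.M.T (d + 1), (∀ t, (L.q (σ t) : PS L.n) ∉ Z) →
        x (fun i => u (σ (stdSimplex.vertex i))) =
          ∑ i : Fin (d + 2), (-1) ^ (i : ℕ) * e (face i (L.M.p.comp σ))

end MP590
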