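import Pool.Agent.Lib.MP_00590d_ag.Spec

set_option autoImplicit false

/-!
# MP_00590d_ag : homogeneous polynomials on projective space, ZTOP, ZCONT, INTERP
-/

namespace MP590

open MPb00168 TCMM

/-! ## Values of homogeneous polynomials -/

lemma eval_smul_hom {n d : ℕ} {P : Pol n} (hP : P.IsHomogeneous d) (c : ℂ)
    (v : Fin (n + 1) → ℂ) :
    MvPolynomial.eval (c • v) P = c ^ d * MvPolynomial.eval v P := by
  rw [MvPolynomial.eval_eq, MvPolynomial.eval_eq, Finset.mul_sum]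
  refine Finset.sum_congr rfl fun m hm => ?_
  have hdeg := hP.degree_eq_sum_deg_support hm
  simp only [Pi.smul_apply, smul_eq_mul, mul_pow, Finset.prod_mul_distrib]
  rw [Finset.prod_pow_eq_pow_sum]
  have : ∑ i ∈ m.support, m i = d := hdeg.symm
  rw [this]
  ring

/-- The coordinates of a point are proportional to the chosen ones. -/
lemma exists_rep_eq {n : ℕ} (v : Fin (n + 1) → ℂ) (hv : v ≠ 0) :
    ∃ c : ℂ, c ≠ 0 ∧ (Projectivization.mk ℂ v hv).rep = c • v := by
  obtain ⟨a, ha⟩ := Projectivization.exists_smul_eq_mk_rep ℂ v hv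
  exact ⟨a, a.ne_zero, ha.symm⟩

lemma eval_rep_mk_eq_zero {n d : ℕ} {P : Pol n} (hP : P.IsHomogeneous d)
    (v : Fin (n + 1) → ℂ) (hv : v ≠ 0) :
    MvPolynomial.eval (Projectivization.mk ℂ v hv).rep P = 0 ↔ MvPolynomial.eval v P = 0 := by
  obtain ⟨c, hc, h⟩ := exists_rep_eq v hv
  rw [h, eval_smul_hom hP, mul_eq_zero]
  constructor
  · rintro (h | h)
    · exact absurd h (pow_ne_zero _ hc)
    · exact h
  · exact Or.inr

lemma eval_rep_mk_div {n d : ℕ} {P Q : Pol n} (hP : P.IsHomogeneous d) (hQ : Q.IsHomogeneous d)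
    (v : Fin (n + 1) → ℂ) (hv : v ≠ 0) :
    MvPolynomial.eval (Projectivization.mk ℂ v hv).rep P /
        MvPolynomial.eval (Projectivization.mk ℂ v hv).rep Q =
      MvPolynomial.eval v P / MvPolynomial.eval v Q := by
  obtain ⟨c, hc, h⟩ := exists_rep_eq v hv
  rw [h, eval_smul_hom hP, eval_smul_hom hQ, mul_div_mul_left _ _ (pow_ne_zero _ hc)]

/-! ## Zariski closed sets -/

lemma zc_of_forall {n : ℕ} {Y A : Set (PS n)} (hA : A ⊆ Y)
    (h : ∀ y ∈ Y, y ∉ A → ∃ (H : Pol n) (d : ℕ), H.IsHomogeneous d ∧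
      (∀ z ∈ A, MvPolynomial.eval z.rep H = 0) ∧ MvPolynomial.eval y.rep H ≠ 0) : ZC Y A := by
  refine ⟨hA, {H | (∃ d, H.IsHomogeneous d) ∧ ∀ z ∈ A, MvPolynomial.eval z.rep H = 0},
    fun P hP => hP.1, fun y hy => ⟨fun hyA P hP => hP.2 y hyA, fun hall => ?_⟩⟩
  by_contra hyA
  obtain ⟨H, d, h1, h2, h3⟩ := h y hy hyA
  exact h3 (hall H ⟨⟨d, h1⟩, h2⟩)

lemma ZC.exists_of_notMem {n : ℕ} {Y A : Set (PS n)} (hA : ZC Y A) {y : PS n} (hy : y ∈ Y)
    (hyA : y ∉ A) : ∃ (H : Pol n) (d : ℕ), H.IsHomogeneous d ∧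
      (∀ z ∈ A, MvPolynomial.eval z.rep H = 0) ∧ MvPolynomial.eval y.rep H ≠ 0 := by
  obtain ⟨hAY, I, hI, h⟩ := hA
  by_contra hcon
  refine hyA ((h y hy).2 fun P hP => ?_)
  by_contra hne
  obtain ⟨d, hd⟩ := hI P hP
  exact hcon ⟨P, d, hd, fun z hz => (h z (hAY hz)).1 hz P hP, hne⟩

lemma zc_empty {n : ℕ} (Y : Set (PS n)) : ZC Y ∅ :=
  zc_of_forall (Set.empty_subset _) fun _ _ _ =>
    ⟨1, 0, MvPolynomial.isHomogeneous_one _ _, fun z hz => absurd hz (Set.notMem_empty z), by simp⟩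

lemma zc_self {n : ℕ} (Y : Set (PS n)) : ZC Y Y :=
  zc_of_forall subset_rfl fun _ hy hy' => absurd hy hy'

lemma ZC.union {n : ℕ} {Y A B : Set (PS n)} (hA : ZC Y A) (hB : ZC Y B) : ZC Y (A ∪ B) := by
  refine zc_of_forall (Set.union_subset hA.1 hB.1) fun y hy hyAB => ?_
  obtain ⟨H, d, h1, h2, h3⟩ := hA.exists_of_notMem hy fun h => hyAB (Or.inl h)
  obtain ⟨H', d', h1', h2', h3'⟩ := hB.exists_of_notMem hy fun h => hyAB (Or.inr h)
  refine ⟨H * H', d + d', h1.mul h1', fun z hz => ?_, ?_⟩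
  · rcases hz with hz | hz
    · rw [map_mul, h2 z hz, zero_mul]
    · rw [map_mul, h2' z hz, mul_zero]
  · rw [map_mul]
    exact mul_ne_zero h3 h3'

lemma ZC.iInter {n : ℕ} {Y : Set (PS n)} {ι : Type*} [Nonempty ι] {A : ι → Set (PS n)}
    (hA : ∀ i, ZC Y (A i)) : ZC Y (⋂ i, A i) := by
  refine zc_of_forall ?_ fun y hy hyA => ?_
  · intro y hy
    exact (hA (Classical.arbitrary ι)).1 (Set.mem_iInter.1 hy _)
  · rw [Set.mem_iInter, not_forall] at hyA
    obtain ⟨i, hi⟩ := hyA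
    obtain ⟨H, d, h1, h2, h3⟩ := (hA i).exists_of_notMem hy hi
    exact ⟨H, d, h1, fun z hz => h2 z (Set.mem_iInter.1 hz i), h3⟩

lemma ZC.inter {n : ℕ} {Y A B : Set (PS n)} (hA : ZC Y A) (hB : ZC Y B) : ZC Y (A ∩ B) := by
  have h := ZC.iInter (ι := Bool) (A := fun b => if b then A else B)
    (fun b => by cases b <;> simpa)
  have e : (⋂ b : Bool, if b then A else B) = A ∩ B := by
    ext y
    simp [Set.mem_iInter, and_comm]
  rwa [e] at h

lemma ZC.biUnion {n : ℕ} {Y : Set (PS n)} {ι : Type*} (s : Finset ι) {A : ι → Set (PS n)}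
    (hA : ∀ i ∈ s, ZC Y (A i)) : ZC Y (⋃ i ∈ s, A i) := by
  classical
  induction s using Finset.induction_on with
  | empty => simpa using zc_empty Y
  | insert i s hi ih =>
    rw [Finset.set_biUnion_insert]
    exact (hA i (Finset.mem_insert_self _ _)).union
      (ih fun j hj => hA j (Finset.mem_insert_of_mem hj))

lemma ZC.iUnion {n : ℕ} {Y : Set (PS n)} {ι : Type*} [Fintype ι] {A : ι → Set (PS n)}
    (hA : ∀ i, ZC Y (A i)) : ZC Y (⋃ i, A i) := by
  simpa using ZC.biUnion Finset.univ fun i _ => hA i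

/-! ## Noetherian -/

/-- The homogeneous ideal of a set. -/
noncomputable def vI {n : ℕ} (A : Set (PS n)) : Ideal (Pol n) :=
  Ideal.span {H | (∃ d, H.IsHomogeneous d) ∧ ∀ z ∈ A, MvPolynomial.eval z.rep H = 0}

lemma vI_eval {n : ℕ} {A : Set (PS n)} {H : Pol n} (hH : H ∈ vI A) {z : PS n} (hz : z ∈ A) :
    MvPolynomial.eval z.rep H = 0 := by
  have h : vI A ≤ RingHom.ker (MvPolynomial.eval z.rep) := by
    refine Ideal.span_le.2 fun P hP => ?_
    exact hP.2 z hz
  exact h hH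

lemma vI_lt {n : ℕ} {Y A B : Set (PS n)} (hA : ZC Y A) (hB : ZC Y B) (h : A ⊂ B) :
    vI B < vI A := by
  refine lt_of_le_of_ne (Ideal.span_mono fun H hH => ⟨hH.1, fun z hz => hH.2 z (h.1 hz)⟩) ?_
  intro he
  obtain ⟨y, hyB, hyA⟩ := Set.not_subset.1 h.2
  obtain ⟨H, d, h1, h2, h3⟩ := hA.exists_of_notMem (hB.1 hyB) hyA
  have hH : H ∈ vI A := Ideal.subset_span ⟨⟨d, h1⟩, h2⟩
  rw [← he] at hH
  exact h3 (vI_eval hH hyB)

lemma zc_wf {n : ℕ} (Y : Set (PS n)) :
    WellFounded fun A B : {A : Set (PS n) // ZC Y A} => A.1 ⊂ B.1 := by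
  have h : WellFounded fun I J : Ideal (Pol n) => J < I := wellFounded_gt
  refine Subrelation.wf ?_ (InvImage.wf (fun A : {A : Set (PS n) // ZC Y A} => vI A.1) h)
  intro A B hAB
  exact vI_lt A.2 B.2 hAB

lemma zc_decomp {n : ℕ} (Y : Set (PS n)) (A : Set (PS n)) (hA : ZC Y A) :
    ∃ S : Finset (Set (PS n)), (∀ W ∈ S, Irr Y W) ∧ A = ⋃ W ∈ S, W := by
  classical
  have key : ∀ A : {A : Set (PS n) // ZC Y A},
      ∃ S : Finset (Set (PS n)), (∀ W ∈ S, Irr Y W) ∧ A.1 = ⋃ W ∈ S, W := by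
    intro A
    induction A using (zc_wf Y).induction with
    | _ A ih =>
      by_cases hne : A.1.Nonempty
      · by_cases hirr : Irr Y A.1
        · refine ⟨{A.1}, fun W hW => ?_, by simp⟩
          rw [Finset.mem_singleton] at hW
          rwa [hW]
        · have : ∃ B C, ZC Y B ∧ ZC Y C ∧ A.1 ⊆ B ∪ C ∧ ¬ A.1 ⊆ B ∧ ¬ A.1 ⊆ C := by
            by_contra hcon
            refine hirr ⟨A.2, hne, fun B C hB hC hBC => ?_⟩
            by_contra hor
            rw [not_or] at hor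
            exact hcon ⟨B, C, hB, hC, hBC, hor.1, hor.2⟩
          obtain ⟨B, C, hB, hC, hBC, hAB, hAC⟩ := this
          obtain ⟨S, hS, hS'⟩ := ih ⟨A.1 ∩ B, A.2.inter hB⟩
            ⟨Set.inter_subset_left, fun h => hAB fun y hy => (h hy).2⟩
          obtain ⟨S', hS1, hS1'⟩ := ih ⟨A.1 ∩ C, A.2.inter hC⟩
            ⟨Set.inter_subset_left, fun h => hAC fun y hy => (h hy).2⟩
          refine ⟨S ∪ S', fun W hW => ?_, ?_⟩
          · rcases Finset.mem_union.1 hW with h | h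
            · exact hS W h
            · exact hS1 W h
          · rw [Finset.set_biUnion_union, ← hS', ← hS1']
            change A.1 = A.1 ∩ B ∪ A.1 ∩ C
            rw [← Set.inter_union_distrib_left]
            exact (Set.inter_eq_left.2 hBC).symm
      · refine ⟨∅, by simp, ?_⟩
        rw [Set.not_nonempty_iff_eq_empty] at hne
        simp [hne]
  exact key ⟨A, hA⟩

theorem specZTop : SpecZTop := by
  intro n Y
  refine ⟨zc_empty Y, zc_self Y, fun A B => ZC.union, fun ι _ A => ZC.iInter, fun A hA => ?_⟩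
  obtain ⟨S, hS, hA'⟩ := zc_decomp Y A hA
  refine ⟨S.card, fun i => (S.equivFin.symm i : Set (PS n)), fun i => hS _ (Subtype.prop _), ?_⟩
  rw [hA']
  ext y
  simp only [Set.mem_iUnion]
  constructor
  · rintro ⟨W, hW, hy⟩
    exact ⟨S.equivFin ⟨W, hW⟩, by simpa using hy⟩
  · rintro ⟨i, hy⟩
    exact ⟨_, Subtype.prop _, hy⟩

/-! ## The classical topology -/

lemma continuous_eval_pol {n : ℕ} (P : Pol n) :
    Continuous fun v : Fin (n + 1) → ℂ => MvPolynomial.eval v P :=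
  MvPolynomial.continuous_eval P

/-- The quotient map to projective space. -/
noncomputable def qm (n : ℕ) (v : {v : Fin (n + 1) → ℂ // v ≠ 0}) : PS n :=
  Projectivization.mk ℂ v.1 v.2

lemma qm_quot (n : ℕ) : Topology.IsQuotientMap (qm n) := by
  refine ⟨⟨rfl⟩, fun z => ⟨⟨z.rep, z.rep_nonzero⟩, Projectivization.mk_rep z⟩⟩

lemma isClosed_zero {n d : ℕ} {P : Pol n} (hP : P.IsHomogeneous d) :
    IsClosed {y : PS n | MvPolynomial.eval y.rep P = 0} := by
  rw [← (qm_quot n).isClosed_preimage]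
  have e : qm n ⁻¹' {y : PS n | MvPolynomial.eval y.rep P = 0} =
      {v | MvPolynomial.eval v.1 P = 0} := by
    ext v
    exact eval_rep_mk_eq_zero hP v.1 v.2
  rw [e]
  exact isClosed_eq ((continuous_eval_pol P).comp continuous_subtype_val) continuous_const

theorem specZCont : SpecZCont := by
  intro n
  refine ⟨fun Y A hA => ?_, fun d P Q hP hQ => ?_⟩
  · obtain ⟨hAY, I, hI, h⟩ := hA
    have e : {y : Y | (y : PS n) ∈ A} =
        ⋂ P : I, Subtype.val ⁻¹' {y : PS n | MvPolynomial.eval y.rep P.1 = 0} := by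
      ext y
      simp only [Set.mem_ofPred_eq, Set.mem_iInter, Set.mem_preimage, Subtype.forall]
      exact h y.1 y.2
    rw [e]
    refine isClosed_iInter fun P => ?_
    obtain ⟨d, hd⟩ := hI P.1 P.2
    exact (isClosed_zero hd).preimage continuous_subtype_val
  · have ho : IsOpen {y : PS n | MvPolynomial.eval y.rep Q ≠ 0} :=
      (isClosed_zero hQ).isOpen_compl
    rw [(qm_quot n).continuousOn_isOpen_iff ho]
    have hc : ContinuousOn (fun v : {v : Fin (n + 1) → ℂ // v ≠ 0} =>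
        MvPolynomial.eval v.1 P / MvPolynomial.eval v.1 Q)
        (qm n ⁻¹' {y : PS n | MvPolynomial.eval y.rep Q ≠ 0}) := by
      refine ContinuousOn.div ?_ ?_ ?_
      · exact ((continuous_eval_pol P).comp continuous_subtype_val).continuousOn
      · exact ((continuous_eval_pol Q).comp continuous_subtype_val).continuousOn
      · intro v hv h0
        exact hv ((eval_rep_mk_eq_zero hQ v.1 v.2).2 h0)
    refine hc.congr fun v _ => ?_
    exact eval_rep_mk_div hP hQ v.1 v.2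

/-! ## Interpolation -/

/-- The linear form `x_i b_j - x_j b_i`. -/
noncomputable def lf {n : ℕ} (b : Fin (n + 1) → ℂ) (i j : Fin (n + 1)) : Pol n :=
  MvPolynomial.C (b j) * MvPolynomial.X i - MvPolynomial.C (b i) * MvPolynomial.X j

lemma lf_hom {n : ℕ} (b : Fin (n + 1) → ℂ) (i j : Fin (n + 1)) : (lf b i j).IsHomogeneous 1 :=
  (MvPolynomial.isHomogeneous_C_mul_X _ _).sub (MvPolynomial.isHomogeneous_C_mul_X _ _)

lemma exists_lf {n : ℕ} (b b' : PS n) (h : b ≠ b') :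
    ∃ ℓ : Pol n, ℓ.IsHomogeneous 1 ∧ MvPolynomial.eval b'.rep ℓ = 0 ∧
      MvPolynomial.eval b.rep ℓ ≠ 0 := by
  by_contra hcon
  have key : ∀ i j, b'.rep j * b.rep i = b'.rep i * b.rep j := by
    intro i j
    by_contra hne
    refine hcon ⟨lf b'.rep i j, lf_hom _ _ _, ?_, ?_⟩
    · simp [lf, mul_comm]
    · simpa [lf, sub_eq_zero] using hne
  obtain ⟨j, hj⟩ : ∃ j, b'.rep j ≠ 0 := by
    by_contra hall
    push Not at hall
    exact b'.rep_nonzero (funext hall)
  refine h ?_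
  rw [← b.mk_rep, ← b'.mk_rep, Projectivization.mk_eq_mk_iff']
  refine ⟨b.rep j / b'.rep j, funext fun i => ?_⟩
  rw [Pi.smul_apply, smul_eq_mul, div_mul_eq_mul_div, div_eq_iff hj]
  have := key i j
  linear_combination -this

theorem specInterp : SpecInterp := by
  classical
  intro n B hB
  choose! ℓ hℓ1 hℓ2 hℓ3 using fun (b b' : PS n) (h : b ≠ b') => exists_lf b b' h
  set S : Finset (PS n) := hB.toFinset with hS
  have memS : ∀ b, b ∈ S ↔ b ∈ B := fun b => by simp [hS]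
  set F : PS n → Pol n := fun b => ∏ b' ∈ S.erase b, ℓ b b' with hF
  have Fhom : ∀ b ∈ S, (F b).IsHomogeneous (S.card - 1) := by
    intro b hb
    have h := MvPolynomial.IsHomogeneous.prod (S.erase b) (fun b' => ℓ b b') (fun _ => 1)
      (fun b' hb' => hℓ1 b b' (Finset.ne_of_mem_erase hb').symm)
    simpa [Finset.card_erase_of_mem hb] using h
  have F0 : ∀ b ∈ S, ∀ b' ∈ S, b ≠ b' → MvPolynomial.eval b'.rep (F b) = 0 := by
    intro b hb b' hb' hne
    rw [hF]
    simp only [map_prod]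
    exact Finset.prod_eq_zero (Finset.mem_erase.2 ⟨hne.symm, hb'⟩) (hℓ2 b b' hne)
  have F1 : ∀ b ∈ S, MvPolynomial.eval b.rep (F b) ≠ 0 := by
    intro b hb
    rw [hF]
    simp only [map_prod]
    exact Finset.prod_ne_zero_iff.2 fun b' hb' => hℓ3 b b' (Finset.ne_of_mem_erase hb').symm
  have hsum : ∀ (v : PS n → ℂ), ∀ b ∈ S,
      MvPolynomial.eval b.rep (∑ b' ∈ S, MvPolynomial.C (v b') * F b') =
        v b * MvPolynomial.eval b.rep (F b) := by
    intro v b hb
    rw [map_sum, Finset.sum_eq_single b]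
    · simp
    · intro b' hb' hne
      rw [map_mul, F0 b' hb' b hb hne, mul_zero]
    · exact fun h => absurd hb h
  have hhom : ∀ v : PS n → ℂ,
      (∑ b' ∈ S, MvPolynomial.C (v b') * F b').IsHomogeneous (S.card - 1) := by
    intro v
    refine MvPolynomial.IsHomogeneous.sum _ _ _ fun b hb => ?_
    exact (Fhom b hb).C_mul _
  refine ⟨S.card - 1, ∑ b' ∈ S, MvPolynomial.C ((fun _ => 1 : PS n → ℂ) b') * F b',
    hhom fun _ => 1, fun b hb => ?_, fun v => ⟨∑ b' ∈ S, MvPolynomial.C (v b') * F b', hhom v,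
      fun b hb => ?_⟩⟩
  · rw [hsum (fun _ => 1) b ((memS b).2 hb), one_mul]
    exact F1 b ((memS b).2 hb)
  · rw [hsum (fun _ => 1) b ((memS b).2 hb), hsum v b ((memS b).2 hb), one_mul,
      mul_div_cancel_right₀ _ (F1 b ((memS b).2 hb))]

end MP590
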