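import Pool.Agent.Lib.MP_00590d_ag.Defs

set_option autoImplicit false

/-!
# MP_00590d_ag : the statements of the modules

Paper proofs of all of them: `/team-store/MP_00590d_ag_PROOF.md`. Each module proves
`theorem specName : SpecName` and may assume the other Specs as hypotheses.
-/

namespace MP590

open MPb00168 TCMM

/-! ## The class (group theory) -/

/-- CLS: `xx` is a cocycle and `3 xx` is a coboundary. -/
def SpecCls : Prop :=
  ∀ (Γ O : Type) [Group Γ] [Fintype O] (a : Γ →* Equiv.Perm O) (r : O → O) (f : O → ZMod 3),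
    IsRot a r → Phase r f → IsCocycle (xx a f) ∧ IsCobd fun x => 3 * xx a f x

/-- INDEP: the class does not depend on the phase. -/
def SpecIndep : Prop :=
  ∀ (Γ O : Type) [Group Γ] [Fintype O] (a : Γ →* Equiv.Perm O) (r : O → O) (f f' : O → ZMod 3),
    IsRot a r → Phase r f → Phase r f' → IsCobd fun x => xx a f x - xx a f' x

/-- COPIES: if the set `O'` consists of copies of `O` and of a part where the phase is invariant,
then only the copies contribute. -/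
def SpecCopies : Prop :=
  ∀ (Γ Γ' O O' V : Type) [Group Γ] [Group Γ'] [Fintype O] [Fintype O'] [Fintype V]
    (h : Γ' →* Γ) (a : Γ →* Equiv.Perm O) (a' : Γ' →* Equiv.Perm O') (f : O → ZMod 3)
    (f' : O' → ZMod 3) (j : V → O → O'),
    (∀ v w o p, j v o = j w p → v = w ∧ o = p) →
    (∀ v γ o, j v (a (h γ) o) = a' γ (j v o)) →
    (∀ v o, f' (j v o) = f o) →
    (∀ o', (∀ v o, j v o ≠ o') → ∀ γ, f' (a' γ o') = f' o') →
    ∀ x : Fin 5 → Γ', xx a' f' x = Fintype.card V * xx a f (fun i => h (x i))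

/-- PHASE: `rot` is a rotation and has a phase. -/
def SpecPhase : Prop :=
  (∀ (Γ S : Type) [Group Γ] (a : Γ →* Equiv.Perm S), IsRot (aNC a) (rot (S := S))) ∧
  ∀ S : Type, ∃ f : NC S → ZMod 3, Phase rot f

/-- STABS: `H¹(Σ_{g+1}; ℤ/5)` is the product of `H¹(Σ_g; ℤ/5)` and of `(ℤ/5)²` with the trivial
action, for the action of `GamB g`. -/
def SpecStabS : Prop :=
  ∀ g : ℕ, ∃ e : SS (g + 1) ≃ SS g × (Multiplicative (ZMod 5) × Multiplicative (ZMod 5)),
    ∀ (γ : GamB g) (s : SS (g + 1)),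
      e (aS (g + 1) (cap (g + 1) (stab g γ)) s) = (aS g (cap g γ) (e s).1, (e s).2)

/-- STAB: compatibility with the stabilisation. -/
def SpecStab : Prop :=
  ∀ (g : ℕ) (f : NC (SS g) → ZMod 3) (f' : NC (SS (g + 1)) → ZMod 3), Phase rot f → Phase rot f' →
    IsCobd fun y => pull (cap g) (xx (aNC (aS g)) f) y -
      pull ((cap (g + 1)).comp (stab g)) (xx (aNC (aS (g + 1))) f') y

/-- DETE: the functional detecting the class of a cocycle on a cyclic group of order three kills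
coboundaries. -/
def SpecDetE : Prop :=
  ∀ (Γ : Type) [Group Γ] (t : Γ) (c : (Fin 5 → Γ) → ℤ), t ^ 3 = 1 → IsCobd (k := 3) c →
    (3 : ℤ) ∣ ∑ i : Fin 3, ∑ j : Fin 3,
      c ![1, t, t ^ (1 + (i : ℕ)), t ^ (2 + (i : ℕ)), t ^ (2 + (i : ℕ) + (j : ℕ))]

/-- DET: detection by an element of order three with `m₀` fixed points on `S`. -/
def SpecDet : Prop :=
  ∀ (Γ S : Type) [Group Γ] [Finite S] (a : Γ →* Equiv.Perm S) (f : NC S → ZMod 3) (t : Γ),
    Phase rot f → t ^ 3 = 1 → IsCobd (xx (aNC a) f) →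
      (9 : ℤ) ∣ (Nat.card S : ℤ) - (Nat.card {s : S // a t s = s} : ℤ)

/-- SIG: an element of order three (or one) of the mapping class group with `1` fixed point
(if `g` is not divisible by 3) or `25` fixed points (if `g` is divisible by 3) on
`H¹(Σ_g; ℤ/5)`. -/
def SpecSig : Prop :=
  (∀ g, Nat.card (SS g) = 25 ^ g) ∧
  ∀ g, 1 ≤ g → ∃ t : Gam g, t ^ 3 = 1 ∧
    Nat.card {s : SS g // aS g t s = s} = if 3 ∣ g then 25 else 1

/-! ## Topology -/

/-- WIND: winding numbers. On simplices where `Θ` has no zeros the cocycle `bb` is the coboundary of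
an integral cochain. -/
def SpecWind : Prop :=
  ∀ (Γ T O : Type) [Group Γ] [TopologicalSpace T] (C : GCov Γ T) (a : Γ →* Equiv.Perm O)
    (r : O → O) (f : O → ZMod 3) (U : O → Set C.T) (Θ : O → C.T → ℂ),
    IsRot a r → Phase r f →
    (∀ o, U (r o) = U o) → (∀ (γ : Γ) o m, γ • m ∈ U (a γ o) ↔ m ∈ U o) →
    (∀ o, ContinuousOn (Θ o) (U o)) → (∀ o, ∀ m ∈ U o, Θ o m ≠ 0) →
    (∀ o m, Θ (r o) m = om⁻¹ * Θ o m) → (∀ (γ : Γ) o m, Θ (a γ o) (γ • m) = Θ o m) →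
    ∀ u : C.T → Γ, (∀ (γ : Γ) m, u (γ • m) = γ * u m) →
    ∃ N : Sing C.T 1 → O → ℤ,
      (∀ (γ : Γ) σ o, N ((smC C γ).comp σ) (a γ o) = N σ o) ∧ (∀ σ o, N σ (r o) = N σ o) ∧
      ∀ (τ : Sing C.T 2) (o : O), (∀ t, τ t ∈ U o) →
        N (face 0 τ) o - N (face 1 τ) o + N (face 2 τ) o =
          bb a f o (u (τ (stdSimplex.vertex 0))) (u (τ (stdSimplex.vertex 1)))
            (u (τ (stdSimplex.vertex 2)))

/-- SMALL: a cochain `w` of degree `n + 1` which is a cocycle on the open set covered by the `V i`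
and vanishes on the simplices contained in some `V i` is, on this open set, the coboundary of a
cochain `E`, in a natural way. -/
def SpecSmallCo : Prop :=
  ∀ (X ι : Type) [TopologicalSpace X] (V : ι → Set X) (n : ℕ) (w : Sing X (n + 1) → ℤ),
    (∀ i, IsOpen (V i)) →
    (∀ ρ : Sing X (n + 2), (∀ t, ∃ i, ρ t ∈ V i) →
      ∑ k : Fin (n + 3), (-1) ^ (k : ℕ) * w (face k ρ) = 0) →
    (∀ σ : Sing X (n + 1), (∃ i, ∀ t, σ t ∈ V i) → w σ = 0) →
    ∃ E : Sing X n → ℤ,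
      (∀ σ : Sing X (n + 1), (∀ t, ∃ i, σ t ∈ V i) →
        w σ = ∑ k : Fin (n + 2), (-1) ^ (k : ℕ) * E (face k σ)) ∧
      ∀ φ : C(X, X), (∀ σ, w (φ.comp σ) = w σ) → ∀ τ, E (φ.comp τ) = E τ

/-- DESC: invariant cochains of the total space of a covering come from the base. -/
def SpecDesc : Prop :=
  ∀ (Γ T : Type) [Group Γ] [TopologicalSpace T] (C : GCov Γ T) (n : ℕ) (E : Sing C.T n → ℤ),
    (∀ (γ : Γ) τ, E ((smC C γ).comp τ) = E τ) → ∃ e : Sing T n → ℤ, ∀ τ, e (C.p.comp τ) = E τ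

/-- CUP: the cochain algebra. If `N false`, `N true` are as in WIND, then on `C.T` the cocycle
`xx` is the sum of `w` (product of the two cochains vanishing on the two kinds of simplices) and of
the coboundary of an invariant cochain `κ`. -/
def SpecCup : Prop :=
  ∀ (Γ T O : Type) [Group Γ] [TopologicalSpace T] [Fintype O] (C : GCov Γ T)
    (a : Γ →* Equiv.Perm O) (r : O → O) (f : O → ZMod 3) (U : Bool → O → Set C.T) (u : C.T → Γ)
    (N : Bool → Sing C.T 1 → O → ℤ),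
    IsRot a r → Phase r f → (∀ (γ : Γ) m, u (γ • m) = γ * u m) →
    (∀ j (γ : Γ) σ o, N j ((smC C γ).comp σ) (a γ o) = N j σ o) →
    (∀ j σ o, N j σ (r o) = N j σ o) →
    (∀ j (τ : Sing C.T 2) (o : O), (∀ t, τ t ∈ U j o) →
      N j (face 0 τ) o - N j (face 1 τ) o + N j (face 2 τ) o =
        bb a f o (u (τ (stdSimplex.vertex 0))) (u (τ (stdSimplex.vertex 1)))
          (u (τ (stdSimplex.vertex 2)))) →
    ∃ (w : Sing C.T 4 → ℤ) (κ : Sing C.T 3 → ℤ),
      (∀ (γ : Γ) σ, w ((smC C γ).comp σ) = w σ) ∧ (∀ (γ : Γ) σ, κ ((smC C γ).comp σ) = κ σ) ∧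
      (∀ ρ : Sing C.T 5, ∑ k : Fin 6, (-1) ^ (k : ℕ) * w (face k ρ) = 0) ∧
      (∀ σ : Sing C.T 4, (∀ o, (∀ t, σ t ∈ U false o) ∨ (∀ t, σ t ∈ U true o)) → w σ = 0) ∧
      ∀ σ : Sing C.T 4, xx a f (fun i => u (σ (stdSimplex.vertex i))) =
        w σ + ∑ k : Fin 5, (-1) ^ (k : ℕ) * κ (face k σ)

/-- TOP: the topological statement. -/
def SpecTop : Prop :=
  ∀ (Γ T O : Type) [Group Γ] [TopologicalSpace T] [Fintype O] (C : GCov Γ T)
    (a : Γ →* Equiv.Perm O) (r : O → O) (f : O → ZMod 3) (U : Bool → O → Set C.T)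
    (Θ : Bool → O → C.T → ℂ),
    IsRot a r → Phase r f → (∀ j o, IsOpen (U j o)) →
    (∀ j o, U j (r o) = U j o) → (∀ j (γ : Γ) o m, γ • m ∈ U j (a γ o) ↔ m ∈ U j o) →
    (∀ j o, ContinuousOn (Θ j o) (U j o)) → (∀ j o, ∀ m ∈ U j o, Θ j o m ≠ 0) →
    (∀ j o m, Θ j (r o) m = om⁻¹ * Θ j o m) → (∀ j (γ : Γ) o m, Θ j (a γ o) (γ • m) = Θ j o m) →
    ∀ u : C.T → Γ, (∀ (γ : Γ) m, u (γ • m) = γ * u m) →
    ∃ e : Sing T 3 → ℤ, ∀ σ : Sing C.T 4, (∀ t o, σ t ∈ U false o ∨ σ t ∈ U true o) →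
      xx a f (fun i => u (σ (stdSimplex.vertex i))) =
        ∑ k : Fin 5, (-1) ^ (k : ℕ) * e (face k (C.p.comp σ))

/-! ## Algebraic geometry -/

/-- ZTOP: the Zariski topology of `Y`; decomposition into irreducible components. -/
def SpecZTop : Prop :=
  ∀ (n : ℕ) (Y : Set (PS n)),
    ZC Y ∅ ∧ ZC Y Y ∧ (∀ A B, ZC Y A → ZC Y B → ZC Y (A ∪ B)) ∧
    (∀ (ι : Type) [Nonempty ι] (A : ι → Set (PS n)), (∀ i, ZC Y (A i)) → ZC Y (⋂ i, A i)) ∧
    ∀ A, ZC Y A → ∃ (k : ℕ) (W : Fin k → Set (PS n)), (∀ i, Irr Y (W i)) ∧ A = ⋃ i, W i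

/-- ZCONT: Zariski closed sets are closed and rational functions are continuous, for the classical
topology. -/
def SpecZCont : Prop :=
  ∀ n : ℕ,
    (∀ (Y A : Set (PS n)), ZC Y A → IsClosed {y : Y | (y : PS n) ∈ A}) ∧
    ∀ (d : ℕ) (P Q : Pol n), P.IsHomogeneous d → Q.IsHomogeneous d →
      ContinuousOn (fun y : PS n => MvPolynomial.eval y.rep P / MvPolynomial.eval y.rep Q)
        {y | MvPolynomial.eval y.rep Q ≠ 0}

/-- REGD: Zariski closedness of the zero set of a sum of rational functions composed with regular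
maps, together with the poles. -/
def SpecRegD : Prop :=
  ∀ (n : ℕ) (Y : Set (PS n)) (ι : Type) [Fintype ι] (α : ι → Y → Y) (d : ℕ)
    (P Q : ι → Pol n) (a : ι → ℂ),
    (∀ i, Regular fun y => (α i y : PS n)) → (∀ i, (P i).IsHomogeneous d) →
    (∀ i, (Q i).IsHomogeneous d) →
    ZC Y {y | ∃ h : y ∈ Y, (∃ i, MvPolynomial.eval (α i ⟨y, h⟩ : PS n).rep (Q i) = 0) ∨
      ∑ i, a i * (MvPolynomial.eval (α i ⟨y, h⟩ : PS n).rep (P i) /
        MvPolynomial.eval (α i ⟨y, h⟩ : PS n).rep (Q i)) = 0}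

/-- INTERP: interpolation at a finite set of points of projective space. -/
def SpecInterp : Prop :=
  ∀ (n : ℕ) (B : Set (PS n)), B.Finite → ∃ (d : ℕ) (Q : Pol n), Q.IsHomogeneous d ∧
    (∀ b ∈ B, MvPolynomial.eval b.rep Q ≠ 0) ∧
    ∀ v : PS n → ℂ, ∃ P : Pol n, P.IsHomogeneous d ∧
      ∀ b ∈ B, MvPolynomial.eval b.rep P / MvPolynomial.eval b.rep Q = v b

/-- ACT: facts about the level subgroup and the action on `Y`. -/
def SpecAct : Prop :=
  (∀ (g : ℕ) (γ : Gam g), γ ∈ Lev g ↔ aS g γ = 1) ∧ (∀ g : ℕ, (Lev g).Normal) ∧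
  (∀ g : ℕ, Finite (Gam g ⧸ Lev g)) ∧
  ∀ (g : ℕ) (L : Tors g),
    (∀ γ : Gam g, Continuous (L.act γ)) ∧
    (∀ (γ γ' : Gam g) (y : L.Y), L.act (γ * γ') y = L.act γ (L.act γ' y)) ∧
    (∀ γ ∈ Lev g, ∀ y : L.Y, L.act γ y = y) ∧
    ∃ v : L.Y → SS g → SS g, (∀ y, Function.Injective (v y)) ∧
      ∀ (γ : Gam g) (y : L.Y) (s : SS g), v (L.act γ y) (aS g γ s) = v y s

/-- CHOICE: good families of sections without zeros at given points. -/
def SpecChoice : Prop :=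
  ∀ (g : ℕ) (L : Tors g) (A : Set (PS L.n)), A.Finite → A ⊆ L.Y →
    ∃ (D : NC (SS g) → Set (PS L.n)) (Θ : NC (SS g) → L.Y → ℂ), Good L D Θ ∧
      ∀ t, ∀ y ∈ A, y ∉ D t

/-- CODIM: two good families of sections whose zeros intersect in codimension two. -/
def SpecCodim : Prop :=
  ∀ (g : ℕ) (L : Tors g),
    ∃ (D : Bool → NC (SS g) → Set (PS L.n)) (Θ : Bool → NC (SS g) → L.Y → ℂ),
      (∀ j, Good L (D j) (Θ j)) ∧ CodimGE L.Y (⋃ t, D false t ∩ D true t) 2 ∧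
      ZC L.Y (⋃ t, D false t ∩ D true t)

/-- GEO: the class dies off codimension two. -/
def SpecGeo : Prop :=
  ∀ (g : ℕ) (L : Tors g) (f : NC (SS g) → ZMod 3), Phase rot f →
    DiesOffO 2 L (d := 3) (xx (aNC (aS g)) f)

end MP590
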