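import Pool.Agent.Lib.MP_00590d_ag.Spec
import Pool.Agent.Lib.MP_b00168_gt.Transfer

set_option autoImplicit false

/-! # MP_00590d_ag : module WIND (winding numbers) -/

namespace MP590

open MPb00168 TCMM

namespace Wind

/-- The standard simplex. -/
abbrev Dl (k : ℕ) : Type := stdSimplex ℝ (Fin (k + 1))

/-! ### the phase -/

section Phase

variable {Γ O : Type} [Group Γ] {a : Γ →* Equiv.Perm O} {r : O → O} {f : O → ZMod 3}

lemma f_act_r (hR : IsRot a r) (hP : Phase r f) (γ : Γ) (o : O) :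
    f (a γ (r o)) = f (a γ o) + 1 := by
  rw [← hR.eqv, hP]

lemma dd_rot (hR : IsRot a r) (hP : Phase r f) (o : O) (g h : Γ) :
    dd a f (r o) g h = dd a f o g h := by
  unfold dd
  rw [f_act_r hR hP, f_act_r hR hP]
  ring

lemma act_inv_mul (γ g : Γ) (o : O) : a (γ * g)⁻¹ (a γ o) = a g⁻¹ o := by
  rw [← Equiv.Perm.mul_apply, ← map_mul]
  congr 2
  group

lemma dd_inv (γ : Γ) (o : O) (g h : Γ) : dd a f (a γ o) (γ * g) (γ * h) = dd a f o g h := by
  unfold dd
  rw [act_inv_mul, act_inv_mul]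

lemma dd_add (o : O) (g h k : Γ) : dd a f o g h + dd a f o h k = dd a f o g k := by
  unfold dd
  ring

lemma val_three (x y : ZMod 3) :
    (3 : ℤ) * (((x.val : ℤ) + (y.val : ℤ) - ((x + y).val : ℤ)) / 3) =
      (x.val : ℤ) + (y.val : ℤ) - ((x + y).val : ℤ) := by
  revert x y
  decide

/-- `3 bb` is the coboundary of `val dd`. -/
lemma three_bb (o : O) (g h k : Γ) : 3 * bb a f o g h k =
    ((dd a f o g h).val : ℤ) + ((dd a f o h k).val : ℤ) - ((dd a f o g k).val : ℤ) := by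
  unfold bb
  rw [← dd_add (a := a) (f := f) o g h k]
  exact val_three _ _

end Phase

/-! ### `ω` -/

lemma om_ne : om ≠ 0 := Complex.exp_ne_zero _

lemma om_three : om ^ 3 = 1 := by
  unfold om
  rw [← Complex.exp_nat_mul]
  rw [show ((3 : ℕ) : ℂ) * (2 * Real.pi * Complex.I / 3) = 2 * Real.pi * Complex.I by
    push_cast; ring]
  exact Complex.exp_two_pi_mul_I

lemma om_add (x y : ZMod 3) : om ^ (x + y).val = om ^ x.val * om ^ y.val := by
  rw [ZMod.val_add, ← pow_add, ← pow_eq_pow_mod _ om_three]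

lemma om_exp (n : ℕ) : Complex.exp (2 * Real.pi * Complex.I * ((n : ℂ) / 3)) = om ^ n := by
  unfold om
  rw [← Complex.exp_nat_mul]
  congr 1
  ring

/-! ### logarithms -/

/-- `l` is a logarithm of `g`. -/
def IsLog {k : ℕ} (l : C(Dl k, ℂ)) (g : Dl k → ℂ) : Prop :=
  ∀ t, Complex.exp (2 * Real.pi * Complex.I * l t) = g t

lemma c0 : (2 * Real.pi * Complex.I : ℂ) ≠ 0 := Complex.two_pi_I_ne_zero

lemma exists_log {k : ℕ} (g : Dl k → ℂ) (hc : Continuous g) (h0 : ∀ t, g t ≠ 0) :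
    ∃ l : C(Dl k, ℂ), IsLog l g := by
  have hcov := Complex.isCoveringMap_exp
  obtain ⟨F, ⟨-, hF⟩, -⟩ := hcov.existsUnique_continuousMap_lifts
    (A := Dl k) (⟨fun t => (⟨g t, h0 t⟩ : {z : ℂ // z ≠ 0}), hc.subtype_mk _⟩)
    (vertsD k 0) (Complex.log (g (vertsD k 0))) (by
      apply Subtype.ext
      exact Complex.exp_log (h0 _))
  refine ⟨⟨fun t => F t / (2 * Real.pi * Complex.I), by fun_prop⟩, fun t => ?_⟩
  have := congrArg Subtype.val (congrFun hF t)
  change Complex.exp (F t) = g t at this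
  change Complex.exp (2 * Real.pi * Complex.I * (F t / (2 * Real.pi * Complex.I))) = g t
  rw [mul_div_cancel₀ _ c0, this]

lemma log_unique {k : ℕ} (l l' : C(Dl k, ℂ)) (g : Dl k → ℂ) (h : IsLog l g) (h' : IsLog l' g) :
    ∃ n : ℤ, ∀ t, l t = l' t + n := by
  have hcov := Complex.isCoveringMap_exp
  have e0 := (h (vertsD k 0)).trans (h' (vertsD k 0)).symm
  rw [Complex.exp_eq_exp_iff_exists_int] at e0
  obtain ⟨n, hn⟩ := e0
  refine ⟨n, fun t => ?_⟩
  have e1 : (fun t => 2 * Real.pi * Complex.I * l t) =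
      fun t => 2 * Real.pi * Complex.I * l' t + n * (2 * Real.pi * Complex.I) := by
    refine hcov.eq_of_comp_eq (by fun_prop) (by fun_prop) ?_ (vertsD k 0) hn
    funext t
    apply Subtype.ext
    change Complex.exp (2 * Real.pi * Complex.I * l t) =
      Complex.exp (2 * Real.pi * Complex.I * l' t + n * (2 * Real.pi * Complex.I))
    rw [Complex.exp_periodic.int_mul n, h t, h' t]
  have e2 := congrFun e1 t
  have e3 : (2 * Real.pi * Complex.I) * l t = (2 * Real.pi * Complex.I) * (l' t + n) := by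
    rw [mul_add, mul_comm (2 * Real.pi * Complex.I) (n : ℂ)]
    exact e2
  exact mul_left_cancel₀ c0 e3

/-! ### the cochain -/

/-- Choose an integer satisfying `Q`. -/
noncomputable def pick (Q : ℤ → Prop) : ℤ :=
  open Classical in if h : ∃ n, Q n then h.choose else 0

lemma pick_eq {Q : ℤ → Prop} {n : ℤ} (h : Q n) (hu : ∀ m, Q m → m = n) : pick Q = n := by
  unfold pick
  have hex : ∃ n, Q n := ⟨n, h⟩
  rw [dif_pos hex]
  exact hu _ hex.choose_spec

section Cochain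

variable {Γ O M : Type} [Group Γ] [TopologicalSpace M] (a : Γ →* Equiv.Perm O)
  (f : O → ZMod 3) (Θ : O → M → ℂ) (u : M → Γ)

/-- The twisted section. -/
noncomputable def GG (m : M) (o : O) : ℂ := om ^ (f (a (u m)⁻¹ o)).val * Θ o m

/-- The (discontinuous) logarithm of the twisted section. -/
noncomputable def L0 (m : M) (o : O) : ℂ :=
  Complex.log (GG a f Θ u m o) / (2 * Real.pi * Complex.I)

/-- The defining property of the winding number. -/
def QQ (σ : Sing M 1) (o : O) (n : ℤ) : Prop :=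
  ∃ l : C(Dl 1, ℂ), IsLog l (fun t => Θ o (σ t)) ∧
    (n : ℂ) = ((dd a f o (u (σ (stdSimplex.vertex 0))) (u (σ (stdSimplex.vertex 1)))).val : ℂ) / 3
      + (L0 a f Θ u (σ (stdSimplex.vertex 1)) o - L0 a f Θ u (σ (stdSimplex.vertex 0)) o)
      - (l (stdSimplex.vertex 1) - l (stdSimplex.vertex 0))

variable {a f Θ u}

lemma QQ_unique {σ : Sing M 1} {o : O} {n n' : ℤ} (h : QQ a f Θ u σ o n)
    (h' : QQ a f Θ u σ o n') : n = n' := by
  obtain ⟨l, hl, e⟩ := h
  obtain ⟨l', hl', e'⟩ := h'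
  obtain ⟨c, hc⟩ := log_unique l l' _ hl hl'
  have : (n : ℂ) = (n' : ℂ) := by
    rw [e, e', hc, hc]
    ring
  exact_mod_cast this

omit [TopologicalSpace M] in
lemma GG_ne {m : M} {o : O} (h : Θ o m ≠ 0) : GG a f Θ u m o ≠ 0 :=
  mul_ne_zero (pow_ne_zero _ om_ne) h

omit [TopologicalSpace M] in
lemma exp_L0 {m : M} {o : O} (h : Θ o m ≠ 0) :
    Complex.exp (2 * Real.pi * Complex.I * L0 a f Θ u m o) = GG a f Θ u m o := by
  unfold L0
  rw [mul_div_cancel₀ _ c0, Complex.exp_log (GG_ne h)]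

lemma QQ_of_log {σ : Sing M 1} {o : O} (h0 : ∀ t, Θ o (σ t) ≠ 0) (l : C(Dl 1, ℂ))
    (hl : IsLog l (fun t => Θ o (σ t))) : ∃ n : ℤ,
    (n : ℂ) = ((dd a f o (u (σ (stdSimplex.vertex 0))) (u (σ (stdSimplex.vertex 1)))).val : ℂ) / 3
      + (L0 a f Θ u (σ (stdSimplex.vertex 1)) o - L0 a f Θ u (σ (stdSimplex.vertex 0)) o)
      - (l (stdSimplex.vertex 1) - l (stdSimplex.vertex 0)) := by
  set m0 := σ (stdSimplex.vertex 0) with hm0
  set m1 := σ (stdSimplex.vertex 1) with hm1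
  have h00 : Θ o m0 ≠ 0 := h0 _
  have h01 : Θ o m1 ≠ 0 := h0 _
  have e0 : Complex.exp (2 * Real.pi * Complex.I * l (stdSimplex.vertex 0)) = Θ o m0 := hl _
  have e1 : Complex.exp (2 * Real.pi * Complex.I * l (stdSimplex.vertex 1)) = Θ o m1 := hl _
  have key : Complex.exp (2 * Real.pi * Complex.I *
      (((dd a f o (u m0) (u m1)).val : ℂ) / 3 + (L0 a f Θ u m1 o - L0 a f Θ u m0 o)
        - (l (stdSimplex.vertex 1) - l (stdSimplex.vertex 0)))) = 1 := by
    rw [show 2 * Real.pi * Complex.I *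
      (((dd a f o (u m0) (u m1)).val : ℂ) / 3 + (L0 a f Θ u m1 o - L0 a f Θ u m0 o)
        - (l (stdSimplex.vertex 1) - l (stdSimplex.vertex 0))) =
        2 * Real.pi * Complex.I * (((dd a f o (u m0) (u m1)).val : ℂ) / 3)
        + 2 * Real.pi * Complex.I * L0 a f Θ u m1 o + 2 * Real.pi * Complex.I *
          l (stdSimplex.vertex 0)
        - (2 * Real.pi * Complex.I * L0 a f Θ u m0 o + 2 * Real.pi * Complex.I *
          l (stdSimplex.vertex 1)) by ring]
    rw [Complex.exp_sub, Complex.exp_add, Complex.exp_add, Complex.exp_add, om_exp, exp_L0 h01,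
      exp_L0 h00, e0, e1]
    unfold GG dd
    have hx : om ^ (f (a (u m0)⁻¹ o)).val =
        om ^ (f (a (u m0)⁻¹ o) - f (a (u m1)⁻¹ o)).val * om ^ (f (a (u m1)⁻¹ o)).val := by
      rw [← om_add, sub_add_cancel]
    rw [hx]
    have p1 : om ^ (f (a (u m0)⁻¹ o) - f (a (u m1)⁻¹ o)).val ≠ 0 := pow_ne_zero _ om_ne
    have p2 : om ^ (f (a (u m1)⁻¹ o)).val ≠ 0 := pow_ne_zero _ om_ne
    field_simp
  rw [Complex.exp_eq_one_iff] at key
  obtain ⟨n, hn⟩ := key
  refine ⟨n, ?_⟩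
  rw [mul_comm (n : ℂ)] at hn
  exact (mul_left_cancel₀ c0 hn).symm

end Cochain

section Main

variable {Γ T O : Type} [Group Γ] [TopologicalSpace T] {C : GCov Γ T} {a : Γ →* Equiv.Perm O}
  {r : O → O} {f : O → ZMod 3} {Θ : O → C.T → ℂ} {u : C.T → Γ}

lemma GG_rot (hR : IsRot a r) (hP : Phase r f) (hr : ∀ o m, Θ (r o) m = om⁻¹ * Θ o m) (m : C.T)
    (o : O) : GG a f Θ u m (r o) = GG a f Θ u m o := by
  unfold GG
  rw [f_act_r hR hP, hr, om_add]
  have h1 : (1 : ZMod 3).val = 1 := rfl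
  rw [h1, pow_one]
  field_simp [om_ne]

lemma GG_inv (hi : ∀ (γ : Γ) o m, Θ (a γ o) (γ • m) = Θ o m)
    (hu : ∀ (γ : Γ) m, u (γ • m) = γ * u m) (γ : Γ) (m : C.T) (o : O) :
    GG a f Θ u (γ • m) (a γ o) = GG a f Θ u m o := by
  unfold GG
  rw [hu, act_inv_mul, hi]

lemma QQ_inv (hi : ∀ (γ : Γ) o m, Θ (a γ o) (γ • m) = Θ o m)
    (hu : ∀ (γ : Γ) m, u (γ • m) = γ * u m) (γ : Γ) (σ : Sing C.T 1) (o : O) :
    QQ a f Θ u ((smC C γ).comp σ) (a γ o) = QQ a f Θ u σ o := by
  funext n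
  have e1 : ∀ t, ((smC C γ).comp σ) t = γ • σ t := fun _ => rfl
  unfold QQ
  simp only [e1, hi, hu, dd_inv, L0, GG_inv hi hu]

lemma IsLog_rot (hr : ∀ o m, Θ (r o) m = om⁻¹ * Θ o m) (σ : Sing C.T 1) (o : O) (l : C(Dl 1, ℂ)) :
    IsLog l (fun t => Θ (r o) (σ t)) ↔
      IsLog (l + ContinuousMap.const (Dl 1) (1 / 3 : ℂ)) (fun t => Θ o (σ t)) := by
  unfold IsLog
  refine forall_congr' fun t => ?_
  have e : Complex.exp (2 * Real.pi * Complex.I *
      ((l + ContinuousMap.const (Dl 1) (1 / 3 : ℂ) : C(Dl 1, ℂ)) t)) =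
      Complex.exp (2 * Real.pi * Complex.I * l t) * om := by
    have h1 := om_exp 1
    rw [pow_one] at h1
    rw [← h1, ← Complex.exp_add]
    congr 1
    simp only [ContinuousMap.add_apply, ContinuousMap.const_apply]
    push_cast
    ring
  rw [e]
  show _ = Θ (r o) (σ t) ↔ _ = Θ o (σ t)
  rw [hr]
  constructor
  · intro h
    rw [h]
    field_simp [om_ne]
  · intro h
    rw [← h]
    field_simp [om_ne]

lemma QQ_rot (hR : IsRot a r) (hP : Phase r f) (hr : ∀ o m, Θ (r o) m = om⁻¹ * Θ o m)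
    (σ : Sing C.T 1) (o : O) : QQ a f Θ u σ (r o) = QQ a f Θ u σ o := by
  funext n
  apply propext
  unfold QQ
  simp only [dd_rot hR hP, L0, GG_rot hR hP hr]
  constructor
  · rintro ⟨l, hl, e⟩
    refine ⟨_, (IsLog_rot hr σ o l).mp hl, ?_⟩
    rw [e]
    simp only [ContinuousMap.add_apply, ContinuousMap.const_apply]
    ring
  · rintro ⟨l, hl, e⟩
    refine ⟨l + ContinuousMap.const (Dl 1) (-(1 / 3) : ℂ), (IsLog_rot hr σ o _).mpr ?_, ?_⟩
    · have : l + ContinuousMap.const (Dl 1) (-(1 / 3) : ℂ) + ContinuousMap.const (Dl 1) (1 / 3 : ℂ) = l := by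
        ext t
        simp
      rw [this]
      exact hl
    · rw [e]
      simp only [ContinuousMap.add_apply, ContinuousMap.const_apply]
      ring

end Main

end Wind

open Wind in
theorem specWind : SpecWind := by
  intro Γ T O _ _ C a r f U Θ hR hP hUr hUi hc h0 hr hi u hu
  refine ⟨fun σ o => pick (QQ a f Θ u σ o), fun γ σ o => ?_, fun σ o => ?_, fun τ o hτ => ?_⟩
  · show pick _ = pick _
    rw [QQ_inv hi hu]
  · show pick _ = pick _
    rw [QQ_rot hR hP hr]
  · have hne : ∀ t, Θ o (τ t) ≠ 0 := fun t => h0 o _ (hτ t)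
    have hcont : Continuous fun t => Θ o (τ t) := by
      rw [← continuousOn_univ]
      exact (hc o).comp τ.continuous.continuousOn fun t _ => hτ t
    obtain ⟨l, hl⟩ := exists_log (fun t => Θ o (τ t)) hcont hne
    have hv : ∀ (i : Fin 3) (j : Fin 2), faceMap 1 i (stdSimplex.vertex j) =
        (stdSimplex.vertex (i.succAbove j) : Dl 2) := fun i j => stdSimplex.map_vertex _ _
    have hface : ∀ i : Fin 3, ∃ n : ℤ, pick (QQ a f Θ u (face i τ) o) = n ∧
        (n : ℂ) = ((dd a f o (u (τ (stdSimplex.vertex (i.succAbove 0))))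
          (u (τ (stdSimplex.vertex (i.succAbove 1))))).val : ℂ) / 3
        + (L0 a f Θ u (τ (stdSimplex.vertex (i.succAbove 1))) o
          - L0 a f Θ u (τ (stdSimplex.vertex (i.succAbove 0))) o)
        - (l (stdSimplex.vertex (i.succAbove 1)) - l (stdSimplex.vertex (i.succAbove 0))) := by
      intro i
      have hl' : IsLog (l.comp (faceMap 1 i)) (fun t => Θ o (face i τ t)) := fun t => hl _
      obtain ⟨n, hn⟩ := QQ_of_log (a := a) (f := f) (u := u) (σ := face i τ) (o := o)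
        (fun t => hne _) _ hl'
      refine ⟨n, pick_eq ⟨_, hl', hn⟩ fun m hm => QQ_unique hm ⟨_, hl', hn⟩, ?_⟩
      have e1 : ∀ j : Fin 2, face i τ (stdSimplex.vertex j) =
          τ (stdSimplex.vertex (i.succAbove j)) := fun j => congrArg τ (hv i j)
      have e2 : ∀ j : Fin 2, l.comp (faceMap 1 i) (stdSimplex.vertex j) =
          l (stdSimplex.vertex (i.succAbove j)) := fun j => congrArg l (hv i j)
      rw [hn, e1, e1, e2, e2]
    obtain ⟨n0, h0', e0⟩ := hface 0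
    obtain ⟨n1, h1', e1⟩ := hface 1
    obtain ⟨n2, h2', e2⟩ := hface 2
    show pick _ - pick _ + pick _ = _
    rw [h0', h1', h2']
    have k00 : (0 : Fin 3).succAbove (0 : Fin 2) = 1 := rfl
    have k01 : (0 : Fin 3).succAbove (1 : Fin 2) = 2 := rfl
    have k10 : (1 : Fin 3).succAbove (0 : Fin 2) = 0 := rfl
    have k11 : (1 : Fin 3).succAbove (1 : Fin 2) = 2 := rfl
    have k20 : (2 : Fin 3).succAbove (0 : Fin 2) = 0 := rfl
    have k21 : (2 : Fin 3).succAbove (1 : Fin 2) = 1 := rfl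
    rw [k00, k01] at e0
    rw [k10, k11] at e1
    rw [k20, k21] at e2
    have hb := three_bb (a := a) (f := f) o (u (τ (stdSimplex.vertex 0)))
      (u (τ (stdSimplex.vertex 1))) (u (τ (stdSimplex.vertex 2)))
    have hb' : (3 : ℂ) * (bb a f o (u (τ (stdSimplex.vertex 0))) (u (τ (stdSimplex.vertex 1)))
        (u (τ (stdSimplex.vertex 2))) : ℂ) =
        ((dd a f o (u (τ (stdSimplex.vertex 0))) (u (τ (stdSimplex.vertex 1)))).val : ℂ) +
        ((dd a f o (u (τ (stdSimplex.vertex 1))) (u (τ (stdSimplex.vertex 2)))).val : ℂ) -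
        ((dd a f o (u (τ (stdSimplex.vertex 0))) (u (τ (stdSimplex.vertex 2)))).val : ℂ) := by
      exact_mod_cast hb
    have : ((n0 - n1 + n2 : ℤ) : ℂ) = (bb a f o (u (τ (stdSimplex.vertex 0)))
        (u (τ (stdSimplex.vertex 1))) (u (τ (stdSimplex.vertex 2))) : ℂ) := by
      push_cast
      rw [e0, e1, e2]
      have h3 : (3 : ℂ) ≠ 0 := by norm_num
      apply mul_left_cancel₀ h3
      rw [hb']
      ring
    exact_mod_cast this

end MP590
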